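import Mathlib

set_option autoImplicit false

namespace Pool.Agent.H197R3.Bes

open scoped InnerProductSpace

section avg
variable {H : Type} [AddCommGroup H]

/-- sign average of `F` over the points `x ± u₁ ± ... ± u_k` -/
noncomputable def avg (F : H → ℝ) : List H → H → ℝ
  | [], x => F x
  | u :: L, x => (avg F L (x + u) + avg F L (x - u)) / 2

lemma avg_mono {F G : H → ℝ} (h : ∀ x, F x ≤ G x) (L : List H) (x : H) :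
    avg F L x ≤ avg G L x := by
  induction L generalizing x with
  | nil => exact h x
  | cons u L ih =>
    simp only [avg]
    have h1 := ih (x + u)
    have h2 := ih (x - u)
    linarith

lemma avg_add (F G : H → ℝ) (L : List H) (x : H) :
    avg (fun y => F y + G y) L x = avg F L x + avg G L x := by
  induction L generalizing x with
  | nil => rfl
  | cons u L ih =>
    simp only [avg, ih]
    ring

lemma avg_mul (c : ℝ) (F : H → ℝ) (L : List H) (x : H) :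
    avg (fun y => c * F y) L x = c * avg F L x := by
  induction L generalizing x with
  | nil => rfl
  | cons u L ih =>
    simp only [avg, ih]
    ring

lemma avg_const (c : ℝ) (L : List H) (x : H) : avg (fun _ => c) L x = c := by
  induction L generalizing x with
  | nil => rfl
  | cons u L ih =>
    simp only [avg, ih]
    ring

lemma avg_sum {ι : Type} (s : Finset ι) (F : ι → H → ℝ) (L : List H) (x : H) :
    avg (fun y => ∑ i ∈ s, F i y) L x = ∑ i ∈ s, avg (F i) L x := by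
  classical
  induction s using Finset.induction_on with
  | empty => simp [avg_const]
  | insert a s ha ih =>
    simp only [Finset.sum_insert ha]
    rw [avg_add, ih]

end avg

variable {H : Type} [NormedAddCommGroup H] [InnerProductSpace ℂ H]

lemma avg_norm_sq (L : List H) (x : H) :
    avg (fun y => ‖y‖ ^ 2) L x = ‖x‖ ^ 2 + (L.map (fun u => ‖u‖ ^ 2)).sum := by
  induction L generalizing x with
  | nil => simp [avg]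
  | cons u L ih =>
    simp only [avg, ih, List.map_cons, List.sum_cons]
    have := parallelogram_law_with_norm ℂ x u
    nlinarith

lemma avg_inner_sq (φ : H) (L : List H) (x : H) :
    avg (fun y => ‖⟪φ, y⟫_ℂ‖ ^ 2) L x =
      ‖⟪φ, x⟫_ℂ‖ ^ 2 + (L.map (fun u => ‖⟪φ, u⟫_ℂ‖ ^ 2)).sum := by
  induction L generalizing x with
  | nil => simp [avg]
  | cons u L ih =>
    simp only [avg, ih, List.map_cons, List.sum_cons, inner_add_right, inner_sub_right]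
    have := parallelogram_law_with_norm ℂ (⟪φ, x⟫_ℂ) (⟪φ, u⟫_ℂ)
    nlinarith

lemma four_ineq (z w : ℂ) :
    (‖z + w‖ ^ 2) ^ 2 + (‖z - w‖ ^ 2) ^ 2 ≤
      2 * ((‖z‖ ^ 2) ^ 2 + 6 * ‖z‖ ^ 2 * ‖w‖ ^ 2 + (‖w‖ ^ 2) ^ 2) := by
  rw [Complex.sq_norm, Complex.sq_norm, Complex.sq_norm, Complex.sq_norm]
  simp only [Complex.normSq_apply, Complex.add_re, Complex.add_im, Complex.sub_re, Complex.sub_im]
  nlinarith [sq_nonneg (z.re * w.im - z.im * w.re)]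

lemma avg_inner_four (φ : H) (L : List H) (x : H) :
    avg (fun y => (‖⟪φ, y⟫_ℂ‖ ^ 2) ^ 2) L x ≤
      (‖⟪φ, x⟫_ℂ‖ ^ 2) ^ 2 + 6 * ‖⟪φ, x⟫_ℂ‖ ^ 2 * (L.map (fun u => ‖⟪φ, u⟫_ℂ‖ ^ 2)).sum
        + 3 * (L.map (fun u => ‖⟪φ, u⟫_ℂ‖ ^ 2)).sum ^ 2 := by
  induction L generalizing x with
  | nil => simp [avg]
  | cons u L ih =>
    have h1 := ih (x + u)
    have h2 := ih (x - u)
    simp only [avg, List.map_cons, List.sum_cons]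
    simp only [inner_add_right, inner_sub_right] at h1 h2
    have h3 := parallelogram_law_with_norm ℂ (⟪φ, x⟫_ℂ) (⟪φ, u⟫_ℂ)
    have h4 := four_ineq (⟪φ, x⟫_ℂ) (⟪φ, u⟫_ℂ)
    set S := (L.map (fun u => ‖⟪φ, u⟫_ℂ‖ ^ 2)).sum with hS
    have h3' : ‖⟪φ, x⟫_ℂ + ⟪φ, u⟫_ℂ‖ ^ 2 + ‖⟪φ, x⟫_ℂ - ⟪φ, u⟫_ℂ‖ ^ 2 =
        2 * (‖⟪φ, x⟫_ℂ‖ ^ 2 + ‖⟪φ, u⟫_ℂ‖ ^ 2) := by nlinarith
    have h5 : 6 * ‖⟪φ, x⟫_ℂ + ⟪φ, u⟫_ℂ‖ ^ 2 * S + 6 * ‖⟪φ, x⟫_ℂ - ⟪φ, u⟫_ℂ‖ ^ 2 * S =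
        6 * (2 * (‖⟪φ, x⟫_ℂ‖ ^ 2 + ‖⟪φ, u⟫_ℂ‖ ^ 2)) * S := by
      rw [← h3']; ring
    have h6 := sq_nonneg (‖⟪φ, u⟫_ℂ‖ ^ 2)
    nlinarith

/-- a Khintchine inequality -/
lemma khin (φ : H) (L : List H) (s : ℝ) (hs : 0 ≤ s)
    (hS : s ^ 2 = (L.map (fun u => ‖⟪φ, u⟫_ℂ‖ ^ 2)).sum) :
    9 / 16 * s ≤ avg (fun y => ‖⟪φ, y⟫_ℂ‖) L 0 := by
  rcases hs.eq_or_lt with h0 | hpos
  · rw [← h0, mul_zero]
    have := avg_mono (F := fun _ => (0 : ℝ)) (G := fun y => ‖⟪φ, y⟫_ℂ‖) (fun x => norm_nonneg _) L 0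
    rwa [avg_const] at this
  have key : ∀ y : H, 3 / (4 * s) * ‖⟪φ, y⟫_ℂ‖ ^ 2 + (-(1 / (16 * s ^ 3))) * (‖⟪φ, y⟫_ℂ‖ ^ 2) ^ 2 ≤
      ‖⟪φ, y⟫_ℂ‖ := by
    intro y
    set r := ‖⟪φ, y⟫_ℂ‖ with hr
    have hr0 : 0 ≤ r := norm_nonneg _
    have e1 : r - (3 / (4 * s) * r ^ 2 + (-(1 / (16 * s ^ 3))) * (r ^ 2) ^ 2) =
        r * ((r - 2 * s) ^ 2 * (r + 4 * s)) / (16 * s ^ 3) := by
      field_simp
      ring
    have e2 : 0 ≤ r * ((r - 2 * s) ^ 2 * (r + 4 * s)) / (16 * s ^ 3) := by positivity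
    linarith
  have h1 := avg_mono key L 0
  rw [avg_add, avg_mul, avg_mul, avg_inner_sq] at h1
  have h2 := avg_inner_four φ L 0
  simp only [inner_zero_right, norm_zero] at h1 h2
  rw [← hS] at h1 h2
  have h3 : (1 / (16 * s ^ 3)) * avg (fun y => (‖⟪φ, y⟫_ℂ‖ ^ 2) ^ 2) L 0 ≤
      (1 / (16 * s ^ 3)) * (3 * (s ^ 2) ^ 2) := by
    apply mul_le_mul_of_nonneg_left _ (by positivity)
    nlinarith
  have h4 : (1 / (16 * s ^ 3)) * (3 * (s ^ 2) ^ 2) = 3 / 16 * s := by field_simp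
  have h5 : 3 / (4 * s) * (0 ^ 2 + s ^ 2) = 3 / 4 * s := by field_simp; ring
  rw [h5] at h1
  linarith

/-- the averaged inequality -/
lemma key_ineq {ι : Type} (s : Finset ι) (w : ι → ℝ) (hw : ∀ n, 0 ≤ w n) (φ ψ : ι → H) (C : ℝ)
    (hC0 : 0 ≤ C)
    (hC : ∀ f g : H, ∑ n ∈ s, w n * (‖⟪φ n, g⟫_ℂ‖ * ‖⟪ψ n, f⟫_ℂ‖) ≤ C * (‖f‖ * ‖g‖))
    (L L' : List H) (hL : (L.map (fun u => ‖u‖ ^ 2)).sum ≤ 1)
    (hL' : (L'.map (fun u => ‖u‖ ^ 2)).sum ≤ 1) :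
    ∑ n ∈ s, w n * (√((L.map (fun u => ‖⟪φ n, u⟫_ℂ‖ ^ 2)).sum) *
      √((L'.map (fun u => ‖⟪ψ n, u⟫_ℂ‖ ^ 2)).sum)) ≤ 4 * C := by
  have nn : ∀ (φ : H) (L : List H), 0 ≤ (L.map (fun u => ‖⟪φ, u⟫_ℂ‖ ^ 2)).sum := by
    intro φ L
    apply List.sum_nonneg
    intro x hx
    rw [List.mem_map] at hx
    obtain ⟨u, _, rfl⟩ := hx
    positivity
  have h1 : ∀ n, (9 / 16) ^ 2 * (√((L.map (fun u => ‖⟪φ n, u⟫_ℂ‖ ^ 2)).sum) *
      √((L'.map (fun u => ‖⟪ψ n, u⟫_ℂ‖ ^ 2)).sum)) ≤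
      avg (fun y => ‖⟪φ n, y⟫_ℂ‖) L 0 * avg (fun y => ‖⟪ψ n, y⟫_ℂ‖) L' 0 := by
    intro n
    have a1 := khin (φ n) L _ (Real.sqrt_nonneg _) (Real.sq_sqrt (nn (φ n) L))
    have a2 := khin (ψ n) L' _ (Real.sqrt_nonneg _) (Real.sq_sqrt (nn (ψ n) L'))
    have := mul_le_mul a1 a2 (by positivity) (le_trans (by positivity) a1)
    nlinarith
  have h2 : ∑ n ∈ s, w n * (avg (fun y => ‖⟪φ n, y⟫_ℂ‖) L 0 * avg (fun y => ‖⟪ψ n, y⟫_ℂ‖) L' 0) =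
      avg (fun g => avg (fun f => ∑ n ∈ s, w n * (‖⟪φ n, g⟫_ℂ‖ * ‖⟪ψ n, f⟫_ℂ‖)) L' 0) L 0 := by
    have : ∀ g : H, avg (fun f => ∑ n ∈ s, w n * (‖⟪φ n, g⟫_ℂ‖ * ‖⟪ψ n, f⟫_ℂ‖)) L' 0 =
        ∑ n ∈ s, (w n * avg (fun y => ‖⟪ψ n, y⟫_ℂ‖) L' 0) * ‖⟪φ n, g⟫_ℂ‖ := by
      intro g
      rw [avg_sum]
      refine Finset.sum_congr rfl fun n _ => ?_
      have : (fun f : H => w n * (‖⟪φ n, g⟫_ℂ‖ * ‖⟪ψ n, f⟫_ℂ‖)) =
          fun f => (w n * ‖⟪φ n, g⟫_ℂ‖) * ‖⟪ψ n, f⟫_ℂ‖ := by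
        funext f; ring
      rw [this, avg_mul]
      ring
    simp only [this]
    rw [avg_sum]
    refine Finset.sum_congr rfl fun n _ => ?_
    rw [avg_mul]
    ring
  have h3 : avg (fun g => avg (fun f => ∑ n ∈ s, w n * (‖⟪φ n, g⟫_ℂ‖ * ‖⟪ψ n, f⟫_ℂ‖)) L' 0) L 0 ≤ C := by
    have a1 : ∀ g : H, avg (fun f => ∑ n ∈ s, w n * (‖⟪φ n, g⟫_ℂ‖ * ‖⟪ψ n, f⟫_ℂ‖)) L' 0 ≤
        C / 2 * ‖g‖ ^ 2 + C / 2 := by
      intro g
      have b1 : ∀ f : H, ∑ n ∈ s, w n * (‖⟪φ n, g⟫_ℂ‖ * ‖⟪ψ n, f⟫_ℂ‖) ≤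
          C / 2 * ‖g‖ ^ 2 + C / 2 * ‖f‖ ^ 2 := by
        intro f
        refine (hC f g).trans ?_
        nlinarith [mul_nonneg hC0 (sq_nonneg (‖f‖ - ‖g‖))]
      have b2 := avg_mono b1 L' 0
      rw [avg_add, avg_const, avg_mul, avg_norm_sq] at b2
      simp only [norm_zero] at b2
      refine b2.trans ?_
      nlinarith
    have a2 := avg_mono a1 L 0
    rw [avg_add, avg_const, avg_mul, avg_norm_sq] at a2
    simp only [norm_zero] at a2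
    refine a2.trans ?_
    nlinarith
  have h4 : (9 / 16) ^ 2 * ∑ n ∈ s, w n * (√((L.map (fun u => ‖⟪φ n, u⟫_ℂ‖ ^ 2)).sum) *
      √((L'.map (fun u => ‖⟪ψ n, u⟫_ℂ‖ ^ 2)).sum)) ≤ C := by
    rw [← h2] at h3
    refine le_trans ?_ h3
    rw [Finset.mul_sum]
    refine Finset.sum_le_sum fun n _ => ?_
    have := mul_le_mul_of_nonneg_left (h1 n) (hw n)
    nlinarith
  nlinarith

end Pool.Agent.H197R3.Bes
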