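import Pool.Agent.H197R3.Bes1

set_option autoImplicit false

namespace Pool.Agent.H197R3.Bes

open scoped InnerProductSpace

lemma sqrt_lower (x : ℝ) (hx : -1 ≤ x) : 1 + x / 2 - x ^ 2 / 2 ≤ √(1 + x) := by
  by_cases h : 3 < x
  · have : 1 + x / 2 - x ^ 2 / 2 ≤ 0 := by nlinarith
    exact this.trans (Real.sqrt_nonneg _)
  · push Not at h
    apply Real.le_sqrt_of_sq_le
    have : 0 ≤ x ^ 2 * ((x + 1) * (3 - x)) := by
      apply mul_nonneg (sq_nonneg _) (mul_nonneg (by linarith) (by linarith))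
    nlinarith

lemma first_order {ι : Type} (s : Finset ι) (A B d : ι → ℝ) (hA : ∀ n, 0 < A n)
    (hB : ∀ n, 0 < B n) (hd : ∀ n, 0 ≤ A n + d n)
    (h : ∀ r : ℝ, 0 ≤ r → r ≤ 1 →
      ∑ n ∈ s, √((A n + r * d n) * B n) ≤ ∑ n ∈ s, √(A n * B n)) :
    ∑ n ∈ s, √(B n) / √(A n) * d n ≤ 0 := by
  set Lc := ∑ n ∈ s, √(B n) / √(A n) * d n with hL
  set K := ∑ n ∈ s, √(A n) * √(B n) * (d n / A n) ^ 2 with hK
  have hK0 : 0 ≤ K := Finset.sum_nonneg fun n _ => by positivity
  have h1 : ∀ r : ℝ, 0 < r → r ≤ 1 → Lc ≤ r * K := by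
    intro r hr hr1
    have h2 := h r hr.le hr1
    have h3 : ∀ n, √(A n * B n) + r / 2 * (√(B n) / √(A n) * d n) -
        r ^ 2 / 2 * (√(A n) * √(B n) * (d n / A n) ^ 2) ≤ √((A n + r * d n) * B n) := by
      intro n
      have hAn := hA n
      have hBn := hB n
      have hx : -1 ≤ r * d n / A n := by
        rw [le_div_iff₀ hAn]
        have := hd n
        nlinarith [mul_le_mul_of_nonneg_left (show -A n ≤ d n by linarith) hr.le]
      have h4 := sqrt_lower _ hx
      have h5 : √((A n + r * d n) * B n) = √(A n) * √(B n) * √(1 + r * d n / A n) := by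
        rw [← Real.sqrt_mul hAn.le, ← Real.sqrt_mul (by positivity)]
        congr 1
        field_simp
      rw [h5, Real.sqrt_mul hAn.le]
      have h6 := mul_le_mul_of_nonneg_left h4 (show 0 ≤ √(A n) * √(B n) by positivity)
      refine le_trans (le_of_eq ?_) h6
      have h7 : √(B n) / √(A n) = √(A n) * √(B n) / A n := by
        have : A n = √(A n) * √(A n) := (Real.mul_self_sqrt hAn.le).symm
        have h8 : √(A n) ≠ 0 := (Real.sqrt_pos.2 hAn).ne'
        rw [div_eq_div_iff h8 hAn.ne']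
        nth_rewrite 1 [this]
        ring
      rw [h7]
      field_simp
    have h4 := Finset.sum_le_sum fun n (_ : n ∈ s) => h3 n
    rw [Finset.sum_sub_distrib, Finset.sum_add_distrib, ← Finset.mul_sum, ← Finset.mul_sum] at h4
    have h5 : r / 2 * Lc - r ^ 2 / 2 * K ≤ 0 := by linarith
    have h6 : r * Lc ≤ r * (r * K) := by nlinarith
    exact le_of_mul_le_mul_left h6 hr
  by_contra hcon
  push Not at hcon
  have h2 := h1 (min 1 (Lc / (2 * (K + 1)))) (lt_min one_pos (by positivity)) (min_le_left _ _)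
  have h3 : min 1 (Lc / (2 * (K + 1))) * K ≤ Lc / (2 * (K + 1)) * K :=
    mul_le_mul_of_nonneg_right (min_le_right _ _) hK0
  have h4 : Lc / (2 * (K + 1)) * K ≤ Lc / 2 := by
    rw [div_mul_eq_mul_div, div_le_div_iff₀ (by positivity) (by norm_num)]
    nlinarith
  linarith

/-- Existence of weights from a bound on `∑ √((p+δ)(q+δ))`. -/
lemma opt {ι : Type} [Fintype ι] (P Q : Set (ι → ℝ)) (hPc : Convex ℝ P) (hQc : Convex ℝ Q)
    (hPk : IsCompact P) (hQk : IsCompact Q) (hPn : P.Nonempty) (hQn : Q.Nonempty)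
    (hP0 : ∀ p ∈ P, ∀ n, 0 ≤ p n) (hQ0 : ∀ q ∈ Q, ∀ n, 0 ≤ q n)
    (δ : ι → ℝ) (hδ : ∀ n, 0 < δ n) (C : ℝ)
    (hG : ∀ p ∈ P, ∀ q ∈ Q, ∑ n, √((p n + δ n) * (q n + δ n)) ≤ C) :
    ∃ t : ι → ℝ, (∀ n, 0 < t n) ∧ (∀ p ∈ P, ∑ n, t n * (p n + δ n) ≤ C) ∧
      (∀ q ∈ Q, ∑ n, (t n)⁻¹ * (q n + δ n) ≤ C) := by
  have hcont : Continuous (fun z : (ι → ℝ) × (ι → ℝ) =>
      ∑ n, √((z.1 n + δ n) * (z.2 n + δ n))) := by fun_prop
  obtain ⟨⟨p, q⟩, hpq, hmax⟩ := (hPk.prod hQk).exists_isMaxOn (hPn.prod hQn) hcont.continuousOn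
  obtain ⟨hp, hq⟩ : p ∈ P ∧ q ∈ Q := hpq
  have hA : ∀ n, 0 < p n + δ n := fun n => add_pos_of_nonneg_of_pos (hP0 p hp n) (hδ n)
  have hB : ∀ n, 0 < q n + δ n := fun n => add_pos_of_nonneg_of_pos (hQ0 q hq n) (hδ n)
  refine ⟨fun n => √(q n + δ n) / √(p n + δ n), fun n => ?_, ?_, ?_⟩
  · have := Real.sqrt_pos.2 (hA n); have := Real.sqrt_pos.2 (hB n); positivity
  · intro p' hp'
    have h1 := first_order Finset.univ (fun n => p n + δ n) (fun n => q n + δ n)
      (fun n => p' n - p n) hA hB (fun n => by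
        have := hP0 p' hp' n; have := hδ n; show 0 ≤ p n + δ n + (p' n - p n); linarith) (by
        intro r hr0 hr1
        have hmem : (fun n => p n + r * (p' n - p n)) ∈ P := by
          have := hPc hp hp' (show 0 ≤ 1 - r by linarith) hr0 (by ring)
          convert this using 1
          funext n
          simp only [Pi.add_apply, Pi.smul_apply, smul_eq_mul]
          ring
        have h2 := hmax (Set.mk_mem_prod hmem hq)
        simp only [Set.mem_ofPred_eq] at h2
        refine le_trans (le_of_eq ?_) h2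
        refine Finset.sum_congr rfl fun n _ => ?_
        congr 2
        ring)
    have h2 : ∑ n, √(q n + δ n) / √(p n + δ n) * (p' n + δ n) =
        ∑ n, √((p n + δ n) * (q n + δ n)) +
          ∑ n, √(q n + δ n) / √(p n + δ n) * (p' n - p n) := by
      rw [← Finset.sum_add_distrib]
      refine Finset.sum_congr rfl fun n _ => ?_
      rw [Real.sqrt_mul (hA n).le]
      have h3 : √(p n + δ n) ≠ 0 := (Real.sqrt_pos.2 (hA n)).ne'
      have h4 : √(p n + δ n) * √(q n + δ n) = √(q n + δ n) / √(p n + δ n) * (p n + δ n) := by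
        rw [div_mul_eq_mul_div, eq_div_iff h3]
        linear_combination (√(q n + δ n)) * Real.mul_self_sqrt (hA n).le
      rw [h4]; ring
    rw [h2]
    have := hG p hp q hq
    linarith
  · intro q' hq'
    have h1 := first_order Finset.univ (fun n => q n + δ n) (fun n => p n + δ n)
      (fun n => q' n - q n) hB hA (fun n => by
        have := hQ0 q' hq' n; have := hδ n; show 0 ≤ q n + δ n + (q' n - q n); linarith) (by
        intro r hr0 hr1
        have hmem : (fun n => q n + r * (q' n - q n)) ∈ Q := by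
          have := hQc hq hq' (show 0 ≤ 1 - r by linarith) hr0 (by ring)
          convert this using 1
          funext n
          simp only [Pi.add_apply, Pi.smul_apply, smul_eq_mul]
          ring
        have h2 := hmax (Set.mk_mem_prod hp hmem)
        simp only [Set.mem_ofPred_eq] at h2
        have e1 : ∑ n, √((q n + δ n) * (p n + δ n)) = ∑ n, √((p n + δ n) * (q n + δ n)) :=
          Finset.sum_congr rfl fun n _ => by rw [mul_comm]
        rw [e1]
        refine le_trans (le_of_eq ?_) h2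
        refine Finset.sum_congr rfl fun n _ => ?_
        congr 1
        ring)
    have h2 : ∑ n, (√(q n + δ n) / √(p n + δ n))⁻¹ * (q' n + δ n) =
        ∑ n, √((p n + δ n) * (q n + δ n)) +
          ∑ n, √(p n + δ n) / √(q n + δ n) * (q' n - q n) := by
      rw [← Finset.sum_add_distrib]
      refine Finset.sum_congr rfl fun n _ => ?_
      rw [Real.sqrt_mul (hA n).le, inv_div]
      have h3 : √(q n + δ n) ≠ 0 := (Real.sqrt_pos.2 (hB n)).ne'
      have h4 : √(p n + δ n) * √(q n + δ n) = √(p n + δ n) / √(q n + δ n) * (q n + δ n) := by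
        rw [div_mul_eq_mul_div, eq_div_iff h3]
        linear_combination (√(p n + δ n)) * Real.mul_self_sqrt (hB n).le
      rw [h4]; ring
    rw [h2]
    have := hG p hp q hq
    linarith

end Pool.Agent.H197R3.Bes
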