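import Pool.Agent.H197R3.Bes2

set_option autoImplicit false
set_option linter.unusedSectionVars false

namespace Pool.Agent.H197R3.Bes

open scoped InnerProductSpace

variable {H : Type} [NormedAddCommGroup H] [InnerProductSpace ℂ H]

lemma sqrt_add_le (a b : ℝ) (ha : 0 ≤ a) (hb : 0 ≤ b) : √(a + b) ≤ √a + √b := by
  apply Real.sqrt_le_iff.2
  refine ⟨by positivity, ?_⟩
  nlinarith [Real.sq_sqrt ha, Real.sq_sqrt hb, mul_nonneg (Real.sqrt_nonneg a) (Real.sqrt_nonneg b)]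

/-- the sum of squares along a list -/
noncomputable def ssq (φ : H) (L : List H) : ℝ := (L.map (fun u => ‖⟪φ, u⟫_ℂ‖ ^ 2)).sum

noncomputable def nsq (L : List H) : ℝ := (L.map (fun u => ‖u‖ ^ 2)).sum

lemma ssq_nonneg (φ : H) (L : List H) : 0 ≤ ssq φ L := by
  apply List.sum_nonneg
  intro x hx
  rw [List.mem_map] at hx
  obtain ⟨u, _, rfl⟩ := hx
  positivity

lemma ssq_le (φ : H) (L : List H) : ssq φ L ≤ ‖φ‖ ^ 2 * nsq L := by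
  unfold ssq nsq
  induction L with
  | nil => simp
  | cons u L ih =>
    simp only [List.map_cons, List.sum_cons]
    have h1 : ‖⟪φ, u⟫_ℂ‖ ^ 2 ≤ ‖φ‖ ^ 2 * ‖u‖ ^ 2 := by
      rw [← mul_pow]
      exact pow_le_pow_left₀ (norm_nonneg _) (norm_inner_le_norm _ _) 2
    nlinarith

lemma ssq_append (φ : H) (L L' : List H) : ssq φ (L ++ L') = ssq φ L + ssq φ L' := by
  simp [ssq]

lemma nsq_append (L L' : List H) : nsq (L ++ L') = nsq L + nsq L' := by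
  simp [nsq]

lemma ssq_smul (φ : H) (c : ℝ) (hc : 0 ≤ c) (L : List H) :
    ssq φ (L.map (fun u => ((√c : ℝ) : ℂ) • u)) = c * ssq φ L := by
  unfold ssq
  induction L with
  | nil => simp
  | cons u L ih =>
    simp only [List.map_cons, List.sum_cons, List.map_map] at ih ⊢
    rw [ih, inner_smul_right, norm_mul, mul_pow, mul_add]
    simp [Real.sq_sqrt hc]

lemma nsq_smul (c : ℝ) (hc : 0 ≤ c) (L : List H) :
    nsq (L.map (fun u => ((√c : ℝ) : ℂ) • u)) = c * nsq L := by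
  unfold nsq
  induction L with
  | nil => simp
  | cons u L ih =>
    simp only [List.map_cons, List.sum_cons, List.map_map] at ih ⊢
    rw [ih, norm_smul, mul_pow, mul_add]
    simp [Real.sq_sqrt hc]

/-- the convex set of diagonals -/
def PS {ι : Type} (w : ι → ℝ) (φ : ι → H) : Set (ι → ℝ) :=
  {p | ∃ L : List H, nsq L ≤ 1 ∧ ∀ n, p n = w n * ssq (φ n) L}

lemma PS_convex {ι : Type} (w : ι → ℝ) (φ : ι → H) : Convex ℝ (PS w φ) := by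
  intro p ⟨L, hL, hp⟩ q ⟨L', hL', hq⟩ a b ha hb hab
  refine ⟨L.map (fun u => ((√a : ℝ) : ℂ) • u) ++ L'.map (fun u => ((√b : ℝ) : ℂ) • u), ?_, ?_⟩
  · rw [nsq_append, nsq_smul a ha, nsq_smul b hb]
    have := mul_le_mul_of_nonneg_left hL ha
    have := mul_le_mul_of_nonneg_left hL' hb
    linarith
  · intro n
    rw [ssq_append, ssq_smul _ a ha, ssq_smul _ b hb]
    simp only [Pi.add_apply, Pi.smul_apply, smul_eq_mul, hp, hq]
    ring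

lemma PS_subset {ι : Type} (w : ι → ℝ) (hw : ∀ n, 0 ≤ w n) (φ : ι → H) :
    PS w φ ⊆ Set.Icc 0 (fun n => w n * ‖φ n‖ ^ 2) := by
  rintro p ⟨L, hL, hp⟩
  refine ⟨fun n => ?_, fun n => ?_⟩
  · rw [hp]; exact mul_nonneg (hw n) (ssq_nonneg _ _)
  · rw [hp]
    apply mul_le_mul_of_nonneg_left _ (hw n)
    refine (ssq_le _ _).trans ?_
    nlinarith [sq_nonneg ‖φ n‖]

lemma PS_nonempty {ι : Type} (w : ι → ℝ) (φ : ι → H) : (PS w φ).Nonempty :=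
  ⟨fun n => w n * ssq (φ n) [], [], by simp [nsq], fun _ => rfl⟩

lemma PS_closure_subset {ι : Type} (w : ι → ℝ) (hw : ∀ n, 0 ≤ w n) (φ : ι → H) :
    closure (PS w φ) ⊆ Set.Icc 0 (fun n => w n * ‖φ n‖ ^ 2) :=
  closure_minimal (PS_subset w hw φ) isClosed_Icc

lemma PS_compact {ι : Type} (w : ι → ℝ) (hw : ∀ n, 0 ≤ w n) (φ : ι → H) :
    IsCompact (closure (PS w φ)) :=
  isCompact_Icc.of_isClosed_subset isClosed_closure (PS_closure_subset w hw φ)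

lemma PS_single {ι : Type} (w : ι → ℝ) (φ : ι → H) (g : H) (hg : ‖g‖ ≤ 1) :
    (fun n => w n * ‖⟪φ n, g⟫_ℂ‖ ^ 2) ∈ PS w φ := by
  refine ⟨[g], ?_, fun n => by simp [ssq]⟩
  simp only [nsq, List.map_cons, List.map_nil, List.sum_cons, List.sum_nil, add_zero]
  have := norm_nonneg g
  nlinarith

lemma PS_bound {ι : Type} [Fintype ι] (w : ι → ℝ) (hw : ∀ n, 0 ≤ w n) (φ ψ : ι → H) (C : ℝ)
    (hC0 : 0 ≤ C)
    (hC : ∀ f g : H, ∑ n, w n * (‖⟪φ n, g⟫_ℂ‖ * ‖⟪ψ n, f⟫_ℂ‖) ≤ C * (‖f‖ * ‖g‖))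
    (δ : ι → ℝ) (hδ : ∀ n, 0 < δ n) (hδ1 : ∀ n, δ n ≤ 1)
    (hδs : ∑ n, √(δ n * (w n * ‖φ n‖ ^ 2 + w n * ‖ψ n‖ ^ 2 + 1)) ≤ 1) :
    ∀ p ∈ PS w φ, ∀ q ∈ PS w ψ, ∑ n, √((p n + δ n) * (q n + δ n)) ≤ 4 * C + 1 := by
  intro p hp q hq
  have hp2 := PS_subset w hw φ hp
  have hq2 := PS_subset w hw ψ hq
  obtain ⟨L, hL, hpL⟩ := hp
  obtain ⟨L', hL', hqL⟩ := hq
  have h1 : ∀ n, √((p n + δ n) * (q n + δ n)) ≤
      w n * (√(ssq (φ n) L) * √(ssq (ψ n) L')) +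
        √(δ n * (w n * ‖φ n‖ ^ 2 + w n * ‖ψ n‖ ^ 2 + 1)) := by
    intro n
    have hpn : 0 ≤ p n := hp2.1 n
    have hqn : 0 ≤ q n := hq2.1 n
    have hpn' : p n ≤ w n * ‖φ n‖ ^ 2 := hp2.2 n
    have hqn' : q n ≤ w n * ‖ψ n‖ ^ 2 := hq2.2 n
    have e1 : (p n + δ n) * (q n + δ n) = p n * q n + δ n * (p n + q n + δ n) := by ring
    rw [e1]
    have e2 : √(p n * q n) = w n * (√(ssq (φ n) L) * √(ssq (ψ n) L')) := by
      rw [hpL, hqL, ← Real.sqrt_mul (ssq_nonneg _ _)]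
      have : w n * ssq (φ n) L * (w n * ssq (ψ n) L') = (w n) ^ 2 * (ssq (φ n) L * ssq (ψ n) L') := by
        ring
      rw [this, Real.sqrt_mul (sq_nonneg _), Real.sqrt_sq (hw n)]
    have hdn := hδ n
    have hd1 := hδ1 n
    have e3 : √(p n * q n + δ n * (p n + q n + δ n)) ≤ √(p n * q n) + √(δ n * (p n + q n + δ n)) :=
      sqrt_add_le _ _ (by positivity) (by positivity)
    have e4 : √(δ n * (p n + q n + δ n)) ≤ √(δ n * (w n * ‖φ n‖ ^ 2 + w n * ‖ψ n‖ ^ 2 + 1)) := by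
      apply Real.sqrt_le_sqrt
      apply mul_le_mul_of_nonneg_left _ hdn.le
      linarith
    rw [← e2]
    linarith
  have h2 := Finset.sum_le_sum fun n (_ : n ∈ Finset.univ) => h1 n
  rw [Finset.sum_add_distrib] at h2
  have h3 := key_ineq Finset.univ w hw φ ψ C hC0 hC L L' hL hL'
  have h4 : ∑ n, w n * (√(ssq (φ n) L) * √(ssq (ψ n) L')) ≤ 4 * C := h3
  linarith

/-- finite case -/
lemma fin_weights {ι : Type} [Fintype ι] (w : ι → ℝ) (hw : ∀ n, 0 ≤ w n) (φ ψ : ι → H) (C : ℝ)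
    (hC0 : 0 ≤ C)
    (hC : ∀ f g : H, ∑ n, w n * (‖⟪φ n, g⟫_ℂ‖ * ‖⟪ψ n, f⟫_ℂ‖) ≤ C * (‖f‖ * ‖g‖))
    (δ : ι → ℝ) (hδ : ∀ n, 0 < δ n) (hδ1 : ∀ n, δ n ≤ 1)
    (hδs : ∑ n, √(δ n * (w n * ‖φ n‖ ^ 2 + w n * ‖ψ n‖ ^ 2 + 1)) ≤ 1) :
    ∃ t : ι → ℝ, (∀ n, 0 < t n) ∧
      (∀ g : H, ‖g‖ ≤ 1 → ∑ n, t n * (w n * ‖⟪φ n, g⟫_ℂ‖ ^ 2 + δ n) ≤ 4 * C + 1) ∧
      (∀ g : H, ‖g‖ ≤ 1 → ∑ n, (t n)⁻¹ * (w n * ‖⟪ψ n, g⟫_ℂ‖ ^ 2 + δ n) ≤ 4 * C + 1) := by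
  have hb := PS_bound w hw φ ψ C hC0 hC δ hδ hδ1 hδs
  have hclosed : IsClosed {z : (ι → ℝ) × (ι → ℝ) |
      ∑ n, √((z.1 n + δ n) * (z.2 n + δ n)) ≤ 4 * C + 1} :=
    isClosed_le (by fun_prop) continuous_const
  have hsub : closure (PS w φ) ×ˢ closure (PS w ψ) ⊆ {z : (ι → ℝ) × (ι → ℝ) |
      ∑ n, √((z.1 n + δ n) * (z.2 n + δ n)) ≤ 4 * C + 1} := by
    rw [← closure_prod_eq]
    apply closure_minimal _ hclosed
    rintro ⟨p, q⟩ ⟨hp, hq⟩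
    exact hb p hp q hq
  obtain ⟨t, ht, h1, h2⟩ := opt (closure (PS w φ)) (closure (PS w ψ)) (PS_convex w φ).closure
    (PS_convex w ψ).closure (PS_compact w hw φ) (PS_compact w hw ψ) (PS_nonempty w φ).closure
    (PS_nonempty w ψ).closure (fun p hp n => (PS_closure_subset w hw φ hp).1 n)
    (fun q hq n => (PS_closure_subset w hw ψ hq).1 n) δ hδ (4 * C + 1)
    (fun p hp q hq => hsub (Set.mk_mem_prod hp hq))
  exact ⟨t, ht, fun g hg => h1 _ (subset_closure (PS_single w φ g hg)),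
    fun g hg => h2 _ (subset_closure (PS_single w ψ g hg))⟩

end Pool.Agent.H197R3.Bes
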