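import Pool.Agent.H197R3.Bes3

set_option autoImplicit false
set_option linter.unusedSectionVars false

namespace Pool.Agent.H197R3.Bes

open scoped InnerProductSpace

variable {H : Type} [NormedAddCommGroup H] [InnerProductSpace ℂ H]

section seq
variable (w : ℕ → ℝ) (φ ψ : ℕ → H)

noncomputable def WW (n : ℕ) : ℝ := w n * ‖φ n‖ ^ 2 + w n * ‖ψ n‖ ^ 2 + 1

noncomputable def dd (n : ℕ) : ℝ := (1 / 4) ^ (n + 1) / WW w φ ψ n

variable (hw : ∀ n, 0 ≤ w n)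
include hw

lemma WW_ge (n : ℕ) : 1 ≤ WW w φ ψ n := by
  have := hw n
  have h : 0 ≤ w n * ‖φ n‖ ^ 2 + w n * ‖ψ n‖ ^ 2 := by positivity
  unfold WW; linarith

lemma dd_pos (n : ℕ) : 0 < dd w φ ψ n := by
  have := WW_ge w φ ψ hw n
  unfold dd; positivity

lemma dd_le (n : ℕ) : dd w φ ψ n ≤ 1 := by
  have h := WW_ge w φ ψ hw n
  unfold dd
  rw [div_le_one (by linarith)]
  refine le_trans ?_ h
  exact pow_le_one₀ (by norm_num) (by norm_num)

lemma sqrt_dd (n : ℕ) : √(dd w φ ψ n * WW w φ ψ n) = (1 / 2) ^ (n + 1) := by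
  have h := WW_ge w φ ψ hw n
  have : dd w φ ψ n * WW w φ ψ n = ((1 / 2) ^ (n + 1)) ^ 2 := by
    unfold dd
    rw [div_mul_cancel₀ _ (by linarith), ← pow_mul, mul_comm (n + 1) 2, pow_mul]
    norm_num
  rw [this, Real.sqrt_sq (by positivity)]

lemma sum_half (N : ℕ) : ∑ n ∈ Finset.range N, ((1 : ℝ) / 2) ^ (n + 1) ≤ 1 := by
  have : ∀ N : ℕ, ∑ n ∈ Finset.range N, ((1 : ℝ) / 2) ^ (n + 1) = 1 - (1 / 2) ^ N := by
    intro N
    induction N with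
    | zero => simp
    | succ N ih => rw [Finset.sum_range_succ, ih]; ring
  rw [this]
  have : (0 : ℝ) ≤ (1 / 2) ^ N := by positivity
  linarith

/-- the approximating compact sets -/
def KK (C' : ℝ) (N : ℕ) : Set (ℕ → ℝ) :=
  {x | x ∈ Set.pi Set.univ (fun n => Set.Icc (-Real.log (C' / dd w φ ψ n)) (Real.log (C' / dd w φ ψ n))) ∧
    (∀ g : H, ‖g‖ ≤ 1 → ∑ n ∈ Finset.range N, Real.exp (x n) * (w n * ‖⟪φ n, g⟫_ℂ‖ ^ 2) ≤ C') ∧
    (∀ g : H, ‖g‖ ≤ 1 → ∑ n ∈ Finset.range N, Real.exp (-x n) * (w n * ‖⟪ψ n, g⟫_ℂ‖ ^ 2) ≤ C')}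

lemma KK_closed (C' : ℝ) (N : ℕ) : IsClosed (KK w φ ψ C' N) := by
  have e : KK w φ ψ C' N =
      Set.pi Set.univ (fun n => Set.Icc (-Real.log (C' / dd w φ ψ n)) (Real.log (C' / dd w φ ψ n))) ∩
      ((⋂ (g : H), ⋂ (_ : ‖g‖ ≤ 1), {x : ℕ → ℝ |
        ∑ n ∈ Finset.range N, Real.exp (x n) * (w n * ‖⟪φ n, g⟫_ℂ‖ ^ 2) ≤ C'}) ∩
      (⋂ (g : H), ⋂ (_ : ‖g‖ ≤ 1), {x : ℕ → ℝ |
        ∑ n ∈ Finset.range N, Real.exp (-x n) * (w n * ‖⟪ψ n, g⟫_ℂ‖ ^ 2) ≤ C'})) := by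
    ext x
    simp only [KK, Set.mem_inter_iff, Set.mem_iInter]
    exact Iff.rfl
  rw [e]
  refine (isClosed_set_pi fun _ _ => isClosed_Icc).inter (IsClosed.inter ?_ ?_)
  · refine isClosed_iInter fun g => isClosed_iInter fun _ => isClosed_le ?_ continuous_const
    fun_prop
  · refine isClosed_iInter fun g => isClosed_iInter fun _ => isClosed_le ?_ continuous_const
    fun_prop

lemma KK_anti (C' : ℝ) (N : ℕ) : KK w φ ψ C' (N + 1) ⊆ KK w φ ψ C' N := by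
  rintro x ⟨h1, h2, h3⟩
  refine ⟨h1, fun g hg => ?_, fun g hg => ?_⟩
  · have := h2 g hg
    rw [Finset.sum_range_succ] at this
    have h4 := hw N
    have : 0 ≤ Real.exp (x N) * (w N * ‖⟪φ N, g⟫_ℂ‖ ^ 2) := by positivity
    linarith
  · have := h3 g hg
    rw [Finset.sum_range_succ] at this
    have h4 := hw N
    have : 0 ≤ Real.exp (-x N) * (w N * ‖⟪ψ N, g⟫_ℂ‖ ^ 2) := by positivity
    linarith

lemma KK_nonempty (C : ℝ) (hC0 : 0 ≤ C)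
    (hC : ∀ N : ℕ, ∀ f g : H, ∑ n ∈ Finset.range N, w n * (‖⟪φ n, g⟫_ℂ‖ * ‖⟪ψ n, f⟫_ℂ‖) ≤
      C * (‖f‖ * ‖g‖)) (N : ℕ) : (KK w φ ψ (4 * C + 1) N).Nonempty := by
  obtain ⟨t, ht, h1, h2⟩ := fin_weights (ι := Fin N) (fun n => w n) (fun n => hw n)
    (fun n => φ n) (fun n => ψ n) C hC0 (fun f g => by
      have := hC N f g
      rwa [← Fin.sum_univ_eq_sum_range (fun n => w n * (‖⟪φ n, g⟫_ℂ‖ * ‖⟪ψ n, f⟫_ℂ‖)) N] at this)
    (fun n => dd w φ ψ n) (fun n => dd_pos w φ ψ hw n) (fun n => dd_le w φ ψ hw n) (by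
      have : ∑ n : Fin N, √(dd w φ ψ n * (w n * ‖φ n‖ ^ 2 + w n * ‖ψ n‖ ^ 2 + 1)) =
          ∑ n : Fin N, ((1 : ℝ) / 2) ^ ((n : ℕ) + 1) :=
        Finset.sum_congr rfl fun n _ => sqrt_dd w φ ψ hw n
      rw [this, Fin.sum_univ_eq_sum_range (fun n => ((1 : ℝ) / 2) ^ (n + 1)) N]
      exact sum_half w hw N)
  have hC1 : (1 : ℝ) ≤ 4 * C + 1 := by linarith
  have hb1 : ∀ n : Fin N, t n * dd w φ ψ n ≤ 4 * C + 1 := by
    intro n
    have h3 := h1 0 (by simp)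
    simp only [inner_zero_right, norm_zero, ne_eq, OfNat.ofNat_ne_zero, not_false_eq_true,
      zero_pow, mul_zero, zero_add] at h3
    refine le_trans ?_ h3
    exact Finset.single_le_sum (f := fun n : Fin N => t n * dd w φ ψ n)
      (fun i _ => mul_nonneg (ht i).le (dd_pos w φ ψ hw i).le) (Finset.mem_univ n)
  have hb2 : ∀ n : Fin N, (t n)⁻¹ * dd w φ ψ n ≤ 4 * C + 1 := by
    intro n
    have h3 := h2 0 (by simp)
    simp only [inner_zero_right, norm_zero, ne_eq, OfNat.ofNat_ne_zero, not_false_eq_true,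
      zero_pow, mul_zero, zero_add] at h3
    refine le_trans ?_ h3
    exact Finset.single_le_sum (f := fun n : Fin N => (t n)⁻¹ * dd w φ ψ n)
      (fun i _ => mul_nonneg (inv_nonneg.2 (ht i).le) (dd_pos w φ ψ hw i).le) (Finset.mem_univ n)
  refine ⟨fun n => if h : n < N then Real.log (t ⟨n, h⟩) else 0, ?_, ?_, ?_⟩
  · intro n _
    have hd := dd_pos w φ ψ hw n
    have hd1 := dd_le w φ ψ hw n
    by_cases h : n < N
    · simp only [h, dif_pos, Set.mem_Icc]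
      have ht0 := ht ⟨n, h⟩
      constructor
      · rw [neg_le, ← Real.log_inv]
        apply Real.log_le_log (inv_pos.2 ht0)
        rw [le_div_iff₀ hd]
        exact hb2 ⟨n, h⟩
      · apply Real.log_le_log ht0
        rw [le_div_iff₀ hd]
        exact hb1 ⟨n, h⟩
    · simp only [h, dif_neg, Set.mem_Icc, not_false_eq_true]
      have : 0 ≤ Real.log ((4 * C + 1) / dd w φ ψ n) := by
        apply Real.log_nonneg
        rw [le_div_iff₀ hd]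
        linarith
      constructor <;> linarith
  · intro g hg
    refine le_trans ?_ (h1 g hg)
    rw [← Fin.sum_univ_eq_sum_range (fun n => Real.exp (if h : n < N then Real.log (t ⟨n, h⟩) else 0) *
      (w n * ‖⟪φ n, g⟫_ℂ‖ ^ 2)) N]
    refine Finset.sum_le_sum fun n _ => ?_
    simp only [n.2, dif_pos, Fin.eta]
    rw [Real.exp_log (ht n)]
    apply mul_le_mul_of_nonneg_left _ (ht n).le
    have := dd_pos w φ ψ hw n
    linarith
  · intro g hg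
    refine le_trans ?_ (h2 g hg)
    rw [← Fin.sum_univ_eq_sum_range (fun n => Real.exp (-(if h : n < N then Real.log (t ⟨n, h⟩) else 0)) *
      (w n * ‖⟪ψ n, g⟫_ℂ‖ ^ 2)) N]
    refine Finset.sum_le_sum fun n _ => ?_
    simp only [n.2, dif_pos, Fin.eta]
    rw [Real.exp_neg, Real.exp_log (ht n)]
    apply mul_le_mul_of_nonneg_left _ (inv_nonneg.2 (ht n).le)
    have := dd_pos w φ ψ hw n
    linarith

lemma seq_weights (C : ℝ) (hC0 : 0 ≤ C)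
    (hC : ∀ N : ℕ, ∀ f g : H, ∑ n ∈ Finset.range N, w n * (‖⟪φ n, g⟫_ℂ‖ * ‖⟪ψ n, f⟫_ℂ‖) ≤
      C * (‖f‖ * ‖g‖)) :
    ∃ t : ℕ → ℝ, (∀ n, 0 < t n) ∧
      (∀ g : H, ‖g‖ ≤ 1 → ∀ N, ∑ n ∈ Finset.range N, t n * (w n * ‖⟪φ n, g⟫_ℂ‖ ^ 2) ≤ 4 * C + 1) ∧
      (∀ g : H, ‖g‖ ≤ 1 → ∀ N, ∑ n ∈ Finset.range N, (t n)⁻¹ * (w n * ‖⟪ψ n, g⟫_ℂ‖ ^ 2) ≤
        4 * C + 1) := by
  have hne := IsCompact.nonempty_iInter_of_sequence_nonempty_isCompact_isClosed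
    (KK w φ ψ (4 * C + 1)) (KK_anti w φ ψ hw _) (KK_nonempty w φ ψ hw C hC0 hC)
    ((isCompact_univ_pi fun n => isCompact_Icc).of_isClosed_subset (KK_closed w φ ψ hw _ 0)
      (fun x hx => hx.1)) (KK_closed w φ ψ hw _)
  obtain ⟨x, hx⟩ := hne
  rw [Set.mem_iInter] at hx
  refine ⟨fun n => Real.exp (x n), fun n => Real.exp_pos _, fun g hg N => (hx N).2.1 g hg,
    fun g hg N => ?_⟩
  have := (hx N).2.2 g hg
  simpa only [Real.exp_neg] using this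

end seq

end Pool.Agent.H197R3.Bes
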