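import Pool.Agent.H197R3.Bes4

set_option autoImplicit false
set_option linter.unusedSectionVars false

namespace Pool.Agent.H197R3.Bes

open scoped InnerProductSpace

variable {H : Type} [NormedAddCommGroup H] [InnerProductSpace ℂ H] [CompleteSpace H]

/-- phase of a complex number -/
noncomputable def ph (z : ℂ) : ℂ := starRingEnd ℂ z / (‖z‖ : ℂ)

lemma ph_mul (z : ℂ) : ph z * z = (‖z‖ : ℂ) := by
  by_cases h : z = 0
  · simp [h, ph]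
  · have h1 : (‖z‖ : ℂ) ≠ 0 := by simpa using h
    unfold ph
    rw [div_mul_eq_mul_div, div_eq_iff h1, ← Complex.normSq_eq_conj_mul_self,
      Complex.normSq_eq_norm_sq]
    push_cast
    ring

lemma ph_norm (z : ℂ) : ‖ph z‖ ≤ 1 := by
  unfold ph
  rw [norm_div]
  simp only [RCLike.norm_conj, Complex.norm_real, norm_norm]
  exact div_self_le_one _

section
variable (m : ℕ → ℂ) (φ ψ : ℕ → H)

/-- partial multipliers with bounded symbols -/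
noncomputable def TT (i : ℕ × {ε : ℕ → ℂ // ∀ n, ‖ε n‖ ≤ 1}) : H →L[ℂ] H :=
  ∑ n ∈ Finset.range i.1, (i.2.1 n * m n) • (innerSL ℂ (ψ n)).smulRight (φ n)

lemma TT_apply (i : ℕ × {ε : ℕ → ℂ // ∀ n, ‖ε n‖ ≤ 1}) (f : H) :
    TT m φ ψ i f = ∑ n ∈ Finset.range i.1, i.2.1 n • ((m n * ⟪ψ n, f⟫_ℂ) • φ n) := by
  unfold TT
  rw [sum_apply]
  refine Finset.sum_congr rfl fun n _ => ?_
  simp only [smul_apply, ContinuousLinearMap.smulRight_apply, innerSL_apply_apply,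
    smul_smul]
  congr 1
  ring

lemma unif (hsum : ∀ f : H, Summable (fun n : ℕ => (m n * ⟪ψ n, f⟫_ℂ) • φ n)) :
    ∃ C : ℝ, 0 ≤ C ∧ ∀ N : ℕ, ∀ f g : H,
      ∑ n ∈ Finset.range N, ‖m n‖ * (‖⟪φ n, g⟫_ℂ‖ * ‖⟪ψ n, f⟫_ℂ‖) ≤ C * (‖f‖ * ‖g‖) := by
  have h1 : ∀ f : H, ∃ C, ∀ i, ‖TT m φ ψ i f‖ ≤ C := by
    intro f
    obtain ⟨C, hC⟩ := banach_steinhaus (g := fun i => innerSL ℂ (TT m φ ψ i f)) (fun g => by
      have hs : Summable (fun n => ‖⟪(m n * ⟪ψ n, f⟫_ℂ) • φ n, g⟫_ℂ‖) := by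
        have := ((hsum f).mapL (innerSL ℂ g)).norm
        refine this.congr fun n => ?_
        rw [innerSL_apply_apply, norm_inner_symm]
      refine ⟨∑' n, ‖⟪(m n * ⟪ψ n, f⟫_ℂ) • φ n, g⟫_ℂ‖, fun i => ?_⟩
      rw [innerSL_apply_apply, TT_apply, sum_inner]
      refine (norm_sum_le _ _).trans ?_
      refine le_trans (Finset.sum_le_sum (fun n _ => ?_)) (hs.sum_le_tsum (Finset.range i.1)
        (fun n _ => norm_nonneg _))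
      rw [inner_smul_left, norm_mul]
      have := i.2.2 n
      calc ‖(starRingEnd ℂ) (i.2.1 n)‖ * ‖⟪(m n * ⟪ψ n, f⟫_ℂ) • φ n, g⟫_ℂ‖
          ≤ 1 * ‖⟪(m n * ⟪ψ n, f⟫_ℂ) • φ n, g⟫_ℂ‖ := by
            apply mul_le_mul_of_nonneg_right _ (norm_nonneg _)
            simpa using this
        _ = _ := one_mul _)
    refine ⟨C, fun i => ?_⟩
    have := hC i
    rwa [innerSL_apply_norm] at this
  obtain ⟨C, hC⟩ := banach_steinhaus h1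
  have hC0 : 0 ≤ C := (norm_nonneg _).trans (hC (0, ⟨fun _ => 0, fun _ => by simp⟩))
  refine ⟨C, hC0, fun N f g => ?_⟩
  set z : ℕ → ℂ := fun n => ⟪g, (m n * ⟪ψ n, f⟫_ℂ) • φ n⟫_ℂ with hz
  set i : ℕ × {ε : ℕ → ℂ // ∀ n, ‖ε n‖ ≤ 1} := (N, ⟨fun n => ph (z n), fun n => ph_norm _⟩) with hi
  have h2 : ⟪g, TT m φ ψ i f⟫_ℂ =
      ((∑ n ∈ Finset.range N, ‖m n‖ * (‖⟪φ n, g⟫_ℂ‖ * ‖⟪ψ n, f⟫_ℂ‖) : ℝ) : ℂ) := by
    rw [TT_apply, inner_sum, Complex.ofReal_sum]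
    refine Finset.sum_congr rfl fun n _ => ?_
    rw [inner_smul_right]
    show ph (z n) * z n = _
    rw [ph_mul]
    simp only [hz, inner_smul_right, norm_mul]
    rw [norm_inner_symm g (φ n)]
    push_cast
    ring
  have h3 : 0 ≤ ∑ n ∈ Finset.range N, ‖m n‖ * (‖⟪φ n, g⟫_ℂ‖ * ‖⟪ψ n, f⟫_ℂ‖) :=
    Finset.sum_nonneg fun n _ => by positivity
  have h4 : ‖⟪g, TT m φ ψ i f⟫_ℂ‖ = ∑ n ∈ Finset.range N, ‖m n‖ * (‖⟪φ n, g⟫_ℂ‖ * ‖⟪ψ n, f⟫_ℂ‖) := by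
    rw [h2, Complex.norm_real, Real.norm_of_nonneg h3]
  rw [← h4]
  calc ‖⟪g, TT m φ ψ i f⟫_ℂ‖ ≤ ‖g‖ * ‖TT m φ ψ i f‖ := norm_inner_le_norm _ _
    _ ≤ ‖g‖ * (C * ‖f‖) := by
        gcongr
        exact (TT m φ ψ i).le_of_opNorm_le (hC i) f
    _ = C * (‖f‖ * ‖g‖) := by ring

/-- The Bessel form: an unconditionally convergent multiplier comes from two Bessel sequences. -/
theorem bessel (hsum : ∀ f : H, Summable (fun n : ℕ => (m n * ⟪ψ n, f⟫_ℂ) • φ n)) :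
    ∃ (α β : ℕ → ℂ) (B : ℝ), 0 < B ∧ (∀ n, α n * starRingEnd ℂ (β n) = m n) ∧
      (∀ f : H, Summable (fun n : ℕ => ‖⟪α n • φ n, f⟫_ℂ‖ ^ 2) ∧
        ∑' n : ℕ, ‖⟪α n • φ n, f⟫_ℂ‖ ^ 2 ≤ B * ‖f‖ ^ 2) ∧
      (∀ f : H, Summable (fun n : ℕ => ‖⟪β n • ψ n, f⟫_ℂ‖ ^ 2) ∧
        ∑' n : ℕ, ‖⟪β n • ψ n, f⟫_ℂ‖ ^ 2 ≤ B * ‖f‖ ^ 2) := by
  obtain ⟨C, hC0, hC⟩ := unif m φ ψ hsum
  obtain ⟨t, ht, h1, h2⟩ := seq_weights (fun n => ‖m n‖) φ ψ (fun n => norm_nonneg _) C hC0 hC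
  have scale : ∀ (s : ℕ → ℝ) (θ : ℕ → H) (γ : ℕ → ℂ), (∀ n, 0 < s n) →
      (∀ n, ‖γ n‖ ^ 2 = s n * ‖m n‖) →
      (∀ g : H, ‖g‖ ≤ 1 → ∀ N, ∑ n ∈ Finset.range N, s n * (‖m n‖ * ‖⟪θ n, g⟫_ℂ‖ ^ 2) ≤ 4 * C + 1) →
      ∀ f : H, Summable (fun n : ℕ => ‖⟪γ n • θ n, f⟫_ℂ‖ ^ 2) ∧
        ∑' n : ℕ, ‖⟪γ n • θ n, f⟫_ℂ‖ ^ 2 ≤ (4 * C + 1) * ‖f‖ ^ 2 := by
    intro s θ γ hs hγ hb f
    have hpart : ∀ N, ∑ n ∈ Finset.range N, ‖⟪γ n • θ n, f⟫_ℂ‖ ^ 2 ≤ (4 * C + 1) * ‖f‖ ^ 2 := by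
      intro N
      have e1 : ∀ (f : H), ∑ n ∈ Finset.range N, ‖⟪γ n • θ n, f⟫_ℂ‖ ^ 2 =
          ∑ n ∈ Finset.range N, s n * (‖m n‖ * ‖⟪θ n, f⟫_ℂ‖ ^ 2) := by
        intro f
        refine Finset.sum_congr rfl fun n _ => ?_
        rw [inner_smul_left, norm_mul, mul_pow, RCLike.norm_conj, hγ]
        ring
      by_cases hf : f = 0
      · rw [hf]; simp
      · have hf0 : 0 < ‖f‖ := norm_pos_iff.2 hf
        have h3 := hb (((‖f‖⁻¹ : ℝ) : ℂ) • f) (by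
          rw [norm_smul, Complex.norm_real, norm_inv, norm_norm, inv_mul_cancel₀ hf0.ne']) N
        have e2 : ∑ n ∈ Finset.range N, s n * (‖m n‖ * ‖⟪θ n, ((‖f‖⁻¹ : ℝ) : ℂ) • f⟫_ℂ‖ ^ 2) =
            (‖f‖⁻¹) ^ 2 * ∑ n ∈ Finset.range N, s n * (‖m n‖ * ‖⟪θ n, f⟫_ℂ‖ ^ 2) := by
          rw [Finset.mul_sum]
          refine Finset.sum_congr rfl fun n _ => ?_
          rw [inner_smul_right, norm_mul, mul_pow, Complex.norm_real, norm_inv, norm_norm]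
          ring
        rw [e2, inv_pow, inv_mul_le_iff₀ (by positivity)] at h3
        rw [e1]
        linarith
    have hsm : Summable (fun n : ℕ => ‖⟪γ n • θ n, f⟫_ℂ‖ ^ 2) :=
      summable_of_sum_range_le (fun n => by positivity) hpart
    exact ⟨hsm, Real.tsum_le_of_sum_range_le (fun n => by positivity) hpart⟩
  refine ⟨fun n => ((√(t n * ‖m n‖) : ℝ) : ℂ), fun n => ((√((t n)⁻¹ * ‖m n‖) : ℝ) : ℂ) *
    ph (m n), 4 * C + 1, by linarith, fun n => ?_, ?_, ?_⟩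
  · have htn := ht n
    have e1 : (√(t n * ‖m n‖)) * √((t n)⁻¹ * ‖m n‖) = ‖m n‖ := by
      rw [← Real.sqrt_mul (by positivity)]
      have : t n * ‖m n‖ * ((t n)⁻¹ * ‖m n‖) = ‖m n‖ ^ 2 := by field_simp
      rw [this, Real.sqrt_sq (norm_nonneg _)]
    rw [map_mul, Complex.conj_ofReal, ← mul_assoc, ← Complex.ofReal_mul, e1]
    by_cases h : m n = 0
    · simp [h]
    · have h1 : (‖m n‖ : ℂ) ≠ 0 := by simpa using h
      unfold ph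
      rw [map_div₀, Complex.conj_conj, Complex.conj_ofReal]
      field_simp
  · apply scale t φ _ ht _ h1
    intro n
    have htn := ht n
    rw [Complex.norm_real, Real.norm_of_nonneg (Real.sqrt_nonneg _), Real.sq_sqrt (by positivity)]
  · apply scale (fun n => (t n)⁻¹) ψ _ (fun n => inv_pos.2 (ht n)) _ h2
    intro n
    have htn := ht n
    by_cases h : m n = 0
    · simp [h]
    · have h1 : (‖m n‖ : ℝ) ≠ 0 := by simpa using h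
      have h2 : ‖ph (m n)‖ = 1 := by
        unfold ph
        rw [norm_div, RCLike.norm_conj, Complex.norm_real, norm_norm, div_self h1]
      rw [norm_mul, h2, mul_one, Complex.norm_real, Real.norm_of_nonneg (Real.sqrt_nonneg _),
        Real.sq_sqrt (by positivity)]

end

end Pool.Agent.H197R3.Bes
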