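import Pool.Agent.H197R3.Bes5

set_option autoImplicit false
set_option linter.unusedSectionVars false

namespace Pool.Agent.H197R3.Bes

open scoped InnerProductSpace

lemma tsum_cs (a b : ℕ → ℝ) (ha : ∀ n, 0 ≤ a n) (hb : ∀ n, 0 ≤ b n)
    (hsa : Summable fun n => a n ^ 2) (hsb : Summable fun n => b n ^ 2) :
    Summable (fun n => a n * b n) ∧
      ∑' n, a n * b n ≤ √((∑' n, a n ^ 2) * ∑' n, b n ^ 2) := by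
  have h : ∀ N, ∑ n ∈ Finset.range N, a n * b n ≤ √((∑' n, a n ^ 2) * ∑' n, b n ^ 2) := by
    intro N
    apply Real.le_sqrt_of_sq_le
    refine (Finset.sum_mul_sq_le_sq_mul_sq _ _ _).trans ?_
    apply mul_le_mul (hsa.sum_le_tsum _ fun _ _ => sq_nonneg _)
      (hsb.sum_le_tsum _ fun _ _ => sq_nonneg _) (Finset.sum_nonneg fun _ _ => sq_nonneg _)
      (tsum_nonneg fun _ => sq_nonneg _)
  exact ⟨summable_of_sum_range_le (fun n => mul_nonneg (ha n) (hb n)) h,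
    Real.tsum_le_of_sum_range_le (fun n => mul_nonneg (ha n) (hb n)) h⟩

variable {H : Type} [NormedAddCommGroup H] [InnerProductSpace ℂ H] [CompleteSpace H]

section
variable (m : ℕ → ℂ) (φ ψ : ℕ → H)
  (hsum : ∀ f : H, Summable (fun n : ℕ => (m n * ⟪ψ n, f⟫_ℂ) • φ n))
  (α β : ℕ → ℂ) (hm : ∀ n, α n * starRingEnd ℂ (β n) = m n)
  (hα : ∀ f : H, Summable (fun n : ℕ => ‖⟪α n • φ n, f⟫_ℂ‖ ^ 2))
  (hβ : ∀ f : H, Summable (fun n : ℕ => ‖⟪β n • ψ n, f⟫_ℂ‖ ^ 2))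
include hsum hm hα hβ

lemma pair_bound (f g : H) :
    ‖⟪g, ∑' n : ℕ, (m n * ⟪ψ n, f⟫_ℂ) • φ n⟫_ℂ‖ ≤
      √((∑' n : ℕ, ‖⟪α n • φ n, g⟫_ℂ‖ ^ 2) * ∑' n : ℕ, ‖⟪β n • ψ n, f⟫_ℂ‖ ^ 2) := by
  have h1 : ⟪g, ∑' n : ℕ, (m n * ⟪ψ n, f⟫_ℂ) • φ n⟫_ℂ =
      ∑' n : ℕ, ⟪g, (m n * ⟪ψ n, f⟫_ℂ) • φ n⟫_ℂ := by
    have := (innerSL ℂ g).map_tsum (hsum f)
    simpa only [innerSL_apply_apply] using this
  obtain ⟨h2, h3⟩ := tsum_cs (fun n => ‖⟪α n • φ n, g⟫_ℂ‖) (fun n => ‖⟪β n • ψ n, f⟫_ℂ‖)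
    (fun n => norm_nonneg _) (fun n => norm_nonneg _) (hα g) (hβ f)
  have h4 : ∀ n, ‖⟪g, (m n * ⟪ψ n, f⟫_ℂ) • φ n⟫_ℂ‖ =
      ‖⟪α n • φ n, g⟫_ℂ‖ * ‖⟪β n • ψ n, f⟫_ℂ‖ := by
    intro n
    rw [norm_inner_symm (α n • φ n) g, inner_smul_right, inner_smul_right, inner_smul_left,
      ← hm n]
    simp only [norm_mul, RCLike.norm_conj]
    ring
  rw [h1]
  refine le_trans (norm_tsum_le_tsum_norm ?_) ?_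
  · simpa only [h4] using h2
  · simpa only [h4] using h3

lemma map_add' (f f' : H) : (∑' n : ℕ, (m n * ⟪ψ n, f + f'⟫_ℂ) • φ n) =
    (∑' n : ℕ, (m n * ⟪ψ n, f⟫_ℂ) • φ n) + ∑' n : ℕ, (m n * ⟪ψ n, f'⟫_ℂ) • φ n := by
  rw [← (hsum f).tsum_add (hsum f')]
  congr 1
  funext n
  rw [inner_add_right, mul_add, add_smul]

lemma map_smul' (c : ℂ) (f : H) : (∑' n : ℕ, (m n * ⟪ψ n, c • f⟫_ℂ) • φ n) =
    c • (∑' n : ℕ, (m n * ⟪ψ n, f⟫_ℂ) • φ n) := by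
  rw [← (hsum f).tsum_const_smul]
  congr 1
  funext n
  rw [inner_smul_right, smul_smul]
  congr 1
  ring

/-- from Bessel to frames for invertible multipliers -/
theorem frames (B : ℝ) (hB : 0 < B)
    (hα' : ∀ f : H, ∑' n : ℕ, ‖⟪α n • φ n, f⟫_ℂ‖ ^ 2 ≤ B * ‖f‖ ^ 2)
    (hβ' : ∀ f : H, ∑' n : ℕ, ‖⟪β n • ψ n, f⟫_ℂ‖ ^ 2 ≤ B * ‖f‖ ^ 2)
    (hbij : Function.Bijective (fun f : H => ∑' n : ℕ, (m n * ⟪ψ n, f⟫_ℂ) • φ n)) :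
    ∃ A : ℝ, 0 < A ∧ (∀ f : H, A * ‖f‖ ^ 2 ≤ ∑' n : ℕ, ‖⟪α n • φ n, f⟫_ℂ‖ ^ 2) ∧
      (∀ f : H, A * ‖f‖ ^ 2 ≤ ∑' n : ℕ, ‖⟪β n • ψ n, f⟫_ℂ‖ ^ 2) := by
  have hpair := pair_bound m φ ψ hsum α β hm hα hβ
  have hα0 : ∀ f : H, 0 ≤ ∑' n : ℕ, ‖⟪α n • φ n, f⟫_ℂ‖ ^ 2 := fun f => tsum_nonneg fun _ => by positivity
  have hβ0 : ∀ f : H, 0 ≤ ∑' n : ℕ, ‖⟪β n • ψ n, f⟫_ℂ‖ ^ 2 := fun f => tsum_nonneg fun _ => by positivity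
  let Ml : H →ₗ[ℂ] H :=
    { toFun := fun f => ∑' n : ℕ, (m n * ⟪ψ n, f⟫_ℂ) • φ n
      map_add' := map_add' m φ ψ hsum α β hm hα hβ
      map_smul' := map_smul' m φ ψ hsum α β hm hα hβ }
  have hsq : ∀ f g : H, ‖⟪g, Ml f⟫_ℂ‖ ^ 2 ≤
      (∑' n : ℕ, ‖⟪α n • φ n, g⟫_ℂ‖ ^ 2) * ∑' n : ℕ, ‖⟪β n • ψ n, f⟫_ℂ‖ ^ 2 := by
    intro f g
    have h := hpair f g
    have h2 := pow_le_pow_left₀ (norm_nonneg _) h 2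
    rwa [Real.sq_sqrt (mul_nonneg (hα0 g) (hβ0 f))] at h2
  have hself : ∀ f : H, ‖Ml f‖ ^ 2 ≤ B * ∑' n : ℕ, ‖⟪β n • ψ n, f⟫_ℂ‖ ^ 2 := by
    intro f
    have h1 := hsq f (Ml f)
    rw [inner_self_eq_norm_sq_to_K] at h1
    have h2 : ‖((‖Ml f‖ : ℂ)) ^ 2‖ = ‖Ml f‖ ^ 2 := by
      rw [norm_pow, Complex.norm_real, norm_norm]
    have h3 : (‖Ml f‖ ^ 2) ^ 2 ≤ (B * ‖Ml f‖ ^ 2) * ∑' n : ℕ, ‖⟪β n • ψ n, f⟫_ℂ‖ ^ 2 := by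
      have h4 := mul_le_mul_of_nonneg_right (hα' (Ml f)) (hβ0 f)
      refine le_trans ?_ h4
      refine le_trans (le_of_eq ?_) h1
      rw [← h2]; rfl
    by_cases h0 : ‖Ml f‖ ^ 2 = 0
    · rw [h0]; exact mul_nonneg hB.le (hβ0 f)
    · have h5 : 0 < ‖Ml f‖ ^ 2 := lt_of_le_of_ne (by positivity) (Ne.symm h0)
      have h6 : ‖Ml f‖ ^ 2 * ‖Ml f‖ ^ 2 ≤
          ‖Ml f‖ ^ 2 * (B * ∑' n : ℕ, ‖⟪β n • ψ n, f⟫_ℂ‖ ^ 2) := by nlinarith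
      exact le_of_mul_le_mul_left h6 h5
  have hbd : ∀ f : H, ‖Ml f‖ ≤ B * ‖f‖ := by
    intro f
    have h1 := hself f
    have h2 := mul_le_mul_of_nonneg_left (hβ' f) hB.le
    have h3 : ‖Ml f‖ ^ 2 ≤ (B * ‖f‖) ^ 2 := by nlinarith
    exact le_of_sq_le_sq h3 (by positivity)
  let M : H →L[ℂ] H := Ml.mkContinuous B hbd
  have hM : ∀ f, M f = Ml f := fun f => rfl
  have hinj : LinearMap.ker (M : H →ₗ[ℂ] H) = ⊥ := by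
    rw [LinearMap.ker_eq_bot]
    exact hbij.1
  have hsur : LinearMap.range (M : H →ₗ[ℂ] H) = ⊤ := by
    rw [LinearMap.range_eq_top]
    exact hbij.2
  let e := ContinuousLinearEquiv.ofBijective M hinj hsur
  set K : ℝ := ‖(e.symm : H →L[ℂ] H)‖ + 1 with hK
  have hK0 : 0 < K := by positivity
  have hinv : ∀ f : H, ‖f‖ ≤ K * ‖Ml f‖ := by
    intro f
    have h1 : (e.symm : H →L[ℂ] H) (Ml f) = f := e.symm_apply_apply f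
    calc ‖f‖ = ‖(e.symm : H →L[ℂ] H) (Ml f)‖ := by rw [h1]
      _ ≤ ‖(e.symm : H →L[ℂ] H)‖ * ‖Ml f‖ := ContinuousLinearMap.le_opNorm _ _
      _ ≤ K * ‖Ml f‖ := by
          apply mul_le_mul_of_nonneg_right _ (norm_nonneg _)
          rw [hK]; linarith
  refine ⟨(K ^ 2 * B)⁻¹, by positivity, fun g => ?_, fun f => ?_⟩
  · obtain ⟨f, hf⟩ := hbij.2 g
    have hf' : Ml f = g := hf
    have h1 := hsq f g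
    rw [hf', inner_self_eq_norm_sq_to_K] at h1
    have h2 : ‖((‖g‖ : ℂ)) ^ 2‖ = ‖g‖ ^ 2 := by
      rw [norm_pow, Complex.norm_real, norm_norm]
    have h1' : (‖g‖ ^ 2) ^ 2 ≤ (∑' n : ℕ, ‖⟪α n • φ n, g⟫_ℂ‖ ^ 2) *
        ∑' n : ℕ, ‖⟪β n • ψ n, f⟫_ℂ‖ ^ 2 := by
      refine le_trans (le_of_eq ?_) h1
      rw [← h2]; rfl
    have h3 : ‖f‖ ^ 2 ≤ K ^ 2 * ‖g‖ ^ 2 := by
      have h4 := hinv f
      rw [hf'] at h4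
      have := pow_le_pow_left₀ (norm_nonneg _) h4 2
      rwa [mul_pow] at this
    have h5 : (∑' n : ℕ, ‖⟪α n • φ n, g⟫_ℂ‖ ^ 2) * ∑' n : ℕ, ‖⟪β n • ψ n, f⟫_ℂ‖ ^ 2 ≤
        (∑' n : ℕ, ‖⟪α n • φ n, g⟫_ℂ‖ ^ 2) * (B * (K ^ 2 * ‖g‖ ^ 2)) := by
      apply mul_le_mul_of_nonneg_left _ (hα0 g)
      exact (hβ' f).trans (mul_le_mul_of_nonneg_left h3 hB.le)
    rw [inv_mul_le_iff₀ (by positivity)]
    by_cases h0 : ‖g‖ ^ 2 = 0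
    · rw [h0]; exact mul_nonneg (by positivity) (hα0 g)
    · have h6 : 0 < ‖g‖ ^ 2 := lt_of_le_of_ne (by positivity) (Ne.symm h0)
      have h7 : ‖g‖ ^ 2 * ‖g‖ ^ 2 ≤
          ‖g‖ ^ 2 * (K ^ 2 * B * ∑' n : ℕ, ‖⟪α n • φ n, g⟫_ℂ‖ ^ 2) := by nlinarith
      exact le_of_mul_le_mul_left h7 h6
  · rw [inv_mul_le_iff₀ (by positivity)]
    have h1 := hself f
    have h2 : ‖f‖ ^ 2 ≤ K ^ 2 * ‖Ml f‖ ^ 2 := by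
      have := pow_le_pow_left₀ (norm_nonneg _) (hinv f) 2
      rwa [mul_pow] at this
    have h3 := mul_le_mul_of_nonneg_left h1 (sq_nonneg K)
    linarith

end

end Pool.Agent.H197R3.Bes
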