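import Mathlib

set_option autoImplicit false
set_option linter.unusedSectionVars false
set_option linter.unusedSimpArgs false

namespace Pool.Agent.H197R3

open scoped InnerProductSpace ComplexConjugate

noncomputable abbrev L2 (G : Type) := lp (fun _ : G => ℂ) 2

/-- the standard Hilbert basis of `ℓ²(G)` -/
noncomputable def bas (G : Type) : HilbertBasis G ℂ (L2 G) :=
  HilbertBasis.ofRepr (LinearIsometryEquiv.refl ℂ _)

lemma bas_inner {G : Type} (h : G) (f : L2 G) : ⟪bas G h, f⟫_ℂ = f h := by
  classical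
  rw [← HilbertBasis.repr_apply_apply]
  rfl

lemma bas_ext {G : Type} {f f' : L2 G} (h : ∀ x, ⟪bas G x, f⟫_ℂ = ⟪bas G x, f'⟫_ℂ) : f = f' := by
  ext x
  rw [← bas_inner, ← bas_inner, h]

section trans
variable {G : Type} [Group G]

lemma rtv_orthonormal (g : G) : Orthonormal ℂ (fun y : G => bas G (y * g⁻¹)) :=
  (bas G).orthonormal.comp _ (mul_left_injective g⁻¹)

lemma rtv_dense (g : G) :
    ⊤ ≤ (Submodule.span ℂ (Set.range (fun y : G => bas G (y * g⁻¹)))).topologicalClosure := by
  have : Set.range (fun y : G => bas G (y * g⁻¹)) = Set.range (bas G) := by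
    ext v
    constructor
    · rintro ⟨y, rfl⟩; exact ⟨_, rfl⟩
    · rintro ⟨y, rfl⟩; exact ⟨y * g, by simp⟩
  rw [this, (bas G).dense_span]

/-- right translation on `ℓ²(G)` -/
noncomputable def rt (g : G) : L2 G ≃ₗᵢ[ℂ] L2 G :=
  (HilbertBasis.mk (rtv_orthonormal g) (rtv_dense g)).repr.symm

lemma rt_bas (g y : G) : rt g (bas G y) = bas G (y * g⁻¹) := by
  classical
  have h1 : bas G y = lp.single 2 y (1 : ℂ) := by
    have := (bas G).repr_symm_single y
    rw [← this]; rfl
  rw [h1, rt, HilbertBasis.repr_symm_single, HilbertBasis.coe_mk]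

lemma rt_apply (g : G) (f : L2 G) (x : G) : (rt g f) x = f (x * g) := by
  rw [← bas_inner, ← bas_inner]
  have : bas G x = rt g (bas G (x * g)) := by rw [rt_bas]; simp
  rw [this, LinearIsometryEquiv.inner_map_map]

lemma mem_comm_iff (T : L2 G →L[ℂ] L2 G) :
    (∀ g : G, ∀ f f' : lp (fun _ : G => ℂ) 2,
              (∀ x : G, f' x = f (x * g)) → ∀ x : G, (T f') x = (T f) (x * g)) ↔
    ∀ g f, T (rt g f) = rt g (T f) := by
  constructor
  · intro h g f
    ext x
    rw [h g f (rt g f) (fun x => rt_apply g f x) x, rt_apply]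
  · intro h g f f' hf x
    have : f' = rt g f := by
      ext x; rw [hf, rt_apply]
    rw [this, h, rt_apply]

end trans

section toL2
variable {H : Type} [Group H]

/-- embedding of the group algebra in `ℓ²` -/
noncomputable def toL2 : MonoidAlgebra ℂ H →ₗ[ℂ] L2 H :=
  Finsupp.linearCombination ℂ (bas H) ∘ₗ (MonoidAlgebra.coeffLinearEquiv ℂ).toLinearMap

lemma toL2_single (h : H) (r : ℂ) : toL2 (MonoidAlgebra.single h r) = r • bas H h := by
  simp [toL2]

/-- right multiplication operators -/
noncomputable def rho : MonoidAlgebra ℂ H →ₗ[ℂ] (L2 H →L[ℂ] L2 H) :=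
  Finsupp.linearCombination ℂ (fun h : H => ((rt h⁻¹ : L2 H ≃ₗᵢ[ℂ] L2 H) : L2 H →L[ℂ] L2 H)) ∘ₗ
    (MonoidAlgebra.coeffLinearEquiv ℂ).toLinearMap

lemma rho_single (h : H) (r : ℂ) : rho (MonoidAlgebra.single h r) =
    r • ((rt h⁻¹ : L2 H ≃ₗᵢ[ℂ] L2 H) : L2 H →L[ℂ] L2 H) := by
  simp [rho]

lemma rho_toL2 (x y : MonoidAlgebra ℂ H) : rho y (toL2 x) = toL2 (x * y) := by
  induction y using MonoidAlgebra.induction_linear with
  | zero => simp
  | add a b ha hb => simp [mul_add, ha, hb]
  | single h r =>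
    induction x using MonoidAlgebra.induction_linear with
    | zero => simp
    | add a b ha hb => simp [add_mul, ha, hb]
    | single k s =>
      rw [MonoidAlgebra.single_mul_single, toL2_single, toL2_single, rho_single]
      simp [rt_bas, smul_smul, mul_comm]

end toL2

section main
variable {G H : Type} [Group G] [Group H]

/-- the algebraic data producing an isomorphism of group von Neumann algebras -/
structure Twist (G H : Type) [Group G] [Group H] where
  θ : G →* MonoidAlgebra ℂ H
  tr : ∀ g, g ≠ 1 → (θ g).coeff 1 = 0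
  st : ∀ g h, (θ g⁻¹).coeff h⁻¹ = conj ((θ g).coeff h)
  sp : ∀ h, MonoidAlgebra.single h (1 : ℂ) ∈ Submodule.span ℂ (Set.range θ)

variable (t : Twist G H)

lemma inner_toL2 (g : G) (y : MonoidAlgebra ℂ H) :
    ⟪toL2 (t.θ g), toL2 y⟫_ℂ = (t.θ g⁻¹ * y).coeff 1 := by
  induction y using MonoidAlgebra.induction_linear with
  | zero => simp
  | add a b ha hb => simp [mul_add, inner_add_right, ha, hb]
  | single h r =>
    rw [toL2_single, inner_smul_right, MonoidAlgebra.coeff_mul_single_apply]
    have : ⟪toL2 (t.θ g), bas H h⟫_ℂ = conj ((t.θ g).coeff h) := by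
      rw [← inner_conj_symm, bas_inner]
      congr 1
      generalize t.θ g = y
      induction y using MonoidAlgebra.induction_linear with
      | zero => simp
      | add a b ha hb => simp [ha, hb]
      | single k s =>
        classical
        rw [toL2_single]
        have h1 : ((bas H k : L2 H) h : ℂ) = if k = h then 1 else 0 := by
          rw [← bas_inner]
          have := orthonormal_iff_ite.1 (bas H).orthonormal h k
          rw [this]
          simp [eq_comm]
        simp [h1, MonoidAlgebra.coeff_single, Finsupp.single_apply]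
    rw [this, one_mul, t.st, mul_comm]

lemma tw_orthonormal : Orthonormal ℂ (fun g => toL2 (t.θ g)) := by
  classical
  rw [orthonormal_iff_ite]
  intro g g'
  rw [inner_toL2, ← map_mul]
  split_ifs with h
  · subst h; simp
  · exact t.tr _ (fun h' => h (inv_mul_eq_one.1 h'))

lemma tw_dense :
    ⊤ ≤ (Submodule.span ℂ (Set.range (fun g => toL2 (t.θ g)))).topologicalClosure := by
  rw [← (bas H).dense_span]
  apply Submodule.topologicalClosure_mono
  rw [Submodule.span_le]
  rintro _ ⟨h, rfl⟩
  have h1 := t.sp h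
  have h2 : toL2 (MonoidAlgebra.single h (1 : ℂ)) ∈
      Submodule.map toL2 (Submodule.span ℂ (Set.range t.θ)) := Submodule.mem_map_of_mem h1
  rw [Submodule.map_span, ← Set.range_comp, toL2_single, one_smul] at h2
  exact h2

/-- the unitary `ℓ²(G) → ℓ²(H)` -/
noncomputable def tw : L2 G ≃ₗᵢ[ℂ] L2 H := (HilbertBasis.mk (tw_orthonormal t) (tw_dense t)).repr.symm

lemma bas_eq_single [DecidableEq G] (y : G) : bas G y = lp.single 2 y (1 : ℂ) := by
  have := (bas G).repr_symm_single y
  rw [← this]; rfl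

lemma tw_bas (g : G) : tw t (bas G g) = toL2 (t.θ g) := by
  classical
  rw [bas_eq_single, tw, HilbertBasis.repr_symm_single, HilbertBasis.coe_mk]

lemma ext_bas {E : Type*} [AddCommGroup E] [Module ℂ E] [TopologicalSpace E] [T2Space E]
    {S T : L2 G →L[ℂ] E} (h : ∀ g, S (bas G g) = T (bas G g)) : S = T := by
  have hd : Dense (Submodule.span ℂ (Set.range (bas G)) : Set (L2 G)) := by
    rw [Submodule.dense_iff_topologicalClosure_eq_top]
    exact (bas G).dense_span
  apply ContinuousLinearMap.ext_on hd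
  rintro _ ⟨g, rfl⟩
  exact h g

/-- `U R_{g⁻¹} = ρ(θ g) U` -/
lemma tw_intertwine (g : G) (f : L2 G) : tw t (rt g⁻¹ f) = rho (t.θ g) (tw t f) := by
  have : ((tw t : L2 G ≃ₗᵢ[ℂ] L2 H) : L2 G →L[ℂ] L2 H) ∘L
      ((rt g⁻¹ : L2 G ≃ₗᵢ[ℂ] L2 G) : L2 G →L[ℂ] L2 G) =
      rho (t.θ g) ∘L ((tw t : L2 G ≃ₗᵢ[ℂ] L2 H) : L2 G →L[ℂ] L2 H) := by
    apply ext_bas
    intro y
    simp only [ContinuousLinearMap.comp_apply]
    show tw t (rt g⁻¹ (bas G y)) = rho (t.θ g) (tw t (bas G y))
    rw [rt_bas, tw_bas, tw_bas, rho_toL2, inv_inv, map_mul]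
  exact congrArg (fun S => S f) this

theorem vn_iso (t : Twist G H) :
    ∀ (A : Set (lp (fun _ : G => ℂ) 2 →L[ℂ] lp (fun _ : G => ℂ) 2))
      (B : Set (lp (fun _ : H => ℂ) 2 →L[ℂ] lp (fun _ : H => ℂ) 2)),
      A = {T | ∀ g : G, ∀ f f' : lp (fun _ : G => ℂ) 2,
              (∀ x : G, f' x = f (x * g)) → ∀ x : G, (T f') x = (T f) (x * g)} →
      B = {T | ∀ h : H, ∀ f f' : lp (fun _ : H => ℂ) 2,
              (∀ x : H, f' x = f (x * h)) → ∀ x : H, (T f') x = (T f) (x * h)} →
      (∃ Φ : (lp (fun _ : G => ℂ) 2 →L[ℂ] lp (fun _ : G => ℂ) 2) →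
              (lp (fun _ : H => ℂ) 2 →L[ℂ] lp (fun _ : H => ℂ) 2),
        Set.BijOn Φ A B ∧
        ∀ x ∈ A, ∀ y ∈ A,
          Φ (x + y) = Φ x + Φ y ∧ Φ (x * y) = Φ x * Φ y ∧
          Φ (star x) = star (Φ x) ∧ ∀ c : ℂ, Φ (c • x) = c • Φ x) := by
  intro A B hA hB
  have hA' : ∀ T, T ∈ A ↔ ∀ g f, T (rt g f) = rt g (T f) := by
    intro T; rw [hA, ← mem_comm_iff]; rfl
  have hB' : ∀ T, T ∈ B ↔ ∀ g f, T (rt g f) = rt g (T f) := by
    intro T; rw [hB, ← mem_comm_iff]; rfl
  set U := tw t with hU
  -- commuting with all `rho`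
  have hBr : ∀ T : L2 H →L[ℂ] L2 H, T ∈ B ↔ ∀ y f, T (rho y f) = rho y (T f) := by
    intro T
    rw [hB']
    constructor
    · intro h y f
      induction y using MonoidAlgebra.induction_linear with
      | zero => simp
      | add a b ha hb => simp [ha, hb]
      | single k s => 
        rw [rho_single]
        simp only [_root_.smul_apply, map_smul]
        congr 1
        exact h _ _
    · intro h g f
      have := h (MonoidAlgebra.single g⁻¹ 1) f
      rw [rho_single] at this
      simpa using this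
  have hBt : ∀ T : L2 H →L[ℂ] L2 H, T ∈ B ↔ ∀ g f, T (rho (t.θ g) f) = rho (t.θ g) (T f) := by
    intro T
    rw [hBr]
    constructor
    · intro h g f; exact h _ f
    · intro h
      have key : ∀ y ∈ Submodule.span ℂ (Set.range t.θ), ∀ f, T (rho y f) = rho y (T f) := by
        intro y hy
        induction hy using Submodule.span_induction with
        | mem x hx => obtain ⟨g, rfl⟩ := hx; exact h g
        | zero => simp
        | add a b _ _ ha hb => intro f; simp [ha, hb]
        | smul c a _ ha => intro f; simp [ha]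
      intro y
      apply key
      induction y using MonoidAlgebra.induction_linear with
      | zero => exact Submodule.zero_mem _
      | add a b ha hb => exact Submodule.add_mem _ ha hb
      | single k s =>
        have := Submodule.smul_mem _ s (t.sp k)
        rwa [MonoidAlgebra.smul_single, smul_eq_mul, mul_one] at this
  have hAB : ∀ T : L2 G →L[ℂ] L2 G, T ∈ A ↔ U.conjStarAlgEquiv T ∈ B := by
    intro T
    rw [hBt, hA']
    constructor
    · intro h g f
      obtain ⟨f, rfl⟩ := U.surjective f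
      rw [← tw_intertwine, LinearIsometryEquiv.conjStarAlgEquiv_apply_apply,
        LinearIsometryEquiv.conjStarAlgEquiv_apply_apply]
      simp only [hU, LinearIsometryEquiv.symm_apply_apply]
      rw [h, tw_intertwine]
    · intro h g f
      have h1 := h g⁻¹ (U f)
      rw [← tw_intertwine, LinearIsometryEquiv.conjStarAlgEquiv_apply_apply,
        LinearIsometryEquiv.conjStarAlgEquiv_apply_apply] at h1
      simp only [hU, LinearIsometryEquiv.symm_apply_apply] at h1
      rw [← tw_intertwine] at h1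
      simpa using U.injective h1
  refine ⟨fun T => U.conjStarAlgEquiv T, ⟨?_, ?_, ?_⟩, ?_⟩
  · intro T hT; exact (hAB T).1 hT
  · intro S _ T _ h; exact U.conjStarAlgEquiv.injective h
  · intro S hS
    obtain ⟨T, rfl⟩ := U.conjStarAlgEquiv.surjective S
    exact ⟨T, (hAB T).2 hS, rfl⟩
  · intro x _ y _
    exact ⟨map_add _ _ _, map_mul _ _ _, map_star _ _, fun c => map_smul _ _ _⟩

end main
end Pool.Agent.H197R3
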