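import Mathlib
import Pool.Agent.H197R3.VN

set_option autoImplicit false
set_option linter.unusedSectionVars false
set_option linter.unusedSimpArgs false

namespace Pool.Agent.H197R3

open scoped ComplexConjugate

section scal

/-- the sign character of `ZMod 2` -/
noncomputable def iC : Circle := ⟨Complex.I, by simp [Submonoid.unitSphere]⟩

lemma iC_coe : (iC : ℂ) = Complex.I := rfl

noncomputable def sg (x : ZMod 2) : Circle := if x = 0 then 1 else iC * iC
noncomputable def tw2 (x : ZMod 2) : Circle := if x = 0 then 1 else iC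

lemma iC4 : iC * iC * (iC * iC) = 1 := by
  apply Circle.ext; simp [iC_coe]

lemma z2 (x : ZMod 2) : x = 0 ∨ x = 1 := by revert x; decide

lemma z2_10 : ¬ ((1 : ZMod 2) = 0) := by decide
lemma z2_11 : (1 : ZMod 2) + 1 = 0 := by decide

lemma sg0 : sg 0 = 1 := if_pos rfl
lemma sg1 : sg 1 = iC * iC := if_neg z2_10
lemma tw0 : tw2 0 = 1 := if_pos rfl
lemma tw1 : tw2 1 = iC := if_neg z2_10

lemma sg_add (x y : ZMod 2) : sg (x + y) = sg x * sg y := by
  rcases z2 x with rfl | rfl <;> rcases z2 y with rfl | rfl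
  · simp [sg0]
  · simp [sg0]
  · simp [sg0]
  · rw [z2_11, sg0, sg1, iC4]

lemma sg_zero : sg 0 = 1 := sg0

lemma sg_sq (x : ZMod 2) : sg x * sg x = 1 := by
  rw [← sg_add, CharTwo.add_self_eq_zero, sg_zero]

lemma tw_add (x y : ZMod 2) : tw2 x * tw2 y = tw2 (x + y) * sg (x * y) := by
  rcases z2 x with rfl | rfl <;> rcases z2 y with rfl | rfl
  · simp [sg0, tw0]
  · simp [sg0, tw0]
  · simp [sg0, tw0]
  · rw [z2_11, mul_one, sg1, tw0, tw1, one_mul]

lemma tw_sq (x : ZMod 2) : tw2 x * tw2 x = sg x := by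
  rcases z2 x with rfl | rfl
  · simp [sg0, tw0]
  · simp [sg1, tw1]

lemma tw_expand (x : ZMod 2) : (tw2 x : ℂ) = (1 + Complex.I) / 2 + (1 - Complex.I) / 2 * (sg x : ℂ) := by
  rcases z2 x with rfl | rfl
  · simp [sg0, tw0]; ring
  · simp [sg1, tw1, iC_coe]; ring

lemma tw_inv_expand (x : ZMod 2) :
    ((tw2 x)⁻¹ : Circle) = ((1 - Complex.I) / 2 + (1 + Complex.I) / 2 * (sg x : ℂ) : ℂ) := by
  rcases z2 x with rfl | rfl
  · simp [sg0, tw0]; ring
  · simp [sg1, tw1, iC_coe]; ring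

end scal

section quad
variable (A : Type) [AddCommGroup A]

/-- `F₂`-valued quadratic functions -/
def Quad : AddSubgroup (A → ZMod 2) where
  carrier := {Q | ∀ a b c, Q (a + b + c) + Q (a + b) + Q (b + c) + Q (a + c) + Q a + Q b + Q c = 0}
  zero_mem' := by intro a b c; simp
  add_mem' := by
    intro Q Q' h h' a b c
    have h1 := h a b c
    have h2 := h' a b c
    simp only [Pi.add_apply]
    linear_combination h1 + h2
  neg_mem' := by
    intro Q h a b c
    have h1 := h a b c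
    simp only [Pi.neg_apply]
    linear_combination -h1

/-- the common `Λ`-set -/
abbrev XX := (A →+ ZMod 2) × Quad A

variable {A}

lemma quad_rel (Q : Quad A) (a b c : A) : Q.1 (a + b + c) + Q.1 (a + b) + Q.1 (b + c) + Q.1 (a + c)
    + Q.1 a + Q.1 b + Q.1 c = 0 := Q.2 a b c

/-- the product of two linear forms -/
def vv (v v' : A →+ ZMod 2) : Quad A := ⟨fun a => v a * v' a, by
  intro a b c
  simp only [map_add]
  have h2 : (2 : ZMod 2) = 0 := rfl
  linear_combination (2 * v a * v' a + 2 * v b * v' b + 2 * v c * v' c + v a * v' b + v a * v' c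
    + v b * v' a + v b * v' c + v c * v' a + v c * v' b) * h2⟩

lemma vv_zero_left (v : A →+ ZMod 2) : vv 0 v = 0 := by
  apply Subtype.ext; funext a; simp [vv]

lemma vv_zero_right (v : A →+ ZMod 2) : vv v 0 = 0 := by
  apply Subtype.ext; funext a; simp [vv]

/-- generators of `M₁` -/
noncomputable def uu (a : A) : XX A → Circle := fun x => tw2 (x.1 a) * sg (x.2.1 a)
/-- generators of `M₂` -/
noncomputable def gg (a : A) : XX A → Circle := fun x => sg (x.1 a)
noncomputable def hh (a : A) : XX A → Circle := fun x => sg (x.2.1 a)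

variable (A) in
/-- the first abelian group -/
noncomputable def M1 : Subgroup (XX A → Circle) := Subgroup.closure (Set.range uu)
variable (A) in
/-- the second abelian group -/
noncomputable def M2 : Subgroup (XX A → Circle) := Subgroup.closure (Set.range gg ∪ Set.range hh)

lemma uu_mem (a : A) : uu a ∈ M1 A := Subgroup.subset_closure ⟨a, rfl⟩
lemma gg_mem (a : A) : gg a ∈ M2 A := Subgroup.subset_closure (Or.inl ⟨a, rfl⟩)
lemma hh_mem (a : A) : hh a ∈ M2 A := Subgroup.subset_closure (Or.inr ⟨a, rfl⟩)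

lemma uu_sq (a : A) : uu a * uu a = gg a := by
  funext x
  simp only [uu, gg, Pi.mul_apply]
  rw [mul_mul_mul_comm, tw_sq, sg_sq, mul_one]

lemma M2_char {m : XX A → Circle} (hm : m ∈ M2 A) (x y : XX A) : m (x + y) = m x * m y := by
  induction hm using Subgroup.closure_induction with
  | mem z hz =>
    rcases hz with ⟨a, rfl⟩ | ⟨a, rfl⟩
    · simp [gg, sg_add]
    · simp [hh, sg_add]
  | one => simp
  | mul p q _ _ hp hq => simp only [Pi.mul_apply, hp, hq]; exact mul_mul_mul_comm _ _ _ _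
  | inv p _ hp => simp only [Pi.inv_apply, hp]; exact mul_inv _ _

lemma M2_sq {m : XX A → Circle} (hm : m ∈ M2 A) : m * m = 1 := by
  induction hm using Subgroup.closure_induction with
  | mem z hz =>
    rcases hz with ⟨a, rfl⟩ | ⟨a, rfl⟩
    · funext x; exact sg_sq _
    · funext x; exact sg_sq _
  | one => simp
  | mul p q _ _ hp hq => rw [mul_mul_mul_comm, hp, hq, one_mul]
  | inv p _ hp => rw [← mul_inv, hp, inv_one]

lemma M1_char {m : XX A → Circle} (hm : m ∈ M1 A) (v v' : A →+ ZMod 2) (Q Q' : Quad A) :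
    m (v + v', Q + Q' + vv v v') = m (v, Q) * m (v', Q') := by
  induction hm using Subgroup.closure_induction with
  | mem z hz =>
    obtain ⟨a, rfl⟩ := hz
    simp only [uu, AddMonoidHom.add_apply]
    have e : (Q + Q' + vv v v').1 a = Q.1 a + Q'.1 a + v a * v' a := rfl
    rw [e, sg_add, sg_add]
    have h1 := tw_add (v a) (v' a)
    calc tw2 (v a + v' a) * (sg (Q.1 a) * sg (Q'.1 a) * sg (v a * v' a))
        = (tw2 (v a + v' a) * sg (v a * v' a)) * (sg (Q.1 a) * sg (Q'.1 a)) := by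
          rw [mul_comm (sg (Q.1 a) * sg (Q'.1 a)), mul_assoc]
      _ = _ := by rw [← h1, mul_mul_mul_comm]
  | one => simp
  | mul p q _ _ hp hq => simp only [Pi.mul_apply, hp, hq]; exact mul_mul_mul_comm _ _ _ _
  | inv p _ hp => simp only [Pi.inv_apply, hp]; exact mul_inv _ _

lemma M1_exists {m : XX A → Circle} (hm : m ∈ M1 A) (h1 : m ≠ 1) :
    ∃ x₀, m x₀ ≠ 1 ∧ ∀ x, m (x + x₀) = m x * m x₀ := by
  by_cases hA : ∃ Q₀, m (0, Q₀) ≠ 1
  · obtain ⟨Q₀, hQ⟩ := hA
    refine ⟨(0, Q₀), hQ, ?_⟩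
    rintro ⟨v, Q⟩
    have := M1_char hm v 0 Q Q₀
    rw [vv_zero_right, add_zero, add_zero] at this
    rw [← this, Prod.mk_add_mk, add_zero]
  · push Not at hA
    have hred : ∀ v Q, m (v, Q) = m (v, 0) := by
      intro v Q
      have := M1_char hm 0 v Q 0
      rw [vv_zero_left, add_zero, add_zero, zero_add, hA, one_mul] at this
      exact this
    have : ∃ x, m x ≠ 1 := by
      by_contra hcon
      push Not at hcon
      exact h1 (funext hcon)
    obtain ⟨⟨v₀, Q₀⟩, hv⟩ := this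
    rw [hred] at hv
    refine ⟨(v₀, 0), hv, ?_⟩
    rintro ⟨v, Q⟩
    rw [← M1_char hm v v₀ Q 0, Prod.mk_add_mk, hred _ (Q + 0), hred _ (Q + 0 + vv v v₀)]

lemma zz_uu_apply (a b : A) (x : XX A) : (uu a * uu b * (uu (a + b))⁻¹) x =
    sg (x.1 a * x.1 b + (x.2.1 a + x.2.1 b + x.2.1 (a + b))) := by
  simp only [uu, Pi.mul_apply, Pi.inv_apply, map_add]
  have h1 := tw_add (x.1 a) (x.1 b)
  have h2 : (sg (x.2.1 (a + b)))⁻¹ = sg (x.2.1 (a + b)) := by
    rw [inv_eq_iff_mul_eq_one]; exact sg_sq _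
  rw [sg_add, sg_add, sg_add, mul_inv, h2]
  calc tw2 (x.1 a) * sg (x.2.1 a) * (tw2 (x.1 b) * sg (x.2.1 b)) *
      ((tw2 (x.1 a + x.1 b))⁻¹ * sg (x.2.1 (a + b)))
      = (tw2 (x.1 a) * tw2 (x.1 b)) * (tw2 (x.1 a + x.1 b))⁻¹ *
        (sg (x.2.1 a) * sg (x.2.1 b) * sg (x.2.1 (a + b))) := by
        simp only [mul_comm, mul_left_comm, mul_assoc]
    _ = _ := by
        rw [h1, mul_comm (tw2 (x.1 a + x.1 b)), mul_inv_cancel_right]

lemma zz_uu_add (a a' b : A) :
    (uu (a + a') * uu b * (uu (a + a' + b))⁻¹ : XX A → Circle) =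
    (uu a * uu b * (uu (a + b))⁻¹) * (uu a' * uu b * (uu (a' + b))⁻¹) := by
  funext x
  rw [Pi.mul_apply (uu a * uu b * (uu (a + b))⁻¹), zz_uu_apply, zz_uu_apply, zz_uu_apply, ← sg_add]
  congr 1
  have h := quad_rel x.2 a a' b
  have h2 : (2 : ZMod 2) = 0 := rfl
  simp only [map_add]
  linear_combination h - (x.2.1 a + x.2.1 a' + x.2.1 b + x.2.1 (a + b) + x.2.1 (a' + b)) * h2

end quad
end Pool.Agent.H197R3
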