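import Mathlib
import Pool.Agent.H197R3.Model

set_option autoImplicit false
set_option linter.unusedSectionVars false
set_option linter.unusedSimpArgs false

namespace Pool.Agent.H197R3

open scoped ComplexConjugate

section action
variable {A : Type} [AddCommGroup A] {Λ : Type} [Group Λ] [DistribMulAction Λ A]

/-- action of `Λ` on `XX A` by pull-back -/
def pb (g : Λ) (x : XX A) : XX A :=
  (x.1.comp (DistribSMul.toAddMonoidHom A g), ⟨fun a => x.2.1 (g • a), by
    intro a b c; simp only [smul_add]; exact x.2.2 _ _ _⟩)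

lemma pb_fst (g : Λ) (x : XX A) (a : A) : (pb g x).1 a = x.1 (g • a) := rfl
lemma pb_snd (g : Λ) (x : XX A) (a : A) : (pb g x).2.1 a = x.2.1 (g • a) := rfl

lemma pb_mul (g h : Λ) (x : XX A) : pb (g * h) x = pb h (pb g x) := by
  refine Prod.ext ?_ ?_
  · ext a; simp only [pb_fst, mul_smul]
  · apply Subtype.ext; funext a; simp only [pb_snd, mul_smul]

lemma pb_one (x : XX A) : pb (1 : Λ) x = x := by
  refine Prod.ext ?_ ?_
  · ext a; simp only [pb_fst, one_smul]
  · apply Subtype.ext; funext a; simp only [pb_snd, one_smul]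

/-- invariance of a group of functions -/
def Inv' (Λ : Type) [Group Λ] [DistribMulAction Λ A] (M : Subgroup (XX A → Circle)) : Prop :=
  ∀ (g : Λ), ∀ m ∈ M, (fun x => m (pb g x)) ∈ M

lemma inv_M1 : Inv' Λ (M1 A) := by
  intro g m hm
  induction hm using Subgroup.closure_induction with
  | mem z hz => obtain ⟨a, rfl⟩ := hz; exact uu_mem (g • a)
  | one => exact one_mem _
  | mul p q _ _ hp hq => exact mul_mem hp hq
  | inv p _ hp => exact inv_mem hp

lemma inv_M2 : Inv' Λ (M2 A) := by
  intro g m hm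
  induction hm using Subgroup.closure_induction with
  | mem z hz =>
    rcases hz with ⟨a, rfl⟩ | ⟨a, rfl⟩
    · exact gg_mem (g • a)
    · exact hh_mem (g • a)
  | one => exact one_mem _
  | mul p q _ _ hp hq => exact mul_mem hp hq
  | inv p _ hp => exact inv_mem hp

/-- the action on a group of functions -/
def phi (M : Subgroup (XX A → Circle)) (hM : Inv' Λ M) : Λ →* MulAut M where
  toFun g :=
    { toFun := fun m => ⟨fun x => m.1 (pb g x), hM g m.1 m.2⟩
      invFun := fun m => ⟨fun x => m.1 (pb g⁻¹ x), hM g⁻¹ m.1 m.2⟩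
      left_inv := by
        intro m; apply Subtype.ext; funext x
        show m.1 (pb g (pb g⁻¹ x)) = m.1 x
        rw [← pb_mul, inv_mul_cancel, pb_one]
      right_inv := by
        intro m; apply Subtype.ext; funext x
        show m.1 (pb g⁻¹ (pb g x)) = m.1 x
        rw [← pb_mul, mul_inv_cancel, pb_one]
      map_mul' := fun m n => rfl }
  map_one' := by
    apply MulEquiv.ext; intro m; apply Subtype.ext; funext x
    show m.1 (pb (1 : Λ) x) = m.1 x
    rw [pb_one]
  map_mul' g h := by
    apply MulEquiv.ext; intro m; apply Subtype.ext; funext x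
    show m.1 (pb (g * h) x) = m.1 (pb h (pb g x))
    rw [pb_mul]

lemma phi_apply (M : Subgroup (XX A → Circle)) (hM : Inv' Λ M) (g : Λ) (m : M) (x : XX A) :
    (phi M hM g m).1 x = m.1 (pb g x) := rfl

/-- the two groups -/
abbrev GG (Λ : Type) [Group Λ] [DistribMulAction Λ A] (M : Subgroup (XX A → Circle))
    (hM : Inv' Λ M) := M ⋊[phi M hM] Λ

end action

section ev
variable {A : Type} [AddCommGroup A]

/-- functions as homomorphism -/
noncomputable def evHom (M : Subgroup (XX A → Circle)) : M →* (XX A → ℂ) where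
  toFun m := fun x => (m.1 x : ℂ)
  map_one' := by funext x; simp
  map_mul' m n := by funext x; simp

/-- evaluation of the group algebra -/
noncomputable def ev (M : Subgroup (XX A → Circle)) : MonoidAlgebra ℂ M →ₐ[ℂ] (XX A → ℂ) :=
  MonoidAlgebra.lift ℂ (XX A → ℂ) M (evHom M)

lemma ev_single (M : Subgroup (XX A → Circle)) (m : M) (r : ℂ) :
    ev M (MonoidAlgebra.single m r) = r • evHom M m := by simp [ev]

lemma ev_single_apply (M : Subgroup (XX A → Circle)) (m : M) (r : ℂ) (x : XX A) :
    ev M (MonoidAlgebra.single m r) x = r * (m.1 x : ℂ) := by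
  rw [ev_single]; rfl

lemma ev_inj : Function.Injective (ev (M2 A)) := by
  let L : M2 A → (Multiplicative (XX A) →* ℂ) := fun m =>
    { toFun := fun x => ((m.1 x.toAdd : Circle) : ℂ)
      map_one' := by
        have h := M2_char m.2 0 0
        rw [add_zero] at h
        have h1 : m.1 0 = 1 := (mul_eq_left.1 h.symm)
        simp [h1]
      map_mul' := fun x y => by
        simp [M2_char m.2] }
  have hL : Function.Injective L := by
    intro m n h
    apply Subtype.ext; funext x
    have := congrArg (fun f : Multiplicative (XX A) →* ℂ => f (Multiplicative.ofAdd x)) h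
    exact Circle.ext this
  have hli := (linearIndependent_monoidHom (Multiplicative (XX A)) ℂ).comp L hL
  rw [linearIndependent_iff_injective_finsuppLinearCombination] at hli
  intro y y' h
  apply MonoidAlgebra.ext
  apply hli
  have key : ∀ y : MonoidAlgebra ℂ (M2 A), (Finsupp.linearCombination ℂ
      ((fun f : Multiplicative (XX A) →* ℂ => (f : Multiplicative (XX A) → ℂ)) ∘ L)) y.coeff =
      fun x => ev (M2 A) y x.toAdd := by
    intro y
    induction y using MonoidAlgebra.induction_linear with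
    | zero => funext x; simp
    | add a b ha hb => rw [MonoidAlgebra.coeff_add, map_add, ha, hb]; funext x; simp
    | single m r =>
      funext x
      rw [ev_single_apply]
      simp [L]
  rw [key, key, h]

/-- translation homomorphism -/
noncomputable def trHom (x₀ : XX A) : M2 A →* MonoidAlgebra ℂ (M2 A) where
  toFun := fun m => MonoidAlgebra.single m ((m.1 x₀ : Circle) : ℂ)
  map_one' := by simp [MonoidAlgebra.one_def]
  map_mul' := fun m n => by simp

/-- translation automorphism -/
noncomputable def trans (x₀ : XX A) : MonoidAlgebra ℂ (M2 A) →ₐ[ℂ] MonoidAlgebra ℂ (M2 A) :=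
  MonoidAlgebra.lift ℂ _ (M2 A) (trHom x₀)

lemma trans_single (x₀ : XX A) (m : M2 A) (r : ℂ) :
    trans x₀ (MonoidAlgebra.single m r) = MonoidAlgebra.single m (r * (m.1 x₀ : ℂ)) := by
  rw [trans, MonoidAlgebra.lift_single]
  show r • MonoidAlgebra.single m ((m.1 x₀ : Circle) : ℂ) = _
  rw [MonoidAlgebra.smul_single, smul_eq_mul]

lemma ev_trans (x₀ : XX A) (y : MonoidAlgebra ℂ (M2 A)) (x : XX A) :
    ev (M2 A) (trans x₀ y) x = ev (M2 A) y (x + x₀) := by
  induction y using MonoidAlgebra.induction_linear with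
  | zero => simp
  | add a b ha hb => simp only [map_add, Pi.add_apply, ha, hb]
  | single m r =>
    rw [trans_single, ev_single_apply, ev_single_apply, M2_char m.2]
    push_cast; ring

lemma coeff_trans (x₀ : XX A) (y : MonoidAlgebra ℂ (M2 A)) :
    (trans x₀ y).coeff 1 = y.coeff 1 := by
  classical
  induction y using MonoidAlgebra.induction_linear with
  | zero => simp
  | add a b ha hb => simp only [map_add, MonoidAlgebra.coeff_add, Finsupp.add_apply, ha, hb]
  | single m r =>
    rw [trans_single]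
    simp only [MonoidAlgebra.coeff_single, Finsupp.single_apply]
    split_ifs with h
    · subst h; simp
    · rfl

/-- the function attached to `m ∈ M₁` is in the range of `ev M₂` -/
lemma M1_range (m : M1 A) : evHom (M1 A) m ∈ (ev (M2 A)).range ∧
    evHom (M1 A) m⁻¹ ∈ (ev (M2 A)).range := by
  have hg : ∀ a : A, (fun x => ((gg a x : Circle) : ℂ)) ∈ (ev (M2 A)).range := by
    intro a
    refine ⟨MonoidAlgebra.single ⟨gg a, gg_mem a⟩ 1, ?_⟩
    funext x; exact (ev_single_apply _ _ _ _).trans (one_mul _)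
  have hh' : ∀ a : A, (fun x => ((hh a x : Circle) : ℂ)) ∈ (ev (M2 A)).range := by
    intro a
    refine ⟨MonoidAlgebra.single ⟨hh a, hh_mem a⟩ 1, ?_⟩
    funext x; exact (ev_single_apply _ _ _ _).trans (one_mul _)
  have hc : ∀ c : ℂ, (fun _ : XX A => c) ∈ (ev (M2 A)).range := fun c =>
    (ev (M2 A)).range.algebraMap_mem c
  obtain ⟨m, hm⟩ := m
  induction hm using Subgroup.closure_induction with
  | mem z hz =>
    obtain ⟨a, rfl⟩ := hz
    constructor
    · have h1 := mul_mem (add_mem (hc ((1 + Complex.I) / 2))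
        (mul_mem (hc ((1 - Complex.I) / 2)) (hg a))) (hh' a)
      convert h1 using 1
      funext x
      show ((tw2 (x.1 a) * sg (x.2.1 a) : Circle) : ℂ) = _
      rw [Circle.coe_mul, tw_expand]; rfl
    · have h1 := mul_mem (add_mem (hc ((1 - Complex.I) / 2))
        (mul_mem (hc ((1 + Complex.I) / 2)) (hg a))) (hh' a)
      convert h1 using 1
      funext x
      show (((tw2 (x.1 a) * sg (x.2.1 a))⁻¹ : Circle) : ℂ) = _
      have h2 : (sg (x.2.1 a))⁻¹ = sg (x.2.1 a) := by
        rw [inv_eq_iff_mul_eq_one]; exact sg_sq _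
      rw [mul_inv, h2, Circle.coe_mul, tw_inv_expand]; rfl
  | one =>
    have : evHom (M1 A) (⟨1, one_mem _⟩ : M1 A) = 1 := map_one (evHom (M1 A))
    constructor
    · rw [this]; exact one_mem _
    · have h2 : (⟨1, one_mem _⟩ : M1 A)⁻¹ = 1 := inv_one
      rw [h2, map_one]; exact one_mem _
  | mul p q hp' hq' hp hq =>
    have e : (⟨p * q, mul_mem hp' hq'⟩ : M1 A) = ⟨p, hp'⟩ * ⟨q, hq'⟩ := rfl
    constructor
    · rw [e, map_mul]; exact mul_mem hp.1 hq.1
    · rw [e, mul_inv, map_mul]; exact mul_mem hp.2 hq.2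
  | inv p hp' hp =>
    have e : (⟨p⁻¹, inv_mem hp'⟩ : M1 A) = (⟨p, hp'⟩ : M1 A)⁻¹ := rfl
    rw [e, inv_inv]
    exact ⟨hp.2, hp.1⟩

lemma M1_ex (m : M1 A) : ∃ y, ev (M2 A) y = evHom (M1 A) m := (M1_range m).1

/-- the twist on the abelian parts -/
noncomputable def thM : M1 A →* MonoidAlgebra ℂ (M2 A) where
  toFun m := Classical.choose (M1_ex m)
  map_one' := by
    apply ev_inj
    refine (Classical.choose_spec (M1_ex (1 : M1 A))).trans ?_
    rw [map_one, map_one]
  map_mul' m n := by
    apply ev_inj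
    refine (Classical.choose_spec (M1_ex (m * n))).trans ?_
    rw [map_mul, map_mul, Classical.choose_spec (M1_ex m), Classical.choose_spec (M1_ex n)]

lemma ev_thM (m : M1 A) : ev (M2 A) (thM m) = evHom (M1 A) m := Classical.choose_spec (M1_ex m)

lemma thM_coeff_one (m : M1 A) (hm : m ≠ 1) : (thM m).coeff 1 = 0 := by
  obtain ⟨x₀, h1, h2⟩ := M1_exists m.2 (fun h => hm (Subtype.ext h))
  have h3 : trans x₀ (thM m) = ((m.1 x₀ : Circle) : ℂ) • thM m := by
    apply ev_inj
    funext x
    rw [ev_trans, ev_thM, map_smul, ev_thM]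
    show ((m.1 (x + x₀) : Circle) : ℂ) = (m.1 x₀ : ℂ) * (m.1 x : ℂ)
    rw [h2, Circle.coe_mul, mul_comm]
  have h4 := coeff_trans x₀ (thM m)
  rw [h3] at h4
  have h5 : ((m.1 x₀ : Circle) : ℂ) * (thM m).coeff 1 = (thM m).coeff 1 := h4
  have h6 : (((m.1 x₀ : Circle) : ℂ) - 1) * (thM m).coeff 1 = 0 := by
    rw [sub_mul, h5, one_mul, sub_self]
  rcases mul_eq_zero.1 h6 with h7 | h7
  · exfalso; apply h1; apply Circle.ext; rw [sub_eq_zero.1 h7]; simp
  · exact h7

/-- `*`-operation (conjugate coefficients; `M₂` has exponent two) -/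
noncomputable def stM (y : MonoidAlgebra ℂ (M2 A)) : MonoidAlgebra ℂ (M2 A) :=
  MonoidAlgebra.map (starRingEnd ℂ : ℂ →+ ℂ) y

lemma M2_inv (m : M2 A) : m⁻¹ = m := by
  rw [inv_eq_iff_mul_eq_one]; exact Subtype.ext (M2_sq m.2)

lemma M2_real (m : M2 A) (x : XX A) : conj ((m.1 x : Circle) : ℂ) = (m.1 x : ℂ) := by
  rw [← Circle.coe_inv_eq_conj]
  have := congrArg (fun n : M2 A => n.1 x) (M2_inv m)
  exact congrArg _ this

lemma ev_stM (y : MonoidAlgebra ℂ (M2 A)) (x : XX A) :
    ev (M2 A) (stM y) x = conj (ev (M2 A) y x) := by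
  unfold stM
  induction y using MonoidAlgebra.induction_linear with
  | zero => simp
  | add a b ha hb => rw [MonoidAlgebra.map_add, map_add, map_add, Pi.add_apply, Pi.add_apply, ha, hb, map_add]
  | single m r =>
    rw [MonoidAlgebra.map_single, ev_single_apply, ev_single_apply, map_mul, M2_real]
    rfl

lemma thM_inv (m : M1 A) : thM m⁻¹ = stM (thM m) := by
  apply ev_inj
  funext x
  rw [ev_stM, ev_thM, ev_thM]
  show (((m.1 x)⁻¹ : Circle) : ℂ) = conj ((m.1 x : Circle) : ℂ)
  exact Circle.coe_inv_eq_conj _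

lemma thM_inv_coeff (m : M1 A) (n : M2 A) : (thM m⁻¹).coeff n⁻¹ = conj ((thM m).coeff n) := by
  rw [thM_inv, M2_inv, stM, MonoidAlgebra.coeff_map]
  rfl

/-- spanning -/
lemma single_mem_span (n : M2 A) :
    MonoidAlgebra.single n (1 : ℂ) ∈ Submodule.span ℂ (Set.range (thM (A := A))) := by
  -- first : the function of `n` is in the range of `ev M₁`
  have hu : ∀ a : A, (fun x => ((uu a x : Circle) : ℂ)) ∈ (ev (M1 A)).range := by
    intro a
    refine ⟨MonoidAlgebra.single ⟨uu a, uu_mem a⟩ 1, ?_⟩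
    funext x; exact (ev_single_apply _ _ _ _).trans (one_mul _)
  have hc : ∀ c : ℂ, (fun _ : XX A => c) ∈ (ev (M1 A)).range := fun c =>
    (ev (M1 A)).range.algebraMap_mem c
  have hg : ∀ a : A, (fun x => ((gg a x : Circle) : ℂ)) ∈ (ev (M1 A)).range := by
    intro a
    have h1 := mul_mem (hu a) (hu a)
    convert h1 using 1
    funext x
    rw [Pi.mul_apply, ← Circle.coe_mul, ← uu_sq]; rfl
  have hh' : ∀ a : A, (fun x => ((hh a x : Circle) : ℂ)) ∈ (ev (M1 A)).range := by
    intro a
    have h1 := mul_mem (hu a) (add_mem (hc ((1 - Complex.I) / 2))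
        (mul_mem (hc ((1 + Complex.I) / 2)) (hg a)))
    convert h1 using 1
    funext x
    show ((sg (x.2.1 a) : Circle) : ℂ) = ((tw2 (x.1 a) * sg (x.2.1 a) : Circle) : ℂ) *
      ((1 - Complex.I) / 2 + (1 + Complex.I) / 2 * (sg (x.1 a) : ℂ))
    rw [← tw_inv_expand, ← Circle.coe_mul, mul_comm (tw2 (x.1 a)), mul_inv_cancel_right]
  have hall : evHom (M2 A) n ∈ (ev (M1 A)).range := by
    obtain ⟨m, hm⟩ := n
    induction hm using Subgroup.closure_induction with
    | mem z hz =>
      rcases hz with ⟨a, rfl⟩ | ⟨a, rfl⟩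
      · exact hg a
      · exact hh' a
    | one => rw [show (⟨1, one_mem _⟩ : M2 A) = 1 from rfl, map_one]; exact one_mem _
    | mul p q hp' hq' hp hq =>
      have e : (⟨p * q, mul_mem hp' hq'⟩ : M2 A) = ⟨p, hp'⟩ * ⟨q, hq'⟩ := rfl
      rw [e, map_mul]; exact mul_mem hp hq
    | inv p hp' hp =>
      have e : (⟨p⁻¹, inv_mem hp'⟩ : M2 A) = (⟨p, hp'⟩ : M2 A)⁻¹ := rfl
      rw [e, M2_inv]; exact hp
  obtain ⟨y, hy⟩ := hall
  have hy' : ev (M1 A) y = evHom (M2 A) n := hy
  have h1 : ∀ y : MonoidAlgebra ℂ (M1 A),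
      ev (M2 A) (MonoidAlgebra.lift ℂ _ (M1 A) thM y) = ev (M1 A) y := by
    intro y
    induction y using MonoidAlgebra.induction_linear with
    | zero => simp
    | add a b ha hb => rw [map_add, map_add, map_add, ha, hb]
    | single m r =>
      rw [MonoidAlgebra.lift_single, map_smul, ev_thM, ev_single]
  have h2 : MonoidAlgebra.lift ℂ _ (M1 A) thM y = MonoidAlgebra.single n (1 : ℂ) := by
    apply ev_inj
    rw [h1, hy', ev_single, one_smul]
  rw [← h2]
  clear h2 hy hy'
  induction y using MonoidAlgebra.induction_linear with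
  | zero => rw [map_zero]; exact zero_mem _
  | add a b ha hb => rw [map_add]; exact add_mem ha hb
  | single m r =>
    rw [MonoidAlgebra.lift_single]
    exact Submodule.smul_mem _ _ (Submodule.subset_span ⟨m, rfl⟩)

end ev
end Pool.Agent.H197R3
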