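import Mathlib

set_option autoImplicit false
set_option linter.unusedSectionVars false
set_option linter.unusedSimpArgs false

namespace Pool.Agent.H197R3

open Matrix Polynomial

section comm
variable {R : Type} [CommRing R]

abbrev SL3 (R : Type) [CommRing R] := Matrix.SpecialLinearGroup (Fin 3) R

/-- elementary matrix -/
abbrev el {i j : Fin 3} (h : i ≠ j) (r : R) : SL3 R := Matrix.SpecialLinearGroup.transvection h r

lemma el_coe {i j : Fin 3} (h : i ≠ j) (r : R) :
    ((el h r : SL3 R) : Matrix (Fin 3) (Fin 3) R) = 1 + Matrix.single i j r := rfl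

lemma el_add {i j : Fin 3} (h : i ≠ j) (r s : R) : el h (r + s) = el h r * el h s :=
  Matrix.SpecialLinearGroup.transvection_add h r s

lemma el_zero {i j : Fin 3} (h : i ≠ j) : el h (0 : R) = 1 := Matrix.SpecialLinearGroup.transvection_coeff_zero h

lemma el_inv {i j : Fin 3} (h : i ≠ j) (r : R) : (el h r)⁻¹ = el h (-r) :=
  Matrix.SpecialLinearGroup.transvection_inv h r

/-- `e_ij(a) e_jl(b) = e_il(ab) e_jl(b) e_ij(a)` -/
lemma el_comm {i j l : Fin 3} (hij : i ≠ j) (hjl : j ≠ l) (hil : i ≠ l) (a b : R) :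
    el hij a * el hjl b = el hil (a * b) * (el hjl b * el hij a) := by
  apply Subtype.ext
  simp only [Matrix.SpecialLinearGroup.coe_mul, el_coe]
  simp [mul_add, add_mul, hij, hjl, hil, hij.symm, hjl.symm, hil.symm]
  abel

lemma el_comm_left {i j l : Fin 3} (hij : i ≠ j) (hil : i ≠ l) (a b : R) :
    el hil b * el hij a = el hij a * el hil b := by
  apply Subtype.ext
  simp only [Matrix.SpecialLinearGroup.coe_mul, el_coe]
  simp [mul_add, add_mul, hij, hil, hij.symm, hil.symm]
  abel

lemma el_comm_right {i j l : Fin 3} (hjl : j ≠ l) (hil : i ≠ l) (a b : R) :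
    el hil b * el hjl a = el hjl a * el hil b := by
  apply Subtype.ext
  simp only [Matrix.SpecialLinearGroup.coe_mul, el_coe]
  simp [mul_add, add_mul, hjl, hil, hjl.symm, hil.symm]
  abel

/-- action on vectors -/
lemma el_smul {i j : Fin 3} (h : i ≠ j) (b : R) (l : Fin 3) (f : R) :
    (el h b) • (Pi.single l f : Fin 3 → R) =
      Pi.single l f + (if l = j then Pi.single i (b * f) else 0) := by
  rw [Matrix.SpecialLinearGroup.smul_def, el_coe, Matrix.smul_eq_mulVec, add_mulVec, one_mulVec]
  congr 1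
  ext m
  rw [Matrix.mulVec, dotProduct]
  simp only [Matrix.single_apply, Pi.single_apply]
  by_cases hm : i = m
  · subst hm
    by_cases hl : l = j
    · subst hl; simp
    · simp [hl, Ne.symm hl]
  · have : ¬ m = i := fun h => hm h.symm
    by_cases hl : l = j
    · subst hl; simp [hm, this]
    · simp [hl, hm]

end comm

section gen
variable {k : Type} [Field k]

lemma gen_all (H : Subgroup (SL3 k[X]))
    (h01 : ∀ a : k, el (by decide : (0 : Fin 3) ≠ 1) (C a : k[X]) ∈ H)
    (h12 : ∀ a : k, el (by decide : (1 : Fin 3) ≠ 2) (C a : k[X]) ∈ H)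
    (h20 : ∀ a b : k, el (by decide : (2 : Fin 3) ≠ 0) (C a + C b * X : k[X]) ∈ H)
    {i j : Fin 3} (hij : i ≠ j) (r : k[X]) : el hij r ∈ H := by
  have hcomm : ∀ {i j l : Fin 3} (hij : i ≠ j) (hjl : j ≠ l) (hil : i ≠ l) (a b : k[X]),
      el hij a ∈ H → el hjl b ∈ H → el hil (a * b) ∈ H := by
    intro i j l hij hjl hil a b ha hb
    have := el_comm hij hjl hil a b
    have h2 : el hil (a * b) = el hij a * el hjl b * (el hjl b * el hij a)⁻¹ := by
      rw [this]; group
    rw [h2]
    exact H.mul_mem (H.mul_mem ha hb) (H.inv_mem (H.mul_mem hb ha))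
  have m0 : ∀ (a : k) {i j : Fin 3} (hij : i ≠ j), el hij (C a : k[X]) ∈ H := by
    have k01 := h01
    have k12 := h12
    have k20 : ∀ a : k, el (by decide : (2 : Fin 3) ≠ 0) (C a : k[X]) ∈ H := by
      intro a; simpa using h20 a 0
    have k02 : ∀ a : k, el (by decide : (0 : Fin 3) ≠ 2) (C a : k[X]) ∈ H := by
      intro a; simpa using hcomm (by decide) (by decide) (by decide) _ _ (k01 a) (k12 1)
    have k10 : ∀ a : k, el (by decide : (1 : Fin 3) ≠ 0) (C a : k[X]) ∈ H := by
      intro a; simpa using hcomm (by decide) (by decide) (by decide) _ _ (k12 a) (k20 1)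
    have k21 : ∀ a : k, el (by decide : (2 : Fin 3) ≠ 1) (C a : k[X]) ∈ H := by
      intro a; simpa using hcomm (by decide) (by decide) (by decide) _ _ (k20 a) (k01 1)
    intro a i j hij
    fin_cases i <;> fin_cases j <;> first | exact absurd rfl hij | exact k01 a | exact k12 a | exact k20 a | exact k02 a | exact k10 a | exact k21 a
  have m1 : ∀ (a : k) {i j : Fin 3} (hij : i ≠ j), el hij (C a * X : k[X]) ∈ H := by
    have k20 : ∀ a : k, el (by decide : (2 : Fin 3) ≠ 0) (C a * X : k[X]) ∈ H := by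
      intro a; simpa using h20 0 a
    have k10 : ∀ a : k, el (by decide : (1 : Fin 3) ≠ 0) (C a * X : k[X]) ∈ H := by
      intro a; simpa using hcomm (by decide) (by decide) (by decide) _ _ (m0 1 (by decide : (1 : Fin 3) ≠ 2)) (k20 a)
    have k21 : ∀ a : k, el (by decide : (2 : Fin 3) ≠ 1) (C a * X : k[X]) ∈ H := by
      intro a; simpa using hcomm (by decide) (by decide) (by decide) _ _ (k20 a) (m0 1 (by decide : (0 : Fin 3) ≠ 1))
    have k01 : ∀ a : k, el (by decide : (0 : Fin 3) ≠ 1) (C a * X : k[X]) ∈ H := by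
      intro a; simpa using hcomm (by decide) (by decide) (by decide) _ _ (m0 1 (by decide : (0 : Fin 3) ≠ 2)) (k21 a)
    have k12 : ∀ a : k, el (by decide : (1 : Fin 3) ≠ 2) (C a * X : k[X]) ∈ H := by
      intro a; simpa using hcomm (by decide) (by decide) (by decide) _ _ (k10 a) (m0 1 (by decide : (0 : Fin 3) ≠ 2))
    have k02 : ∀ a : k, el (by decide : (0 : Fin 3) ≠ 2) (C a * X : k[X]) ∈ H := by
      intro a; simpa using hcomm (by decide) (by decide) (by decide) _ _ (k01 a) (m0 1 (by decide : (1 : Fin 3) ≠ 2))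
    intro a i j hij
    fin_cases i <;> fin_cases j <;> first | exact absurd rfl hij | exact k01 a | exact k12 a | exact k20 a | exact k02 a | exact k10 a | exact k21 a
  have mn : ∀ (n : ℕ) (a : k) {i j : Fin 3} (hij : i ≠ j), el hij (C a * X^n : k[X]) ∈ H := by
    intro n
    induction n with
    | zero => intro a i j hij; simpa using m0 a hij
    | succ n ih =>
      intro a i j hij
      obtain ⟨l, hil, hlj⟩ : ∃ l : Fin 3, i ≠ l ∧ l ≠ j := by
        revert i j; decide
      have := hcomm hil hlj hij _ _ (ih a hil) (m1 1 hlj)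
      have e : (C a * X^n : k[X]) * (C 1 * X) = C a * X^(n+1) := by
        rw [C_1, one_mul, pow_succ, mul_assoc]
      rwa [e] at this
  induction r using Polynomial.induction_on' with
  | add p q hp hq => rw [el_add]; exact H.mul_mem hp hq
  | monomial n a => rw [← C_mul_X_pow_eq_monomial]; exact mn n a hij

/-- the elementary group `EL_3(k[X])` -/
noncomputable def Lam (k : Type) [Field k] : Subgroup (SL3 k[X]) :=
  Subgroup.closure {g | ∃ (i j : Fin 3) (h : i ≠ j) (r : k[X]), g = el h r}

lemma el_mem {i j : Fin 3} (h : i ≠ j) (r : k[X]) : el h r ∈ Lam k :=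
  Subgroup.subset_closure ⟨i, j, h, r, rfl⟩

/-- elementary element of `Lam k` -/
noncomputable def ee {i j : Fin 3} (h : i ≠ j) (r : k[X]) : Lam k := ⟨el h r, el_mem h r⟩

/-- root subgroup homomorphism -/
noncomputable def xh {α : Type} [AddCommGroup α] {i j : Fin 3} (h : i ≠ j) (ι : α →+ k[X]) :
    Multiplicative α →* Lam k where
  toFun a := ee h (ι a.toAdd)
  map_one' := by
    apply Subtype.ext
    simp [ee, el_zero]
  map_mul' a b := by
    apply Subtype.ext
    simp [ee, el_add]

lemma xh_apply {α : Type} [AddCommGroup α] {i j : Fin 3} (h : i ≠ j) (ι : α →+ k[X])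
    (a : Multiplicative α) : xh h ι a = ee h (ι a.toAdd) := rfl

lemma ee_comm {i j l : Fin 3} (hij : i ≠ j) (hjl : j ≠ l) (hil : i ≠ l) (a b : k[X]) :
    ee hij a * ee hjl b = ee hil (a * b) * (ee hjl b * ee hij a) :=
  Subtype.ext (el_comm hij hjl hil a b)

lemma ee_comm_left {i j l : Fin 3} (hij : i ≠ j) (hil : i ≠ l) (a b : k[X]) :
    ee hil b * ee hij a = ee hij a * ee hil b := Subtype.ext (el_comm_left hij hil a b)

lemma ee_comm_right {i j l : Fin 3} (hjl : j ≠ l) (hil : i ≠ l) (a b : k[X]) :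
    ee hil b * ee hjl a = ee hjl a * ee hil b := Subtype.ext (el_comm_right hjl hil a b)

lemma ee_neg {i j : Fin 3} (h : i ≠ j) (r : k[X]) : ee h (-r) = (ee h r)⁻¹ :=
  Subtype.ext (el_inv h r).symm

/-- constants -/
noncomputable def ιC (k : Type) [Field k] : k →+ k[X] := (C : k →+* k[X]).toAddMonoidHom

/-- linear polynomials -/
noncomputable def ι2 (k : Type) [Field k] : (k × k) →+ k[X] where
  toFun p := C p.1 + C p.2 * X
  map_zero' := by simp
  map_add' p q := by simp [add_mul]; ring

lemma ιC_apply (a : k) : ιC k a = C a := rfl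
lemma ι2_apply (p : k × k) : ι2 k p = C p.1 + C p.2 * X := rfl

/-- a subgroup of `Lam k` containing the three small root subgroups is everything -/
lemma Lam_gen (H : Subgroup (Lam k))
    (h01 : ∀ a, xh (by decide : (0 : Fin 3) ≠ 1) (ιC k) a ∈ H)
    (h12 : ∀ a, xh (by decide : (1 : Fin 3) ≠ 2) (ιC k) a ∈ H)
    (h20 : ∀ a, xh (by decide : (2 : Fin 3) ≠ 0) (ι2 k) a ∈ H) (g : Lam k) : g ∈ H := by
  have hall : ∀ {i j : Fin 3} (h : i ≠ j) (r : k[X]), el h r ∈ H.map (Lam k).subtype := by
    intro i j h r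
    apply gen_all
    · intro a; exact ⟨_, h01 (Multiplicative.ofAdd a), rfl⟩
    · intro a; exact ⟨_, h12 (Multiplicative.ofAdd a), rfl⟩
    · intro a b; exact ⟨_, h20 (Multiplicative.ofAdd (a, b)), rfl⟩
  have hle : Lam k ≤ H.map (Lam k).subtype := by
    unfold Lam
    rw [Subgroup.closure_le]
    rintro _ ⟨i, j, h, r, rfl⟩
    exact hall h r
  obtain ⟨x, hx, hxg⟩ := hle g.2
  have : x = g := Subtype.ext hxg
  rwa [← this]

end gen
end Pool.Agent.H197R3
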