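import Mathlib
import Pool.Agent.H197R3.EL

set_option autoImplicit false
set_option linter.unusedSectionVars false
set_option linter.unusedSimpArgs false

namespace Pool.Agent.H197R3

open Polynomial

section star

lemma quad_zero {R : Type} [CommRing R] [IsDomain R] (a b c : R) (J : Set R) (hJ : J.Infinite)
    (h : ∀ f ∈ J, a + f * b + f^2 * c = 0) : a = 0 ∧ b = 0 ∧ c = 0 := by
  set p : R[X] := C a + C b * X + C c * X^2 with hp
  have h1 : p = 0 := by
    apply Polynomial.eq_zero_of_infinite_isRoot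
    apply hJ.mono
    intro f hf
    have := h f hf
    show p.eval f = 0
    simp only [hp, eval_add, eval_mul, eval_C, eval_X, eval_pow]
    linear_combination this
  refine ⟨?_, ?_, ?_⟩
  · have := congrArg (fun q => coeff q 0) h1
    simpa [hp, coeff_X, coeff_C] using this
  · have := congrArg (fun q => coeff q 1) h1
    simpa [hp, coeff_X, coeff_C] using this
  · have := congrArg (fun q => coeff q 2) h1
    simpa [hp, coeff_X, coeff_C] using this

lemma single_mul_entry {R : Type} [CommRing R] (M : Matrix (Fin 3) (Fin 3) R) (i j : Fin 3) (c : R)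
    (p q : Fin 3) : (Matrix.single i j c * M) p q = if p = i then c * M j q else 0 := by
  rw [Matrix.mul_apply]
  simp only [Matrix.single_apply]
  by_cases h : i = p
  · subst h; simp
  · have : ¬ p = i := fun h' => h h'.symm
    simp [h, this]

lemma mul_single_entry {R : Type} [CommRing R] (M : Matrix (Fin 3) (Fin 3) R) (i j : Fin 3) (c : R)
    (p q : Fin 3) : (M * Matrix.single i j c) p q = if q = j then M p i * c else 0 := by
  rw [Matrix.mul_apply]
  simp only [Matrix.single_apply]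
  by_cases h : j = q
  · subst h; simp
  · have : ¬ q = j := fun h' => h h'.symm
    simp [h, this]

variable {k : Type} [Field k]

lemma ee_inf (L : Subgroup (Lam k)) (hL : L.index ≠ 0) {i j : Fin 3} (h : i ≠ j) :
    {f : k[X] | ee h f ∈ L}.Infinite := by
  have hfi : L.FiniteIndex := ⟨hL⟩
  have : Finite (Lam k ⧸ L) := Subgroup.finite_quotient_of_finiteIndex
  obtain ⟨y, hy⟩ := Finite.exists_infinite_fiber (fun f : k[X] => (QuotientGroup.mk (ee h f) : Lam k ⧸ L))
  have hne : Nonempty ((fun f : k[X] => (QuotientGroup.mk (ee h f) : Lam k ⧸ L)) ⁻¹' {y}) :=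
    Infinite.nonempty _
  obtain ⟨f₀, hf₀⟩ := hne
  have hinj : Set.InjOn (fun f => f - f₀)
      ((fun f : k[X] => (QuotientGroup.mk (ee h f) : Lam k ⧸ L)) ⁻¹' {y}) := by
    intro a _ b _ hab
    exact sub_left_injective hab
  have hinf := (Set.infinite_coe_iff.1 hy).image hinj
  apply hinf.mono
  rintro _ ⟨f, hf, rfl⟩
  have h1 : (QuotientGroup.mk (ee h f₀) : Lam k ⧸ L) = QuotientGroup.mk (ee h f) := by
    rw [Set.mem_preimage, Set.mem_singleton_iff] at hf hf₀
    rw [hf, hf₀]
  rw [QuotientGroup.eq] at h1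
  have h2 : (ee h f₀)⁻¹ * ee h f = ee h (f - f₀) := by
    rw [← ee_neg]
    apply Subtype.ext
    show el h (-f₀) * el h f = el h (f - f₀)
    rw [← el_add]; congr 1; ring
  rw [h2] at h1
  exact h1

/-- off-diagonal entries vanish -/
lemma star_offdiag (N L : Subgroup (Lam k)) (K : Set (Lam k)) (hL : L.index ≠ 0)
    (hnorm : ∀ x ∈ L, ∀ n ∈ N, x * n * x⁻¹ ∈ N) (hK : K.Finite)
    (hcomm : ∀ n ∈ N, ∀ n' ∈ N, n * n' * n⁻¹ * n'⁻¹ ∈ K) (g : Lam k) (hg : g ∈ N)
    {i j : Fin 3} (h : i ≠ j) : (g.1 : Matrix (Fin 3) (Fin 3) k[X]) j i = 0 := by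
  set I : Set k[X] := {f : k[X] | ee h f ∈ L} with hI
  have hIinf : I.Infinite := ee_inf L hL h
  have hIinf' : Infinite I := hIinf.to_subtype
  let κ : I → K := fun f => ⟨(ee h f.1 * g * (ee h f.1)⁻¹) * g * (ee h f.1 * g * (ee h f.1)⁻¹)⁻¹ * g⁻¹,
    hcomm _ (hnorm _ f.2 _ hg) _ hg⟩
  have : Finite K := hK
  obtain ⟨y, hy⟩ := Finite.exists_infinite_fiber κ
  set J : Set k[X] := Subtype.val '' (κ ⁻¹' {y}) with hJ
  have hJinf : J.Infinite := (Set.infinite_coe_iff.1 hy).image (Subtype.val_injective.injOn)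
  set Mg : Matrix (Fin 3) (Fin 3) k[X] := (g.1 : Matrix (Fin 3) (Fin 3) k[X]) with hMg
  set My : Matrix (Fin 3) (Fin 3) k[X] := (y.1.1 : Matrix (Fin 3) (Fin 3) k[X]) with hMy
  set E : Matrix (Fin 3) (Fin 3) k[X] := Matrix.single i j 1 with hE
  have hid : ∀ f ∈ J, (Mg * Mg - My * Mg * Mg) + f • ((E * Mg - Mg * E) * Mg - My * Mg * (E * Mg - Mg * E))
      + f^2 • (My * Mg * (E * Mg * E) - E * Mg * E * Mg) = 0 := by
    rintro _ ⟨f, hf, rfl⟩
    have h1 : (κ f).1 = y.1 := by
      rw [Set.mem_preimage, Set.mem_singleton_iff] at hf; rw [hf]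
    have h2 : (ee h f.1 * g * (ee h f.1)⁻¹) * g = y.1 * g * (ee h f.1 * g * (ee h f.1)⁻¹) := by
      rw [← h1]
      show _ = (ee h f.1 * g * (ee h f.1)⁻¹) * g * (ee h f.1 * g * (ee h f.1)⁻¹)⁻¹ * g⁻¹ * g *
        (ee h f.1 * g * (ee h f.1)⁻¹)
      group
    rw [← ee_neg] at h2
    have h3 : ((ee h f.1 * g * ee h (-f.1)) * g : Lam k).1.1 =
      (y.1 * g * (ee h f.1 * g * ee h (-f.1)) : Lam k).1.1 := by rw [h2]
    have e1 : ((ee h f.1 * g * ee h (-f.1)) * g : Lam k).1.1 =
      (1 + f.1 • E) * Mg * (1 - f.1 • E) * Mg := by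
      have a1 : (1 + f.1 • E) = (1 + Matrix.single i j f.1 : Matrix (Fin 3) (Fin 3) k[X]) := by
        rw [hE, Matrix.smul_single, smul_eq_mul, mul_one]
      have a2 : (1 - f.1 • E) = (1 + Matrix.single i j (-f.1) : Matrix (Fin 3) (Fin 3) k[X]) := by
        rw [hE, Matrix.smul_single, smul_eq_mul, mul_one, sub_eq_add_neg, ← Matrix.single_neg]
      rw [a1, a2]; rfl
    have e2 : (y.1 * g * (ee h f.1 * g * ee h (-f.1)) : Lam k).1.1 =
      My * Mg * ((1 + f.1 • E) * Mg * (1 - f.1 • E)) := by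
      have a1 : (1 + f.1 • E) = (1 + Matrix.single i j f.1 : Matrix (Fin 3) (Fin 3) k[X]) := by
        rw [hE, Matrix.smul_single, smul_eq_mul, mul_one]
      have a2 : (1 - f.1 • E) = (1 + Matrix.single i j (-f.1) : Matrix (Fin 3) (Fin 3) k[X]) := by
        rw [hE, Matrix.smul_single, smul_eq_mul, mul_one, sub_eq_add_neg, ← Matrix.single_neg]
      rw [a1, a2]; rfl
    rw [e1, e2] at h3
    have h4 := sub_eq_zero.2 h3
    rw [← h4]
    simp only [add_mul, mul_sub, mul_add, sub_mul, one_mul, mul_one, smul_sub, smul_mul_assoc,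
      mul_smul_comm, smul_smul, pow_two, mul_assoc, smul_add]
    abel
  have hcoef : (Mg * Mg - My * Mg * Mg) = 0 ∧ (My * Mg * (E * Mg * E) - E * Mg * E * Mg) = 0 := by
    constructor
    · ext1 p q
      refine (quad_zero _ (((E * Mg - Mg * E) * Mg - My * Mg * (E * Mg - Mg * E)) p q)
        ((My * Mg * (E * Mg * E) - E * Mg * E * Mg) p q) J hJinf ?_).1
      intro f hf
      have := congrArg (fun M => M p q) (hid f hf)
      simpa [Matrix.add_apply, Matrix.smul_apply] using this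
    · ext1 p q
      refine (quad_zero ((Mg * Mg - My * Mg * Mg) p q)
        (((E * Mg - Mg * E) * Mg - My * Mg * (E * Mg - Mg * E)) p q) _ J hJinf ?_).2.2
      intro f hf
      have := congrArg (fun M => M p q) (hid f hf)
      simpa [Matrix.add_apply, Matrix.smul_apply] using this
  obtain ⟨h0, h2⟩ := hcoef
  have hy1 : y.1 = 1 := by
    have h3 : (g * g : Lam k) = y.1 * g * g := by
      apply Subtype.ext; apply Subtype.ext
      exact sub_eq_zero.1 h0
    have h4 : y.1 * (g * g) = 1 * (g * g) := by rw [one_mul, ← mul_assoc]; exact h3.symm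
    exact mul_right_cancel h4
  have hMy1 : My = 1 := by rw [hMy, hy1]; rfl
  rw [hMy1, one_mul] at h2
  have h3 : (Mg * (E * Mg * E)) i i = (E * Mg * E * Mg) i i := by rw [sub_eq_zero.1 h2]
  have l1 : (Mg * (E * Mg * E)) i i = 0 := by
    rw [← mul_assoc, mul_single_entry, if_neg h]
  have l2 : (E * Mg * E * Mg) i i = Mg j i * Mg j i := by
    have : E * Mg * E * Mg = Matrix.single i j 1 * (Mg * (Matrix.single i j 1 * Mg)) := by
      rw [hE]; simp only [mul_assoc]
    rw [this, single_mul_entry, if_pos rfl, one_mul, Matrix.mul_apply]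
    simp only [single_mul_entry]
    simp
  rw [l1, l2] at h3
  exact mul_self_eq_zero.1 h3.symm

lemma star (hk : Nat.card k = 8) (N L : Subgroup (Lam k)) (K : Set (Lam k)) (hL : L.index ≠ 0)
    (hnorm : ∀ x ∈ L, ∀ n ∈ N, x * n * x⁻¹ ∈ N) (hK : K.Finite)
    (hcomm : ∀ n ∈ N, ∀ n' ∈ N, n * n' * n⁻¹ * n'⁻¹ ∈ K) (g : Lam k) (hg : g ∈ N) : g = 1 := by
  have hoff : ∀ g ∈ N, ∀ i j : Fin 3, i ≠ j → (g.1 : Matrix (Fin 3) (Fin 3) k[X]) j i = 0 :=
    fun g hg i j h => star_offdiag N L K hL hnorm hK hcomm g hg h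
  have hdiag : ∀ i j : Fin 3, i ≠ j → (g.1 : Matrix (Fin 3) (Fin 3) k[X]) i i =
      (g.1 : Matrix (Fin 3) (Fin 3) k[X]) j j := by
    intro i j h
    have hinf := ee_inf L hL h
    obtain ⟨f, hf, hf0⟩ := hinf.exists_notMem_finite (Set.finite_singleton (0 : k[X]))
    have hf0' : f ≠ 0 := hf0
    have hn := hnorm _ hf g hg
    set n := ee h f * g * (ee h f)⁻¹ with hn'
    have h1 : n * ee h f = ee h f * g := by rw [hn']; group
    have h2 : (n.1 : Matrix (Fin 3) (Fin 3) k[X]) * (1 + Matrix.single i j f) =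
        (1 + Matrix.single i j f) * (g.1 : Matrix (Fin 3) (Fin 3) k[X]) :=
      congrArg (fun x : Lam k => (x.1 : Matrix (Fin 3) (Fin 3) k[X])) h1
    rw [mul_add, add_mul, mul_one, one_mul] at h2
    have e1 := congrArg (fun M => M i j) h2
    have e2 := congrArg (fun M => M i i) h2
    simp only [Matrix.add_apply, mul_single_entry, single_mul_entry, if_true, if_neg h] at e1 e2
    have o1 : (n.1 : Matrix (Fin 3) (Fin 3) k[X]) i j = 0 := hoff n hn j i h.symm
    have o2 : (g.1 : Matrix (Fin 3) (Fin 3) k[X]) i j = 0 := hoff g hg j i h.symm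
    have o3 : (g.1 : Matrix (Fin 3) (Fin 3) k[X]) j i = 0 := hoff g hg i j h
    rw [o1, o2] at e1
    rw [o3] at e2
    have e3 : f * (n.1 : Matrix (Fin 3) (Fin 3) k[X]) i i = f * (g.1 : Matrix (Fin 3) (Fin 3) k[X]) j j := by
      linear_combination e1
    have e4 := mul_left_cancel₀ hf0' e3
    rw [← e4]
    linear_combination -e2
  set lam := (g.1 : Matrix (Fin 3) (Fin 3) k[X]) 0 0 with hlam
  have d1 : (g.1 : Matrix (Fin 3) (Fin 3) k[X]) 1 1 = lam := hdiag 1 0 (by decide)
  have d2 : (g.1 : Matrix (Fin 3) (Fin 3) k[X]) 2 2 = lam := hdiag 2 0 (by decide)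
  have hdet := g.1.2
  rw [Matrix.det_fin_three] at hdet
  have z01 := hoff g hg 1 0 (by decide)
  have z02 := hoff g hg 2 0 (by decide)
  have z10 := hoff g hg 0 1 (by decide)
  have z12 := hoff g hg 2 1 (by decide)
  have z20 := hoff g hg 0 2 (by decide)
  have z21 := hoff g hg 1 2 (by decide)
  rw [z01, z02, z10, z12, z20, z21, d1, d2, ← hlam] at hdet
  have hcube : lam^3 = 1 := by linear_combination hdet
  have hunit : IsUnit lam := IsUnit.of_pow_eq_one hcube (by norm_num)
  obtain ⟨r, hr, hrl⟩ := Polynomial.isUnit_iff.1 hunit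
  have hr3 : r^3 = 1 := by
    rw [← hrl, ← C_pow, ← C_1] at hcube
    exact C_injective hcube
  have hfin : Finite k := Nat.finite_of_card_ne_zero (by rw [hk]; norm_num)
  have : Fintype k := Fintype.ofFinite k
  have hr7 : r^7 = 1 := by
    have := FiniteField.pow_card_sub_one_eq_one r hr.ne_zero
    rwa [← Nat.card_eq_fintype_card, hk] at this
  have hr1 : r = 1 := by
    calc r = r^7 * ((r^3)^2)⁻¹ := by
          have : r ≠ 0 := hr.ne_zero
          field_simp
      _ = 1 := by rw [hr7, hr3]; simp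
  have hlam1 : lam = 1 := by rw [← hrl, hr1, C_1]
  apply Subtype.ext
  apply Subtype.ext
  ext1 p q
  show (g.1 : Matrix (Fin 3) (Fin 3) k[X]) p q = (1 : Matrix (Fin 3) (Fin 3) k[X]) p q
  fin_cases p <;> fin_cases q
  · simpa [hlam1] using hlam.symm
  · simpa using z01
  · simpa using z02
  · simpa using z10
  · simpa [hlam1] using d1
  · simpa using z12
  · simpa using z20
  · simpa using z21
  · simpa [hlam1] using d2

end star
end Pool.Agent.H197R3
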