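import Mathlib

set_option autoImplicit false
set_option linter.unusedSectionVars false
set_option linter.unusedSimpArgs false

namespace Pool.Agent.H197R3

open scoped InnerProductSpace ComplexConjugate

section center

variable {E : Type} [NormedAddCommGroup E] [InnerProductSpace ℂ E] [CompleteSpace E]
variable {G : Type} [Group G]

/-- Center lemma: a small orbit gives an invariant vector. -/
lemma exists_inv (π : G →* (E →L[ℂ] E)) (hπ : ∀ g, π g ∈ unitary (E →L[ℂ] E))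
    (ξ : E) (r : ℝ) (hr : r < ‖ξ‖) (h : ∀ g, ‖π g ξ - ξ‖ ≤ r) :
    ∃ w : E, w ≠ 0 ∧ ∀ g, π g w = w := by
  let _ : InnerProductSpace ℝ E := InnerProductSpace.complexToReal
  set K : Set E := closure (convexHull ℝ (Set.range fun g => π g ξ)) with hK
  have hKc : Convex ℝ K := (convex_convexHull ℝ _).closure
  have hKcl : IsClosed K := isClosed_closure
  have hne : K.Nonempty := ⟨π 1 ξ, subset_closure (subset_convexHull ℝ _ ⟨1, rfl⟩)⟩
  have hinv : ∀ g, ∀ v ∈ K, π g v ∈ K := by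
    intro g v hv
    have : K ⊆ (π g) ⁻¹' K := by
      apply closure_minimal
      · apply convexHull_min
        · rintro _ ⟨k, rfl⟩
          refine subset_closure (subset_convexHull ℝ _ ⟨g * k, ?_⟩)
          simp [map_mul]
        · intro a ha b hb s t hs ht hst
          simp only [Set.mem_preimage, map_add] at *
          have h1 := hKc ha hb hs ht hst
          convert h1 using 2 <;> simp
      · exact hKcl.preimage (π g).continuous
    exact this hv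
  have hball : K ⊆ Metric.closedBall ξ r := by
    apply closure_minimal
    · apply convexHull_min
      · rintro _ ⟨k, rfl⟩
        rw [Metric.mem_closedBall, dist_eq_norm]
        exact h k
      · exact convex_closedBall ξ r
    · exact Metric.isClosed_closedBall
  obtain ⟨v, hvK, hv⟩ := exists_norm_eq_iInf_of_complete_convex hne hKcl.isComplete hKc (0 : E)
  have hmin : ∀ w ∈ K, ‖v‖ ≤ ‖w‖ := by
    intro w hw
    have h1 : ‖(0:E) - v‖ ≤ ‖(0 : E) - w‖ := by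
      rw [hv]
      exact ciInf_le ⟨0, by rintro _ ⟨y, rfl⟩; exact norm_nonneg _⟩ (⟨w, hw⟩ : K)
    simpa using h1
  refine ⟨v, ?_, ?_⟩
  · rintro rfl
    have := hball hvK
    rw [Metric.mem_closedBall, dist_eq_norm, zero_sub, norm_neg] at this
    linarith
  · intro g
    have h1 := hinv g v hvK
    have h2 : ‖π g v‖ = ‖v‖ := ContinuousLinearMap.norm_map_of_mem_unitary (hπ g) v
    have h3 : (1/2 : ℝ) • (π g v) + (1/2 : ℝ) • v ∈ K :=
      hKc h1 hvK (by norm_num) (by norm_num) (by norm_num)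
    have h4 := hmin _ h3
    rw [← smul_add, norm_smul] at h4
    have h5 : ‖(1/2 : ℝ)‖ = 1/2 := by norm_num
    rw [h5] at h4
    have h6 := parallelogram_law_with_norm ℂ (π g v) v
    have h7 : ‖π g v - v‖ * ‖π g v - v‖ ≤ 0 := by
      rw [h2] at h6
      nlinarith [norm_nonneg v, norm_nonneg (π g v + v)]
    have h8 : ‖π g v - v‖ = 0 := by nlinarith [norm_nonneg (π g v - v)]
    exact sub_eq_zero.1 (norm_eq_zero.1 h8)

end center

section proj
variable {E : Type} [NormedAddCommGroup E] [InnerProductSpace ℂ E] [CompleteSpace E]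

/-- orthogonal projection, in elementary terms -/
structure IsPr (P : E →L[ℂ] E) : Prop where
  idem : ∀ v, P (P v) = P v
  symm : ∀ u v, ⟪P u, v⟫_ℂ = ⟪u, P v⟫_ℂ

lemma IsPr.inner_self {P : E →L[ℂ] E} (h : IsPr P) (v : E) : ⟪v, P v⟫_ℂ = (‖P v‖^2 : ℝ) := by
  have : ⟪v, P v⟫_ℂ = ⟪P v, P v⟫_ℂ := by rw [h.symm, h.idem]
  rw [this, inner_self_eq_norm_sq_to_K]; simp

lemma IsPr.re_inner_self {P : E →L[ℂ] E} (h : IsPr P) (v : E) :
    (⟪v, P v⟫_ℂ).re = ‖P v‖^2 := by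
  rw [h.inner_self]; simp [← Complex.ofReal_pow]

lemma IsPr.re_inner_self' {P : E →L[ℂ] E} (h : IsPr P) (v : E) :
    (⟪P v, v⟫_ℂ).re = ‖P v‖^2 := by
  rw [h.symm]; exact h.re_inner_self v

lemma IsPr.nsub {P : E →L[ℂ] E} (h : IsPr P) (v : E) :
    ‖v - P v‖^2 = ‖v‖^2 - ‖P v‖^2 := by
  have := @norm_sub_sq ℂ E _ _ _ v (P v)
  have h1 := h.re_inner_self v
  simp only [RCLike.re_to_complex] at this
  rw [this, h1]; ring

lemma IsPr.compl {P : E →L[ℂ] E} (h : IsPr P) : IsPr (1 - P) where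
  idem v := by simp [h.idem]
  symm u v := by simp [inner_sub_left, inner_sub_right, h.symm]

lemma IsPr.norm_le {P : E →L[ℂ] E} (h : IsPr P) (v : E) : ‖P v‖ ≤ ‖v‖ := by
  have := h.nsub v
  have h1 : 0 ≤ ‖v - P v‖^2 := by positivity
  exact abs_le_of_sq_le_sq' (by linarith) (norm_nonneg v) |>.2

lemma real_ineq (N a b r ε : ℝ) (ha : 0 ≤ a) (hb : 0 ≤ b) (hN : 0 ≤ N) (hε : 0 ≤ ε) (hε1 : ε ≤ 1)
    (h1 : (a + b)^2 ≤ N * (a + b + 2 * r)) (h2 : |2 * r| ≤ ε * (a + b)) :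
    0 ≤ 2 * (N - a - b + r) + ε * ((N - a) + (N - b)) := by
  have h3 := abs_le.1 h2
  have h4 : 0 ≤ a + b + 2 * r := by nlinarith
  rcases h4.eq_or_lt with h5 | h5
  · rw [← h5] at h1
    have h6 : a + b = 0 := by nlinarith
    have h7 : a = 0 := by linarith
    have h8 : b = 0 := by linarith
    have h9 : r = 0 := by linarith
    subst h7 h8 h9
    nlinarith
  · by_contra hcon
    push Not at hcon
    have h6 : (2 * (N - a - b + r) + ε * ((N - a) + (N - b))) * (a + b + 2 * r) < 0 :=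
      mul_neg_of_neg_of_pos hcon h5
    have h7 : 0 ≤ (ε * (a + b) - 2 * r) * ((a + b) - 2 * r) := by
      apply mul_nonneg
      · linarith
      · nlinarith
    nlinarith

/-- The angle inequality for a Heisenberg pair of projections. -/
lemma angle_ineq {P Q Z : E →L[ℂ] E} (hP : IsPr P) (hQ : IsPr Q) (hZ : IsPr Z)
    (hZP : ∀ v, Z (P v) = P (Z v)) (hZQ : ∀ v, Z (Q v) = Q (Z v))
    (hPQ : ∀ v, P (Q (Z v)) = Q (P (Z v))) (c ε : ℝ) (hε : 0 ≤ ε) (hε1 : ε ≤ 1)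
    (hcε : c ≤ ε^2)
    (hPQP : ∀ v, P (Q (P (v - Z v))) = (c : ℂ) • P (v - Z v)) (v : E) :
    0 ≤ 2 * (⟪v - P v, v - Q v⟫_ℂ).re + ε * (‖v - P v‖^2 + ‖v - Q v‖^2) := by
  set v0 := Z v with hv0
  set w := v - Z v with hw
  have hvw : v = v0 + w := by simp [hv0, hw]
  have hZ0 : Z v0 = v0 := hZ.idem v
  have hZw : Z w = 0 := by simp [hw, hZ.idem]
  have horth : ∀ a b : E, Z a = a → Z b = 0 → ⟪a, b⟫_ℂ = 0 := by
    intro a b ha hb
    rw [← ha, hZ.symm, hb, inner_zero_right]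
  have horth' : ∀ a b : E, Z a = a → Z b = 0 → ⟪b, a⟫_ℂ = 0 := by
    intro a b ha hb
    rw [← ha, ← hZ.symm, hb, inner_zero_left]
  have e1 : v - P v = (v0 - P v0) + (w - P w) := by rw [hvw]; simp; abel
  have e2 : v - Q v = (v0 - Q v0) + (w - Q w) := by rw [hvw]; simp; abel
  have z1 : Z (v0 - P v0) = v0 - P v0 := by simp [hZP, hZ0]
  have z2 : Z (v0 - Q v0) = v0 - Q v0 := by simp [hZQ, hZ0]
  have z3 : Z (w - P w) = 0 := by simp [hZP, hZw]
  have z4 : Z (w - Q w) = 0 := by simp [hZQ, hZw]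
  have i1 : ⟪v - P v, v - Q v⟫_ℂ = ⟪v0 - P v0, v0 - Q v0⟫_ℂ + ⟪w - P w, w - Q w⟫_ℂ := by
    rw [e1, e2, inner_add_left, inner_add_right, inner_add_right,
      horth _ _ z1 z4, horth' _ _ z2 z3]
    ring
  have n1 : ‖v - P v‖^2 = ‖v0 - P v0‖^2 + ‖w - P w‖^2 := by
    rw [e1]
    have := @norm_add_sq ℂ E _ _ _ (v0 - P v0) (w - P w)
    rw [horth _ _ z1 z3] at this
    simpa using this
  have n2 : ‖v - Q v‖^2 = ‖v0 - Q v0‖^2 + ‖w - Q w‖^2 := by
    rw [e2]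
    have := @norm_add_sq ℂ E _ _ _ (v0 - Q v0) (w - Q w)
    rw [horth _ _ z2 z4] at this
    simpa using this
  -- commuting part
  have c1 : 0 ≤ (⟪v0 - P v0, v0 - Q v0⟫_ℂ).re := by
    have hP' := hP.compl
    have hQ' := hQ.compl
    have k1 : ⟪v0 - P v0, v0 - Q v0⟫_ℂ = ⟪v0 - P v0, (1 - Q) (v0 - P v0)⟫_ℂ := by
      have a1 : v0 - P v0 = (1 - P) v0 := by simp
      have a2 : v0 - Q v0 = (1 - Q) v0 := by simp
      have a3 : (1 - P) ((1 - Q) v0) = (1 - Q) ((1 - P) v0) := by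
        have := hPQ v
        rw [← hv0] at this
        simp only [sub_apply, one_apply_eq_self, map_sub] 
        rw [this]; abel
      rw [a1, a2, ← a3, ← hP'.symm, hP'.idem]
    rw [k1]
    have := hQ'.re_inner_self (v0 - P v0)
    rw [this]
    positivity
  -- Heisenberg part
  set p := P w with hp
  set q := Q w with hq
  have hZsub : w - Z w = w := by rw [hZw, sub_zero]
  have f1 : ‖Q (P w)‖^2 = c * ‖P w‖^2 := by
    have := hQ.re_inner_self (P w)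
    rw [← this]
    have h2 : ⟪P w, Q (P w)⟫_ℂ = (c : ℂ) * ⟪P w, P w⟫_ℂ := by
      have h3 := hPQP w
      rw [hZsub] at h3
      calc ⟪P w, Q (P w)⟫_ℂ = ⟪P (P w), Q (P w)⟫_ℂ := by rw [hP.idem]
        _ = ⟪P w, P (Q (P w))⟫_ℂ := hP.symm _ _
        _ = (c : ℂ) * ⟪P w, P w⟫_ℂ := by rw [h3, inner_smul_right]
    rw [h2, inner_self_eq_norm_sq_to_K, Complex.re_ofReal_mul]
    simp [← Complex.ofReal_pow]
  have f2 : ‖Q (P w)‖ ≤ ε * ‖P w‖ := by
    apply abs_le_of_sq_le_sq' _ (by positivity) |>.2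
    rw [f1, mul_pow]
    nlinarith [sq_nonneg ‖P w‖]
  have f3 : |(⟪p, q⟫_ℂ).re| ≤ ε * ‖p‖ * ‖q‖ := by
    have h1 : ⟪p, q⟫_ℂ = ⟪Q p, q⟫_ℂ := by rw [hq, hQ.symm, hQ.idem]
    rw [h1]
    calc |(⟪Q p, q⟫_ℂ).re| ≤ ‖⟪Q p, q⟫_ℂ‖ := Complex.abs_re_le_norm _
      _ ≤ ‖Q p‖ * ‖q‖ := norm_inner_le_norm _ _
      _ ≤ ε * ‖p‖ * ‖q‖ := by gcongr
  have g1 : (⟪w - p, w - q⟫_ℂ).re = ‖w‖^2 - ‖p‖^2 - ‖q‖^2 + (⟪p, q⟫_ℂ).re := by
    simp only [inner_sub_left, inner_sub_right, Complex.sub_re]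
    rw [hp, hq, hP.re_inner_self' w, hQ.re_inner_self w]
    have : (⟪w, w⟫_ℂ).re = ‖w‖^2 := by
      rw [inner_self_eq_norm_sq_to_K]; simp [← Complex.ofReal_pow]
    rw [this]; ring
  have g2 : ‖w - p‖^2 = ‖w‖^2 - ‖p‖^2 := hP.nsub w
  have g3 : ‖w - q‖^2 = ‖w‖^2 - ‖q‖^2 := hQ.nsub w
  have g4 : (‖p‖^2 + ‖q‖^2)^2 ≤ ‖w‖^2 * (‖p‖^2 + ‖q‖^2 + 2 * (⟪p, q⟫_ℂ).re) := by
    have h1 : ‖p + q‖^2 = ‖p‖^2 + ‖q‖^2 + 2 * (⟪p, q⟫_ℂ).re := by
      have := @norm_add_sq ℂ E _ _ _ p q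
      simp only [RCLike.re_to_complex] at this
      rw [this]; ring
    have h2 : (⟪w, p + q⟫_ℂ).re = ‖p‖^2 + ‖q‖^2 := by
      rw [inner_add_right, Complex.add_re, hp, hq, hP.re_inner_self, hQ.re_inner_self]
    have h3 : ‖p‖^2 + ‖q‖^2 ≤ ‖w‖ * ‖p + q‖ := by
      rw [← h2]
      exact (Complex.re_le_norm _).trans (norm_inner_le_norm _ _)
    rw [← h1, ← mul_pow]
    exact pow_le_pow_left₀ (by positivity) h3 2
  have g5 : |2 * (⟪p, q⟫_ℂ).re| ≤ ε * (‖p‖^2 + ‖q‖^2) := by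
    rw [abs_mul, abs_two]
    nlinarith [sq_nonneg (‖p‖ - ‖q‖), f3, norm_nonneg p, norm_nonneg q]
  have g6 := real_ineq (‖w‖^2) (‖p‖^2) (‖q‖^2) (⟪p, q⟫_ℂ).re ε (by positivity) (by positivity)
    (by positivity) hε hε1 g4 g5
  rw [i1, n1, n2, Complex.add_re, g1, g2, g3]
  nlinarith [sq_nonneg ‖v0 - P v0‖, sq_nonneg ‖v0 - Q v0‖]

end proj
end Pool.Agent.H197R3
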