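import Mathlib
import Pool.Agent.H197R3.Kaz

set_option autoImplicit false
set_option linter.unusedSectionVars false
set_option linter.unusedSimpArgs false

namespace Pool.Agent.H197R3

open scoped InnerProductSpace ComplexConjugate
open Filter Topology

section descent
variable {E : Type} [NormedAddCommGroup E] [InnerProductSpace ℂ E] [CompleteSpace E]

/-- energy -/
noncomputable def en (P : Fin 3 → (E →L[ℂ] E)) (v : E) : ℝ := ∑ i, ‖v - P i v‖^2

/-- Laplacian -/
noncomputable def lap (P : Fin 3 → (E →L[ℂ] E)) (v : E) : E := ∑ i, (v - P i v)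

/-- pairwise angle condition with `ε = 2/5` -/
def Pairwise' (P : Fin 3 → (E →L[ℂ] E)) : Prop :=
  ∀ i j, i ≠ j → ∀ v, 0 ≤ 2 * (⟪v - P i v, v - P j v⟫_ℂ).re +
    (2/5) * (‖v - P i v‖^2 + ‖v - P j v‖^2)

variable {P : Fin 3 → (E →L[ℂ] E)}

lemma en_nonneg (v : E) : 0 ≤ en P v := Finset.sum_nonneg fun _ _ => by positivity

lemma lap_sq (hA : Pairwise' P) (v : E) : (1/5) * en P v ≤ ‖lap P v‖^2 := by
  have h01 := hA 0 1 (by decide) v
  have h02 := hA 0 2 (by decide) v
  have h12 := hA 1 2 (by decide) v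
  simp only [en, lap, Fin.sum_univ_three]
  set a := v - P 0 v
  set b := v - P 1 v
  set c := v - P 2 v
  have h1 := @norm_add_sq ℂ E _ _ _ (a + b) c
  have h2 := @norm_add_sq ℂ E _ _ _ a b
  rw [inner_add_left] at h1
  simp only [RCLike.re_to_complex, Complex.add_re, map_add] at h1 h2
  rw [h1, h2]
  nlinarith

lemma en_step (hP : ∀ i, IsPr (P i)) (v : E) :
    en P (v - ((1/3 : ℝ) : ℂ) • lap P v) ≤ en P v - (1/3) * ‖lap P v‖^2 := by
  set L := lap P v with hL
  have key : ∀ i, ‖(v - ((1/3 : ℝ) : ℂ) • L) - P i (v - ((1/3 : ℝ) : ℂ) • L)‖^2 ≤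
      ‖v - P i v‖^2 - (2/3) * (⟪v - P i v, L⟫_ℂ).re + (1/9) * ‖L‖^2 := by
    intro i
    have e1 : (v - ((1/3 : ℝ) : ℂ) • L) - P i (v - ((1/3 : ℝ) : ℂ) • L) =
        (v - P i v) - ((1/3 : ℝ) : ℂ) • (L - P i L) := by
      simp only [map_sub, map_smul, smul_sub]; abel
    have hD := (hP i).compl
    have e2 : ⟪v - P i v, L - P i L⟫_ℂ = ⟪v - P i v, L⟫_ℂ := by
      have a1 : v - P i v = (1 - P i) v := by simp
      have a2 : L - P i L = (1 - P i) L := by simp
      rw [a1, a2, ← hD.symm, hD.idem]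
    have e3 : ‖L - P i L‖ ≤ ‖L‖ := by
      have a2 : L - P i L = (1 - P i) L := by simp
      rw [a2]; exact hD.norm_le L
    rw [e1]
    have h1 := @norm_sub_sq ℂ E _ _ _ (v - P i v) (((1/3 : ℝ) : ℂ) • (L - P i L))
    rw [inner_smul_right, e2, norm_smul] at h1
    simp only [RCLike.re_to_complex, Complex.re_ofReal_mul] at h1
    rw [h1]
    have h2 : ‖((1/3 : ℝ) : ℂ)‖ = 1/3 := by
      rw [Complex.norm_real]; norm_num
    rw [h2]
    nlinarith [norm_nonneg (L - P i L), norm_nonneg L]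
  have hsum : ∑ i, (⟪v - P i v, L⟫_ℂ).re = ‖L‖^2 := by
    have : (⟪lap P v, L⟫_ℂ).re = ‖L‖^2 := by
      rw [← hL, inner_self_eq_norm_sq_to_K]; simp [← Complex.ofReal_pow]
    rw [← this, lap, sum_inner, Complex.re_sum]
  calc en P (v - ((1/3 : ℝ) : ℂ) • L)
      ≤ ∑ i, (‖v - P i v‖^2 - (2/3) * (⟪v - P i v, L⟫_ℂ).re + (1/9) * ‖L‖^2) :=
        Finset.sum_le_sum fun i _ => key i
    _ = en P v - (1/3) * ‖L‖^2 := by
        rw [Finset.sum_add_distrib, Finset.sum_sub_distrib, ← Finset.mul_sum, hsum, en]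
        simp; ring

lemma en_cont : Continuous (en P) := by
  unfold en; fun_prop

lemma lap_le (v : E) : ‖lap P v‖^2 ≤ 3 * en P v := by
  simp only [en, lap, Fin.sum_univ_three]
  set a := v - P 0 v
  set b := v - P 1 v
  set c := v - P 2 v
  have : ‖a + b + c‖ ≤ ‖a‖ + ‖b‖ + ‖c‖ := norm_add₃_le
  have h0 := norm_nonneg (a + b + c)
  nlinarith [sq_nonneg (‖a‖ - ‖b‖), sq_nonneg (‖a‖ - ‖c‖), sq_nonneg (‖b‖ - ‖c‖), norm_nonneg a,
    norm_nonneg b, norm_nonneg c]

/-- the descent sequence -/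
noncomputable def dseq (P : Fin 3 → (E →L[ℂ] E)) (v : E) : ℕ → E
  | 0 => v
  | n + 1 => dseq P v n - ((1/3 : ℝ) : ℂ) • lap P (dseq P v n)

theorem descent (hP : ∀ i, IsPr (P i)) (hA : Pairwise' P) (v : E) :
    ∃ w, (∀ i, P i w = w) ∧ ‖v - w‖ ≤ 30 * √(en P v) := by
  have hen : ∀ n, en P (dseq P v n) ≤ (14/15)^n * en P v := by
    intro n
    induction n with
    | zero => simp [dseq]
    | succ n ih =>
      have h1 := en_step hP (dseq P v n)
      have h2 := lap_sq hA (dseq P v n)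
      simp only [dseq]
      rw [pow_succ]
      nlinarith [en_nonneg (P := P) (dseq P v n)]
  have hsq : ∀ n, √(en P (dseq P v n)) ≤ (29/30)^n * √(en P v) := by
    intro n
    have h1 : (14/15 : ℝ)^n ≤ ((29/30)^n)^2 := by
      rw [← pow_mul, mul_comm n 2, pow_mul]
      exact pow_le_pow_left₀ (by norm_num) (by norm_num) n
    calc √(en P (dseq P v n)) ≤ √(((29/30)^n)^2 * en P v) := by
          apply Real.sqrt_le_sqrt
          exact (hen n).trans (mul_le_mul_of_nonneg_right h1 (en_nonneg v))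
      _ = (29/30)^n * √(en P v) := by
          rw [Real.sqrt_mul (by positivity), Real.sqrt_sq (by positivity)]
  have hstep : ∀ n, dist (dseq P v n) (dseq P v (n+1)) ≤ √(en P v) * (29/30)^n := by
    intro n
    simp only [dseq]
    rw [dist_eq_norm]
    have e : dseq P v n - (dseq P v n - ((1/3 : ℝ) : ℂ) • lap P (dseq P v n)) =
      ((1/3 : ℝ) : ℂ) • lap P (dseq P v n) := by abel
    rw [e, norm_smul, Complex.norm_real]
    have h1 := lap_le (P := P) (dseq P v n)
    have h2 : ‖lap P (dseq P v n)‖ ≤ 3 * √(en P (dseq P v n)) := by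
      apply abs_le_of_sq_le_sq' _ (by positivity) |>.2
      rw [mul_pow, Real.sq_sqrt (en_nonneg _)]
      nlinarith [en_nonneg (P := P) (dseq P v n)]
    have h3 := hsq n
    have h4 : ‖(1/3 : ℝ)‖ = 1/3 := by norm_num
    rw [h4]
    nlinarith
  have hc : CauchySeq (dseq P v) := cauchySeq_of_le_geometric (29/30) (√(en P v)) (by norm_num) hstep
  obtain ⟨w, hw⟩ := cauchySeq_tendsto_of_complete hc
  have hdist := dist_le_of_le_geometric_of_tendsto₀ (29/30) (√(en P v)) (by norm_num) hstep hw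
  have hzero : en P w = 0 := by
    have h1 : Tendsto (fun n => en P (dseq P v n)) atTop (𝓝 (en P w)) :=
      (en_cont.tendsto w).comp hw
    have h2 : Tendsto (fun n => (14/15 : ℝ)^n * en P v) atTop (𝓝 (0 * en P v)) :=
      (tendsto_pow_atTop_nhds_zero_of_lt_one (by norm_num) (by norm_num)).mul_const _
    rw [zero_mul] at h2
    exact le_antisymm (le_of_tendsto_of_tendsto' h1 h2 hen) (en_nonneg w)
  refine ⟨w, ?_, ?_⟩
  · intro i
    have h1 := (Finset.sum_eq_zero_iff_of_nonneg (fun i _ => by positivity)).1 hzero i (Finset.mem_univ i)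
    have h2 : ‖w - P i w‖ = 0 := by simpa using h1
    exact (sub_eq_zero.1 (norm_eq_zero.1 h2)).symm
  · rw [← dist_eq_norm]
    simp only [dseq] at hdist
    calc dist v w ≤ √(en P v) / (1 - 29/30) := hdist
      _ = 30 * √(en P v) := by ring

end descent

section avg
variable {E : Type} [NormedAddCommGroup E] [InnerProductSpace ℂ E] [CompleteSpace E]
variable {G : Type} [Group G]
variable (π : G →* (E →L[ℂ] E))

lemma π_mul (g h : G) (v : E) : π (g * h) v = π g (π h v) := by
  rw [map_mul]; rfl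

lemma π_one (v : E) : π 1 v = v := by
  rw [map_one]; rfl

/-- averaging operator over the image of a finite group -/
noncomputable def av {X : Type} [Group X] [Fintype X] (x : X →* G) : E →L[ℂ] E :=
  ((Fintype.card X : ℂ))⁻¹ • ∑ a : X, π (x a)

variable {X : Type} [Group X] [Fintype X] (x : X →* G)

lemma av_apply (v : E) : av π x v = ((Fintype.card X : ℂ))⁻¹ • ∑ a : X, π (x a) v := by
  simp [av]

lemma π_av (a : X) (v : E) : π (x a) (av π x v) = av π x v := by
  rw [av_apply, map_smul, map_sum]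
  congr 1
  rw [← Equiv.sum_comp (Equiv.mulLeft a) (fun b => π (x b) v)]
  apply Finset.sum_congr rfl
  intro b _
  rw [Equiv.coe_mulLeft, map_mul, π_mul]

lemma av_π (a : X) (v : E) : av π x (π (x a) v) = av π x v := by
  rw [av_apply, av_apply]
  congr 1
  rw [← Equiv.sum_comp (Equiv.mulRight a) (fun b => π (x b) v)]
  apply Finset.sum_congr rfl
  intro b _
  rw [Equiv.coe_mulRight, map_mul, π_mul]

lemma av_of_inv (v : E) (h : ∀ a, π (x a) v = v) : av π x v = v := by
  rw [av_apply]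
  simp only [h]
  rw [Finset.sum_const, Finset.card_univ, ← Nat.cast_smul_eq_nsmul ℂ, smul_smul,
    inv_mul_cancel₀ (by simp [Fintype.card_ne_zero]), one_smul]

lemma av_fix_iff (v : E) : av π x v = v ↔ ∀ a, π (x a) v = v := by
  constructor
  · intro h a; rw [← h]; exact π_av π x a v
  · exact av_of_inv π x v

lemma av_comm {Y : Type} [Group Y] [Fintype Y] (y : Y →* G) (u : E)
    (h : ∀ a b, π (x a) (π (y b) u) = π (y b) (π (x a) u)) :
    av π x (av π y u) = av π y (av π x u) := by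
  simp only [av_apply, map_smul, map_sum, ← Finset.smul_sum]
  rw [smul_comm, Finset.sum_comm]
  congr 2
  apply Finset.sum_congr rfl; intro a _
  apply Finset.sum_congr rfl; intro k _
  exact h _ _

lemma av_π_comm (g : G) (u : E)
    (h : ∀ a, π (x a) (π g u) = π g (π (x a) u)) :
    av π x (π g u) = π g (av π x u) := by
  simp only [av_apply, map_smul, map_sum, h]

variable (hπ : ∀ g, π g ∈ unitary (E →L[ℂ] E))
include hπ

lemma inner_π (g : G) (u v : E) : ⟪π g u, v⟫_ℂ = ⟪u, π g⁻¹ v⟫_ℂ := by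
  have h1 : v = π g (π g⁻¹ v) := by
    rw [← π_mul, mul_inv_cancel, π_one]
  conv_lhs => rw [h1]
  exact ContinuousLinearMap.inner_map_map_of_mem_unitary (hπ g) _ _

lemma norm_π (g : G) (v : E) : ‖π g v‖ = ‖v‖ :=
  ContinuousLinearMap.norm_map_of_mem_unitary (hπ g) v

lemma av_isPr : IsPr (av π x) where
  idem v := av_of_inv π x _ (fun a => π_av π x a v)
  symm u v := by
    rw [av_apply, av_apply, inner_smul_left, inner_smul_right, sum_inner, inner_sum]
    simp only [map_inv₀, Complex.conj_natCast]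
    congr 1
    rw [← Equiv.sum_comp (Equiv.inv X)]
    apply Finset.sum_congr rfl
    intro b _
    rw [inner_π π hπ]
    simp

lemma av_sub_le (v : E) (δ : ℝ) (h : ∀ a, ‖π (x a) v - v‖ ≤ δ) : ‖v - av π x v‖ ≤ δ := by
  have hc : (Fintype.card X : ℂ) ≠ 0 := by simp [Fintype.card_ne_zero]
  have e : v - av π x v = ((Fintype.card X : ℂ))⁻¹ • ∑ a : X, (v - π (x a) v) := by
    rw [Finset.sum_sub_distrib, smul_sub, ← av_apply, Finset.sum_const, Finset.card_univ,
      ← Nat.cast_smul_eq_nsmul ℂ, smul_smul, inv_mul_cancel₀ hc, one_smul]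
  rw [e, norm_smul, norm_inv, Complex.norm_natCast]
  have h1 : ‖∑ a : X, (v - π (x a) v)‖ ≤ (Fintype.card X : ℝ) * δ := by
    calc ‖∑ a : X, (v - π (x a) v)‖ ≤ ∑ a : X, ‖v - π (x a) v‖ := norm_sum_le _ _
      _ ≤ ∑ a : X, δ := Finset.sum_le_sum (fun a _ => by rw [norm_sub_rev]; exact h a)
      _ = (Fintype.card X : ℝ) * δ := by simp
  have hpos : (0 : ℝ) < Fintype.card X := by exact_mod_cast Fintype.card_pos
  rw [inv_mul_le_iff₀ hpos]
  exact h1

end avg

section heis
variable {E : Type} [NormedAddCommGroup E] [InnerProductSpace ℂ E] [CompleteSpace E]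
variable {G : Type} [Group G]
variable (π : G →* (E →L[ℂ] E))
variable {X Y Z : Type} [Group X] [Fintype X] [Group Y] [Fintype Y] [Group Z] [Fintype Z]

/-- Heisenberg pair: angle inequality -/
lemma heis_ineq (hπ : ∀ g, π g ∈ unitary (E →L[ℂ] E)) (x : X →* G) (y : Y →* G) (z : Z →* G)
    (c : X → Y → Z) (hcomm : ∀ a b, x a * y b = z (c a b) * (y b * x a))
    (hzx : ∀ k a, z k * x a = x a * z k) (hzy : ∀ k b, z k * y b = y b * z k)
    (hbij : ∀ b, b ≠ 1 → Function.Bijective (fun a => c a b)) (hcard : 7 ≤ Fintype.card Y) (v : E) :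
    0 ≤ 2 * (⟪v - av π x v, v - av π y v⟫_ℂ).re +
      (2/5) * (‖v - av π x v‖^2 + ‖v - av π y v‖^2) := by
  have hZP : ∀ v, av π z (av π x v) = av π x (av π z v) := by
    intro v
    apply av_comm
    intro a b
    rw [← π_mul, ← π_mul, hzx]
  have hZQ : ∀ v, av π z (av π y v) = av π y (av π z v) := by
    intro v
    apply av_comm
    intro a b
    rw [← π_mul, ← π_mul, hzy]
  have hPQ : ∀ v, av π x (av π y (av π z v)) = av π y (av π x (av π z v)) := by
    intro v
    set u := av π z v with hu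
    apply av_comm
    intro a b
    have h1 : x a * y b = (y b * x a) * z (c a b) := by
      rw [hcomm, ← mul_assoc, hzy, mul_assoc, hzx, mul_assoc]
    rw [← π_mul, ← π_mul, h1, π_mul, hu, π_av]
  have hcY : (Fintype.card Y : ℂ) ≠ 0 := by simp [Fintype.card_ne_zero]
  have hcX : (Fintype.card X : ℂ) ≠ 0 := by simp [Fintype.card_ne_zero]
  -- key: for b ≠ 1 : P y_b P u = Z (y_b (P u))
  have hkey : ∀ b, b ≠ 1 → ∀ u, av π x (π (y b) (av π x u)) = av π z (π (y b) (av π x u)) := by
    intro b hb u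
    have hXZ : Fintype.card X = Fintype.card Z := Fintype.card_of_bijective (hbij b hb)
    rw [av_apply π x (π (y b) (av π x u)), av_apply π z (π (y b) (av π x u)), hXZ]
    congr 1
    rw [← Function.Bijective.sum_comp (hbij b hb) (fun k => π (z k) (π (y b) (av π x u)))]
    apply Finset.sum_congr rfl; intro a _
    rw [← π_mul, hcomm, π_mul, π_mul, π_av]
  have hPQP : ∀ v, av π x (av π y (av π x (v - av π z v))) =
      (((Fintype.card Y : ℝ)⁻¹ : ℝ) : ℂ) • av π x (v - av π z v) := by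
    intro v
    set w := v - av π z v with hw
    have hZw : av π z w = 0 := by
      rw [hw, map_sub, (av_isPr π z hπ).idem, sub_self]
    rw [av_apply π y, map_smul, map_sum]
    have : ((((Fintype.card Y : ℝ)⁻¹ : ℝ)) : ℂ) = (Fintype.card Y : ℂ)⁻¹ := by push_cast; rfl
    rw [this]
    congr 1
    rw [Finset.sum_eq_single (1 : Y)]
    · rw [map_one, π_one]
      exact (av_isPr π x hπ).idem w
    · intro b _ hb
      rw [hkey b hb]
      have h2 : av π z (π (y b) (av π x w)) = π (y b) (av π z (av π x w)) := by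
        apply av_π_comm
        intro k
        rw [← π_mul, ← π_mul, hzy]
      rw [h2, hZP, hZw, map_zero, map_zero]
    · intro h; exact absurd (Finset.mem_univ _) h
  have hcard' : (7 : ℝ) ≤ Fintype.card Y := by exact_mod_cast hcard
  refine angle_ineq (av_isPr π x hπ) (av_isPr π y hπ) (av_isPr π z hπ) hZP hZQ hPQ
    ((Fintype.card Y : ℝ)⁻¹) (2/5) (by norm_num) (by norm_num) ?_ hPQP v
  calc ((Fintype.card Y : ℝ)⁻¹) ≤ (7 : ℝ)⁻¹ := inv_anti₀ (by norm_num) hcard'
    _ ≤ (2/5)^2 := by norm_num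

end heis

end Pool.Agent.H197R3
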