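import Mathlib
import Pool.Agent.H197R3.Kaz2

set_option autoImplicit false
set_option linter.unusedSectionVars false
set_option linter.unusedSimpArgs false

namespace Pool.Agent.H197R3

open scoped InnerProductSpace ComplexConjugate
open Filter Topology

section biadd
variable {E : Type} [NormedAddCommGroup E] [InnerProductSpace ℂ E] [CompleteSpace E]
variable {G : Type} [Group G]
variable (π : G →* (E →L[ℂ] E))

lemma four_norm (hπ : ∀ g, π g ∈ unitary (E →L[ℂ] E)) (g h : G) (hgh : g * h = h * g)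
    (hg : g * g = 1) (y : E) :
    ‖y + π g y + π h y - π h (π g y)‖ = 2 * ‖y‖ := by
  set u := y + π g y with hu
  set w := y - π g y with hw
  have e1 : y + π g y + π h y - π h (π g y) = u + π h w := by
    rw [hu, hw, map_sub]; abel
  have pu : π g u = u := by
    rw [hu, map_add, ← π_mul, hg, π_one, add_comm]
  have pw : π g (π h w) = -(π h w) := by
    rw [← π_mul, hgh, π_mul, hw, map_sub, ← π_mul, hg, π_one, ← map_neg, neg_sub]
  have horth : ⟪u, π h w⟫_ℂ = 0 := by
    have h1 : ⟪π g u, π g (π h w)⟫_ℂ = ⟪u, π h w⟫_ℂ :=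
      ContinuousLinearMap.inner_map_map_of_mem_unitary (hπ g) _ _
    rw [pu, pw, inner_neg_right] at h1
    have h2 : (2 : ℂ) * ⟪u, π h w⟫_ℂ = 0 := by linear_combination -h1
    simpa using h2
  have h1 := @norm_add_sq ℂ E _ _ _ u (π h w)
  rw [horth] at h1
  simp only [map_zero, mul_zero, add_zero] at h1
  rw [norm_π π hπ] at h1
  have h2 := parallelogram_law_with_norm ℂ y (π g y)
  rw [norm_π π hπ, ← hu, ← hw] at h2
  rw [e1]
  have h3 : ‖u + π h w‖^2 = (2 * ‖y‖)^2 := by rw [h1]; nlinarith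
  exact (sq_eq_sq₀ (norm_nonneg _) (by positivity)).1 h3

variable {F : Type} [AddCommGroup F] [Fintype F]

/-- a commuting bi-additive family, in characteristic two -/
structure BiAdd (z : F → F → G) : Prop where
  two : ∀ a : F, a + a = 0
  addl : ∀ a a' b, z (a + a') b = z a b * z a' b
  addr : ∀ a b b', z a (b + b') = z a b * z a b'
  comm : ∀ a b a' b', z a b * z a' b' = z a' b' * z a b

omit [Fintype F] in
lemma BiAdd.sq {z : F → F → G} (hz : BiAdd z) (a b : F) : z a b * z a b = 1 := by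
  have h0 : z 0 b = 1 := by
    have := hz.addl 0 0 b
    rw [add_zero] at this
    exact (mul_eq_left.1 this.symm)
  rw [← hz.addl, hz.two, h0]

/-- averaging over all pairs -/
noncomputable def TT (z : F → F → G) : E →L[ℂ] E :=
  (((Fintype.card F : ℂ))^2)⁻¹ • ∑ a : F, ∑ b : F, π (z a b)

lemma TT_apply (z : F → F → G) (v : E) :
    TT π z v = (((Fintype.card F : ℂ))^2)⁻¹ • ∑ a : F, ∑ b : F, π (z a b) v := by
  simp [TT]

lemma TT_half (hπ : ∀ g, π g ∈ unitary (E →L[ℂ] E)) {z : F → F → G} (hz : BiAdd z)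
    (c d : F) (y : E) (hy : π (z c d) y = -y) : ‖TT π z y‖ ≤ (1/2) * ‖y‖ := by
  rw [TT_apply]
  set S := ∑ a : F, ∑ b : F, π (z a b) y with hS
  have s1 : ∑ a : F, ∑ b : F, π (z (a + c) b) y = S :=
    Equiv.sum_comp (Equiv.addRight c) (fun a => ∑ b : F, π (z a b) y)
  have s2 : ∑ a : F, ∑ b : F, π (z a (b + d)) y = S := by
    apply Finset.sum_congr rfl; intro a _
    exact Equiv.sum_comp (Equiv.addRight d) (fun b => π (z a b) y)
  have s3 : ∑ a : F, ∑ b : F, π (z (a + c) (b + d)) y = S := by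
    rw [← s1]
    apply Finset.sum_congr rfl; intro a _
    exact Equiv.sum_comp (Equiv.addRight d) (fun b => π (z (a + c) b) y)
  have e4 : (4 : ℂ) • S = ∑ a : F, ∑ b : F, π (z a b)
      (y + π (z c b) y + π (z a d) y - π (z a d) (π (z c b) y)) := by
    have : (4 : ℂ) • S = S + ∑ a : F, ∑ b : F, π (z (a + c) b) y +
        ∑ a : F, ∑ b : F, π (z a (b + d)) y + ∑ a : F, ∑ b : F, π (z (a + c) (b + d)) y := by
      rw [s1, s2, s3]; module
    rw [this, hS, ← Finset.sum_add_distrib, ← Finset.sum_add_distrib, ← Finset.sum_add_distrib]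
    apply Finset.sum_congr rfl; intro a _
    rw [← Finset.sum_add_distrib, ← Finset.sum_add_distrib, ← Finset.sum_add_distrib]
    apply Finset.sum_congr rfl; intro b _
    rw [map_sub, map_add, map_add]
    have t1 : π (z (a + c) b) y = π (z a b) (π (z c b) y) := by rw [hz.addl, π_mul]
    have t2 : π (z a (b + d)) y = π (z a b) (π (z a d) y) := by rw [hz.addr, π_mul]
    have t3 : π (z (a + c) (b + d)) y = - π (z a b) (π (z a d) (π (z c b) y)) := by
      have : z (a + c) (b + d) = z a b * (z a d * (z c b * z c d)) := by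
        rw [hz.addr, hz.addl, hz.addl, mul_assoc, ← mul_assoc (z c b), hz.comm c b a d, mul_assoc]
      rw [this, π_mul, π_mul, π_mul, hy, map_neg, map_neg, map_neg]
    rw [t1, t2, t3]; abel
  have hcard : (0 : ℝ) < (Fintype.card F : ℝ) := by exact_mod_cast Fintype.card_pos
  have n4 : 4 * ‖S‖ ≤ (Fintype.card F : ℝ)^2 * (2 * ‖y‖) := by
    calc 4 * ‖S‖ = ‖(4 : ℂ) • S‖ := by rw [norm_smul]; norm_num
      _ ≤ ∑ a : F, ∑ b : F, 2 * ‖y‖ := by
          rw [e4]
          refine (norm_sum_le _ _).trans (Finset.sum_le_sum fun a _ => ?_)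
          refine (norm_sum_le _ _).trans (Finset.sum_le_sum fun b _ => ?_)
          rw [norm_π π hπ, four_norm π hπ (z c b) (z a d) (hz.comm _ _ _ _) (hz.sq _ _)]
      _ = (Fintype.card F : ℝ)^2 * (2 * ‖y‖) := by
          simp [Finset.sum_const, Finset.card_univ]; ring
  rw [norm_smul, norm_inv, norm_pow, Complex.norm_natCast, inv_mul_le_iff₀ (by positivity)]
  linarith

lemma TT_comm {z : F → F → G} (hz : BiAdd z) (c d : F) (v : E) :
    π (z c d) (TT π z v) = TT π z (π (z c d) v) := by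
  rw [TT_apply, TT_apply, map_smul, map_sum]
  congr 1
  apply Finset.sum_congr rfl; intro a _
  rw [map_sum]
  apply Finset.sum_congr rfl; intro b _
  rw [← π_mul, ← π_mul, hz.comm]

lemma TT_sub_le (z : F → F → G) (v : E) (η : ℝ) (h : ∀ a b, ‖π (z a b) v - v‖ ≤ η) :
    ‖TT π z v - v‖ ≤ η := by
  have hc : (Fintype.card F : ℂ) ≠ 0 := by simp [Fintype.card_ne_zero]
  have e : TT π z v - v = (((Fintype.card F : ℂ))^2)⁻¹ • ∑ a : F, ∑ b : F, (π (z a b) v - v) := by
    simp only [Finset.sum_sub_distrib, smul_sub, ← TT_apply, Finset.sum_const, Finset.card_univ,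
      ← Nat.cast_smul_eq_nsmul ℂ, smul_smul]
    congr 1
    rw [pow_two, mul_inv, mul_assoc, ← mul_assoc (Fintype.card F : ℂ)⁻¹ (Fintype.card F : ℂ),
      inv_mul_cancel₀ hc, one_mul, inv_mul_cancel₀ hc, one_smul]
  have hpos : (0 : ℝ) < Fintype.card F := by exact_mod_cast Fintype.card_pos
  rw [e, norm_smul, norm_inv, norm_pow, Complex.norm_natCast, inv_mul_le_iff₀ (by positivity)]
  calc ‖∑ a : F, ∑ b : F, (π (z a b) v - v)‖ ≤ ∑ a : F, ∑ b : F, η := by
        refine (norm_sum_le _ _).trans (Finset.sum_le_sum fun a _ => ?_)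
        exact (norm_sum_le _ _).trans (Finset.sum_le_sum fun b _ => h a b)
    _ = (Fintype.card F : ℝ)^2 * η := by
        simp [Finset.sum_const, Finset.card_univ]; ring

/-- iterates of the averaging operator -/
noncomputable def iter (z : F → F → G) (ξ : E) : ℕ → E
  | 0 => ξ
  | n + 1 => TT π z (iter z ξ n)

lemma iter_bound (hπ : ∀ g, π g ∈ unitary (E →L[ℂ] E)) {z : F → F → G} (hz : BiAdd z)
    (ξ : E) (δ : ℝ) (h : ∀ a b, ‖π (z a b) ξ - ξ‖ ≤ δ) (n : ℕ) :
    (∀ c d, ‖π (z c d) (iter π z ξ n) - iter π z ξ n‖ ≤ δ * (1/2)^n) ∧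
    ‖iter π z ξ n - ξ‖ ≤ 2 * δ * (1 - (1/2)^n) := by
  induction n with
  | zero => simpa [iter] using h
  | succ n ih =>
    obtain ⟨ih1, ih2⟩ := ih
    set w := iter π z ξ n with hw
    constructor
    · intro c d
      simp only [iter]
      rw [TT_comm π hz, ← map_sub]
      set y := π (z c d) w - w with hy
      have hy1 : π (z c d) y = - y := by
        rw [hy, map_sub, ← π_mul, hz.sq, π_one, neg_sub]
      have h1 := TT_half π hπ hz c d y hy1
      have h2 := ih1 c d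
      rw [pow_succ]
      calc ‖TT π z y‖ ≤ (1/2) * ‖y‖ := h1
        _ ≤ (1/2) * (δ * (1/2)^n) := by gcongr
        _ = δ * ((1/2)^n * (1/2)) := by ring
    · simp only [iter]
      have h1 := TT_sub_le π z w _ ih1
      calc ‖TT π z w - ξ‖ = ‖(TT π z w - w) + (w - ξ)‖ := by congr 1; abel
        _ ≤ ‖TT π z w - w‖ + ‖w - ξ‖ := norm_add_le _ _
        _ ≤ δ * (1/2)^n + 2 * δ * (1 - (1/2)^n) := add_le_add h1 ih2
        _ = 2 * δ * (1 - (1/2)^(n+1)) := by rw [pow_succ]; ring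

/-- Key lemma: bounded displacement on the generated group. -/
theorem key_bound (hπ : ∀ g, π g ∈ unitary (E →L[ℂ] E)) {z : F → F → G} (hz : BiAdd z)
    (ξ : E) (δ : ℝ) (h : ∀ a b, ‖π (z a b) ξ - ξ‖ ≤ δ) (s : G)
    (hs : s ∈ Subgroup.closure (Set.range (fun p : F × F => z p.1 p.2))) :
    ‖π s ξ - ξ‖ ≤ 4 * δ := by
  have hk : ∃ k : ℕ, ∀ (w : E) (η : ℝ), (∀ a b, ‖π (z a b) w - w‖ ≤ η) → ‖π s w - w‖ ≤ k * η := by
    induction hs using Subgroup.closure_induction with
    | mem x hx =>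
      obtain ⟨⟨a, b⟩, rfl⟩ := hx
      exact ⟨1, fun w η h => by simpa using h a b⟩
    | one => exact ⟨0, fun w η h => by simp⟩
    | mul x y _ _ hx hy =>
      obtain ⟨k1, hk1⟩ := hx
      obtain ⟨k2, hk2⟩ := hy
      refine ⟨k1 + k2, fun w η h => ?_⟩
      rw [π_mul]
      have e : π x (π y w) - w = π x (π y w - w) + (π x w - w) := by rw [map_sub]; abel
      rw [e]
      calc ‖π x (π y w - w) + (π x w - w)‖ ≤ ‖π x (π y w - w)‖ + ‖π x w - w‖ := norm_add_le _ _
        _ = ‖π y w - w‖ + ‖π x w - w‖ := by rw [norm_π π hπ]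
        _ ≤ k2 * η + k1 * η := add_le_add (hk2 w η h) (hk1 w η h)
        _ = ((k1 + k2 : ℕ) : ℝ) * η := by push_cast; ring
    | inv x _ hx =>
      obtain ⟨k, hk⟩ := hx
      refine ⟨k, fun w η h => ?_⟩
      have e : π x⁻¹ w - w = - π x⁻¹ (π x w - w) := by
        rw [map_sub, ← π_mul, inv_mul_cancel, π_one]; abel
      rw [e, norm_neg, norm_π π hπ]
      exact hk w η h
  obtain ⟨k, hk⟩ := hk
  have hlim : Tendsto (fun n : ℕ => (k : ℝ) * (δ * (1/2)^n) + 4 * δ) atTop
      (𝓝 ((k : ℝ) * (δ * 0) + 4 * δ)) := by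
    apply Tendsto.add_const
    apply Tendsto.const_mul
    apply Tendsto.const_mul
    exact tendsto_pow_atTop_nhds_zero_of_lt_one (by norm_num) (by norm_num)
  have hδ : 0 ≤ δ := (norm_nonneg _).trans (h 0 0)
  have hb : ∀ n : ℕ, ‖π s ξ - ξ‖ ≤ (k : ℝ) * (δ * (1/2)^n) + 4 * δ := by
    intro n
    obtain ⟨h1, h2⟩ := iter_bound π hπ hz ξ δ h n
    set w := iter π z ξ n
    have h3 := hk w _ h1
    have h4 : ‖w - ξ‖ ≤ 2 * δ := by
      refine h2.trans ?_
      have : (0 : ℝ) ≤ (1/2)^n := by positivity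
      nlinarith
    have e : π s ξ - ξ = - π s (w - ξ) + (π s w - w) + (w - ξ) := by rw [map_sub]; abel
    rw [e]
    calc ‖- π s (w - ξ) + (π s w - w) + (w - ξ)‖
        ≤ ‖- π s (w - ξ)‖ + ‖π s w - w‖ + ‖w - ξ‖ := norm_add₃_le
      _ = ‖w - ξ‖ + ‖π s w - w‖ + ‖w - ξ‖ := by rw [norm_neg, norm_π π hπ]
      _ ≤ 2 * δ + k * (δ * (1/2)^n) + 2 * δ := by gcongr
      _ = (k : ℝ) * (δ * (1/2)^n) + 4 * δ := by ring
  have := ge_of_tendsto' hlim hb
  simpa using this

end biadd
end Pool.Agent.H197R3
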