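import Mathlib
import Pool.Agent.H197R3.EL
import Pool.Agent.H197R3.Kaz3

set_option autoImplicit false
set_option linter.unusedSectionVars false
set_option linter.unusedSimpArgs false

namespace Pool.Agent.H197R3

open scoped InnerProductSpace ComplexConjugate
open Polynomial

section lam
variable {k : Type} [Field k] [Fintype k]
variable {E : Type} [NormedAddCommGroup E] [InnerProductSpace ℂ E] [CompleteSpace E]

lemma d01 : (0 : Fin 3) ≠ 1 := by decide
lemma d12 : (1 : Fin 3) ≠ 2 := by decide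
lemma d20 : (2 : Fin 3) ≠ 0 := by decide
lemma d02 : (0 : Fin 3) ≠ 2 := by decide
lemma d10 : (1 : Fin 3) ≠ 0 := by decide
lemma d21 : (2 : Fin 3) ≠ 1 := by decide

/-- the three projections -/
noncomputable def PP (σ : Lam k →* (E →L[ℂ] E)) : Fin 3 → (E →L[ℂ] E) :=
  ![av σ (xh d01 (ιC k)), av σ (xh d12 (ιC k)), av σ (xh d20 (ι2 k))]

lemma PP_pair (σ : Lam k →* (E →L[ℂ] E)) (hσ : ∀ g, σ g ∈ unitary (E →L[ℂ] E))
    (hk : 7 ≤ Fintype.card k) : Pairwise' (PP σ) := by
  have hk' : 7 ≤ Fintype.card (Multiplicative k) := by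
    rw [Fintype.card_multiplicative]; exact hk
  have p01 : ∀ v, 0 ≤ 2 * (⟪v - av σ (xh d01 (ιC k)) v, v - av σ (xh d12 (ιC k)) v⟫_ℂ).re +
      (2/5) * (‖v - av σ (xh d01 (ιC k)) v‖^2 + ‖v - av σ (xh d12 (ιC k)) v‖^2) := by
    intro v
    refine heis_ineq σ hσ (xh d01 (ιC k)) (xh d12 (ιC k)) (xh d02 (ιC k))
      (fun a b => Multiplicative.ofAdd (a.toAdd * b.toAdd)) ?_ ?_ ?_ ?_ hk' v
    · intro a b
      simp only [xh_apply, ιC_apply, toAdd_ofAdd, map_mul]
      exact ee_comm d01 d12 d02 _ _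
    · intro a b; exact ee_comm_left d01 d02 _ _
    · intro a b; exact ee_comm_right d12 d02 _ _
    · intro b hb
      have hb' : b.toAdd ≠ 0 := fun h => hb (by rw [← toAdd_eq_zero]; exact h)
      rw [← Finite.injective_iff_bijective]
      intro a a' h
      have h1 : a.toAdd * b.toAdd = a'.toAdd * b.toAdd := Multiplicative.ofAdd.injective h
      exact Multiplicative.toAdd.injective (mul_right_cancel₀ hb' h1)
  have p20 : ∀ v, 0 ≤ 2 * (⟪v - av σ (xh d20 (ι2 k)) v, v - av σ (xh d01 (ιC k)) v⟫_ℂ).re +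
      (2/5) * (‖v - av σ (xh d20 (ι2 k)) v‖^2 + ‖v - av σ (xh d01 (ιC k)) v‖^2) := by
    intro v
    refine heis_ineq σ hσ (xh d20 (ι2 k)) (xh d01 (ιC k)) (xh d21 (ι2 k))
      (fun a b => Multiplicative.ofAdd (a.toAdd.1 * b.toAdd, a.toAdd.2 * b.toAdd)) ?_ ?_ ?_ ?_ hk' v
    · intro a b
      simp only [xh_apply, ιC_apply, ι2_apply, toAdd_ofAdd, map_mul]
      have := ee_comm d20 d01 d21 (C a.toAdd.1 + C a.toAdd.2 * X) (C b.toAdd)
      rw [this]; congr 2; ring
    · intro a b; exact ee_comm_left d20 d21 _ _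
    · intro a b; exact ee_comm_right d01 d21 _ _
    · intro b hb
      have hb' : b.toAdd ≠ 0 := fun h => hb (by rw [← toAdd_eq_zero]; exact h)
      rw [← Finite.injective_iff_bijective]
      intro a a' h
      have h1 := Multiplicative.ofAdd.injective h
      rw [Prod.mk.injEq] at h1
      exact Multiplicative.toAdd.injective
        (Prod.ext (mul_right_cancel₀ hb' h1.1) (mul_right_cancel₀ hb' h1.2))
  have p21 : ∀ v, 0 ≤ 2 * (⟪v - av σ (xh d20 (ι2 k)) v, v - av σ (xh d12 (ιC k)) v⟫_ℂ).re +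
      (2/5) * (‖v - av σ (xh d20 (ι2 k)) v‖^2 + ‖v - av σ (xh d12 (ιC k)) v‖^2) := by
    intro v
    refine heis_ineq σ hσ (xh d20 (ι2 k)) (xh d12 (ιC k)) (xh d10 (ι2 k))
      (fun a b => Multiplicative.ofAdd (-(a.toAdd.1 * b.toAdd), -(a.toAdd.2 * b.toAdd)))
      ?_ ?_ ?_ ?_ hk' v
    · intro a b
      simp only [xh_apply, ιC_apply, ι2_apply, toAdd_ofAdd, map_mul]
      have h1 := ee_comm d12 d20 d10 (C b.toAdd) (C a.toAdd.1 + C a.toAdd.2 * X)
      rw [h1, ← mul_assoc]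
      have h2 : (C (-(a.toAdd.1 * b.toAdd)) + C (-(a.toAdd.2 * b.toAdd)) * X : k[X]) =
          -(C b.toAdd * (C a.toAdd.1 + C a.toAdd.2 * X)) := by
        simp only [map_neg, map_mul]; ring
      rw [h2, ee_neg, inv_mul_cancel, one_mul]
    · intro a b; exact ee_comm_right d20 d10 _ _
    · intro a b; exact ee_comm_left d12 d10 _ _
    · intro b hb
      have hb' : b.toAdd ≠ 0 := fun h => hb (by rw [← toAdd_eq_zero]; exact h)
      rw [← Finite.injective_iff_bijective]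
      intro a a' h
      have h1 := Multiplicative.ofAdd.injective h
      rw [Prod.mk.injEq] at h1
      exact Multiplicative.toAdd.injective
        (Prod.ext (mul_right_cancel₀ hb' (neg_injective h1.1))
          (mul_right_cancel₀ hb' (neg_injective h1.2)))
  have hsymm : ∀ (P Q : E →L[ℂ] E), (∀ v, 0 ≤ 2 * (⟪v - P v, v - Q v⟫_ℂ).re +
      (2/5) * (‖v - P v‖^2 + ‖v - Q v‖^2)) → ∀ v, 0 ≤ 2 * (⟪v - Q v, v - P v⟫_ℂ).re +
      (2/5) * (‖v - Q v‖^2 + ‖v - P v‖^2) := by
    intro P Q h v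
    have h1 := h v
    rw [← inner_conj_symm, Complex.conj_re]
    linarith
  intro i j hij
  fin_cases i <;> fin_cases j <;> first
    | exact absurd rfl hij
    | exact p01
    | exact p20
    | exact p21
    | exact hsymm _ _ p01
    | exact hsymm _ _ p20
    | exact hsymm _ _ p21

/-- Strong property (T) for `EL_3(k[X])`, `|k| ≥ 7`. -/
theorem lam_inv (σ : Lam k →* (E →L[ℂ] E)) (hσ : ∀ g, σ g ∈ unitary (E →L[ℂ] E))
    (hk : 7 ≤ Fintype.card k) (v : E) (δ : ℝ)
    (h01 : ∀ a, ‖σ (xh d01 (ιC k) a) v - v‖ ≤ δ)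
    (h12 : ∀ a, ‖σ (xh d12 (ιC k) a) v - v‖ ≤ δ)
    (h20 : ∀ a, ‖σ (xh d20 (ι2 k) a) v - v‖ ≤ δ) :
    ∃ w, (∀ g, σ g w = w) ∧ ‖v - w‖ ≤ 60 * δ := by
  have hδ : 0 ≤ δ := (norm_nonneg _).trans (h01 1)
  have hP : ∀ i, IsPr (PP σ i) := by
    intro i
    fin_cases i
    · exact av_isPr σ _ hσ
    · exact av_isPr σ _ hσ
    · exact av_isPr σ _ hσ
  obtain ⟨w, hw, hvw⟩ := descent hP (PP_pair σ hσ hk) v
  have hen : en (PP σ) v ≤ 3 * δ^2 := by
    simp only [en, Fin.sum_univ_three]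
    have a0 : ‖v - PP σ 0 v‖ ≤ δ := av_sub_le σ _ hσ v δ h01
    have a1 : ‖v - PP σ 1 v‖ ≤ δ := av_sub_le σ _ hσ v δ h12
    have a2 : ‖v - PP σ 2 v‖ ≤ δ := av_sub_le σ _ hσ v δ h20
    have b0 := pow_le_pow_left₀ (norm_nonneg _) a0 2
    have b1 := pow_le_pow_left₀ (norm_nonneg _) a1 2
    have b2 := pow_le_pow_left₀ (norm_nonneg _) a2 2
    linarith
  refine ⟨w, ?_, ?_⟩
  · intro g
    let H : Subgroup (Lam k) :=
      { carrier := {g | σ g w = w}
        mul_mem' := by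
          intro a b ha hb
          simp only [Set.mem_setOf_eq] at *
          rw [π_mul, hb, ha]
        one_mem' := by simp only [Set.mem_setOf_eq]; exact π_one σ w
        inv_mem' := by
          intro a ha
          simp only [Set.mem_setOf_eq] at *
          conv_lhs => rw [← ha]
          rw [← π_mul, inv_mul_cancel, π_one] }
    have : g ∈ H := by
      apply Lam_gen
      · exact (av_fix_iff σ _ w).1 (hw 0)
      · exact (av_fix_iff σ _ w).1 (hw 1)
      · exact (av_fix_iff σ _ w).1 (hw 2)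
    exact this
  · refine hvw.trans ?_
    have : √(en (PP σ) v) ≤ 2 * δ := by
      rw [show 2 * δ = √((2*δ)^2) by rw [Real.sqrt_sq (by positivity)]]
      apply Real.sqrt_le_sqrt
      nlinarith
    linarith

end lam
end Pool.Agent.H197R3
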