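import Mathlib
import Pool.Agent.H197R3.Cross

set_option autoImplicit false
set_option linter.unusedSectionVars false
set_option linter.unusedSimpArgs false

namespace Pool.Agent.H197R3

open scoped ComplexConjugate
open SemidirectProduct

section tw
variable {A : Type} [AddCommGroup A] {Λ : Type} [Group Λ] [DistribMulAction Λ A]

variable (A Λ) in
abbrev G1 := GG (A := A) Λ (M1 A) inv_M1
variable (A Λ) in
abbrev G2 := GG (A := A) Λ (M2 A) inv_M2

lemma thM_phi (g : Λ) (m : M1 A) : thM (phi (M1 A) inv_M1 g m) =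
    MonoidAlgebra.mapDomain (phi (M2 A) inv_M2 g) (thM m) := by
  have key : ∀ (y : MonoidAlgebra ℂ (M2 A)) (x : XX A),
      ev (M2 A) (MonoidAlgebra.mapDomain (phi (M2 A) inv_M2 g) y) x = ev (M2 A) y (pb g x) := by
    intro y x
    induction y using MonoidAlgebra.induction_linear with
    | zero => rw [MonoidAlgebra.mapDomain_zero, map_zero]; rfl
    | add a b ha hb =>
      rw [MonoidAlgebra.mapDomain_add, map_add, map_add, Pi.add_apply, Pi.add_apply, ha, hb]
    | single m r =>
      rw [MonoidAlgebra.mapDomain_single, ev_single_apply, ev_single_apply, phi_apply]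
  apply ev_inj
  funext x
  rw [key, ev_thM, ev_thM]
  rfl

variable (A Λ) in
noncomputable def inlA : MonoidAlgebra ℂ (M2 A) →ₐ[ℂ] MonoidAlgebra ℂ (G2 A Λ) :=
  MonoidAlgebra.mapDomainAlgHom ℂ ℂ inl

lemma inlA_single (m : M2 A) (r : ℂ) :
    inlA A Λ (MonoidAlgebra.single m r) = MonoidAlgebra.single (inl m) r := by
  show MonoidAlgebra.mapDomain inl (MonoidAlgebra.single m r) = _
  rw [MonoidAlgebra.mapDomain_single]

lemma inlA_conj (g : Λ) (y : MonoidAlgebra ℂ (M2 A)) :
    inlA A Λ (MonoidAlgebra.mapDomain (phi (M2 A) inv_M2 g) y) =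
    MonoidAlgebra.single (inr g) 1 * inlA A Λ y * MonoidAlgebra.single (inr g⁻¹) 1 := by
  induction y using MonoidAlgebra.induction_linear with
  | zero => rw [MonoidAlgebra.mapDomain_zero, map_zero]; simp
  | add a b ha hb => rw [MonoidAlgebra.mapDomain_add, map_add, ha, hb, map_add, mul_add, add_mul]
  | single m r =>
    rw [MonoidAlgebra.mapDomain_single, inlA_single, inlA_single,
      MonoidAlgebra.single_mul_single, MonoidAlgebra.single_mul_single, one_mul, mul_one, inl_aut]

lemma inlA_coeff (y : MonoidAlgebra ℂ (M2 A)) (x : G2 A Λ) [Decidable (x.right = 1)] :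
    (inlA A Λ y).coeff x = if x.right = 1 then y.coeff x.left else 0 := by
  classical
  induction y using MonoidAlgebra.induction_linear with
  | zero => simp
  | add a b ha hb =>
    rw [map_add, MonoidAlgebra.coeff_add, Finsupp.add_apply, ha, hb, MonoidAlgebra.coeff_add,
      Finsupp.add_apply]
    split_ifs <;> simp
  | single m r =>
    rw [inlA_single, MonoidAlgebra.coeff_single, MonoidAlgebra.coeff_single,
      Finsupp.single_apply, Finsupp.single_apply]
    by_cases h1 : x.right = 1
    · rw [if_pos h1]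
      by_cases h2 : m = x.left
      · have : inl m = x := by
          refine SemidirectProduct.ext ?_ ?_
          · simpa using h2
          · simpa using h1.symm
        rw [if_pos this, if_pos h2]
      · have : ¬ inl m = x := fun h => h2 (by rw [← h, left_inl])
        rw [if_neg this, if_neg h2]
    · have : ¬ inl m = x := fun h => h1 (by rw [← h, right_inl])
      rw [if_neg h1, if_neg this]

noncomputable def fn1 : M1 A →* (MonoidAlgebra ℂ (G2 A Λ))ˣ :=
  MonoidHom.toHomUnits (((inlA A Λ : MonoidAlgebra ℂ (M2 A) →ₐ[ℂ] MonoidAlgebra ℂ (G2 A Λ)) :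
    MonoidAlgebra ℂ (M2 A) →* MonoidAlgebra ℂ (G2 A Λ)).comp thM)

noncomputable def fn2 : Λ →* (MonoidAlgebra ℂ (G2 A Λ))ˣ :=
  MonoidHom.toHomUnits ((MonoidAlgebra.of ℂ (G2 A Λ)).comp inr)

lemma fn1_coe (m : M1 A) : ((fn1 (Λ := Λ) m : (MonoidAlgebra ℂ (G2 A Λ))ˣ) : MonoidAlgebra ℂ (G2 A Λ)) =
    inlA A Λ (thM m) := rfl

lemma fn2_coe (g : Λ) : ((fn2 (A := A) g : (MonoidAlgebra ℂ (G2 A Λ))ˣ) : MonoidAlgebra ℂ (G2 A Λ)) =
    MonoidAlgebra.single (inr g) 1 := rfl

lemma fn_compat (g : Λ) : (fn1 (A := A) (Λ := Λ)).comp (phi (M1 A) inv_M1 g).toMonoidHom =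
    (MulAut.conj (fn2 (A := A) g)).toMonoidHom.comp fn1 := by
  ext m : 1
  apply Units.ext
  show inlA A Λ (thM (phi (M1 A) inv_M1 g m)) =
    ((fn2 (A := A) g * fn1 m * (fn2 (A := A) g)⁻¹ : (MonoidAlgebra ℂ (G2 A Λ))ˣ) :
      MonoidAlgebra ℂ (G2 A Λ))
  rw [← map_inv, Units.val_mul, Units.val_mul, fn2_coe, fn2_coe, fn1_coe, thM_phi, inlA_conj]

/-- the twist hom on the whole group -/
noncomputable def theta : G1 A Λ →* MonoidAlgebra ℂ (G2 A Λ) :=
  (Units.coeHom _).comp (SemidirectProduct.lift fn1 fn2 fn_compat)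

lemma theta_mk (x : G1 A Λ) : theta x =
    inlA A Λ (thM x.left) * MonoidAlgebra.single (inr x.right) 1 := by
  conv_lhs => rw [← inl_left_mul_inr_right x]
  show ((SemidirectProduct.lift fn1 fn2 fn_compat (inl x.left * inr x.right) :
    (MonoidAlgebra ℂ (G2 A Λ))ˣ) : MonoidAlgebra ℂ (G2 A Λ)) = _
  rw [map_mul, SemidirectProduct.lift_inl, SemidirectProduct.lift_inr, Units.val_mul, fn1_coe,
    fn2_coe]

open Classical in
lemma theta_coeff (x : G1 A Λ) (h : G2 A Λ) :
    (theta x).coeff h = if h.right = x.right then (thM x.left).coeff h.left else 0 := by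
  rw [theta_mk, MonoidAlgebra.coeff_mul_single_apply, mul_one, inlA_coeff]
  have e1 : (h * (inr x.right)⁻¹).right = h.right * x.right⁻¹ := by simp
  have e2 : (h * (inr x.right)⁻¹).left = h.left := by simp
  rw [e1, e2]
  by_cases hh : h.right = x.right
  · rw [if_pos hh, if_pos (by rw [hh, mul_inv_cancel])]
  · rw [if_neg hh, if_neg (fun h' => hh (mul_inv_eq_one.1 h'))]

variable (A Λ) in
/-- the twist -/
noncomputable def theTwist : Twist (G1 A Λ) (G2 A Λ) where
  θ := theta
  tr := by
    classical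
    intro x hx
    rw [theta_coeff]
    split_ifs with h
    · rw [one_right] at h
      rw [one_left]
      apply thM_coeff_one
      intro h2
      exact hx (SemidirectProduct.ext h2 h.symm)
    · rfl
  st := by
    classical
    intro x h
    rw [theta_coeff, theta_coeff]
    simp only [inv_right, inv_left, inv_inj]
    split_ifs with h1
    · rw [h1, thM_phi, ← thM_inv_coeff]
      show (Finsupp.mapDomain _ _) _ = _
      rw [Finsupp.mapDomain_apply (MulEquiv.injective _)]
    · simp
  sp := by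
    intro h
    have h1 := single_mem_span h.left
    let Ψ : MonoidAlgebra ℂ (M2 A) →ₗ[ℂ] MonoidAlgebra ℂ (G2 A Λ) :=
      (LinearMap.mulRight ℂ (MonoidAlgebra.single (inr h.right) (1 : ℂ))) ∘ₗ
        (inlA A Λ).toLinearMap
    have h2 : Ψ (MonoidAlgebra.single h.left 1) ∈
        Submodule.map Ψ (Submodule.span ℂ (Set.range (thM (A := A)))) :=
      Submodule.mem_map_of_mem h1
    have h3 : Ψ (MonoidAlgebra.single h.left 1) = MonoidAlgebra.single h (1 : ℂ) := by
      show inlA A Λ (MonoidAlgebra.single h.left 1) * MonoidAlgebra.single (inr h.right) (1 : ℂ) = _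
      rw [inlA_single, MonoidAlgebra.single_mul_single, inl_left_mul_inr_right, mul_one]
    rw [h3, Submodule.map_span] at h2
    refine Submodule.span_mono ?_ h2
    rintro _ ⟨_, ⟨m, rfl⟩, rfl⟩
    refine ⟨⟨m, h.right⟩, ?_⟩
    rw [theta_mk]; rfl

end tw
end Pool.Agent.H197R3
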