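import Mathlib
import Pool.Agent.H197R3.Star
import Pool.Agent.H197R3.Tw
import Pool.Agent.H197R3.TG

set_option autoImplicit false
set_option linter.unusedSectionVars false
set_option linter.unusedSimpArgs false

namespace Pool.Agent.H197R3

open Polynomial SemidirectProduct

section tdata
variable (k : Type) [Field k]

/-- the groups -/
abbrev Gr1 := G1 (VA k) (Lam k)
abbrev Gr2 := G2 (VA k) (Lam k)

/-- the element `u_a` of `Gr1` -/
noncomputable def uG (a : VA k) : Gr1 k := inl ⟨uu a, uu_mem a⟩

/-- `TData` of the first group -/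
noncomputable def theTData : TData k (Gr1 k) where
  lam := inr
  u := uG k
  ucomm a b := by
    unfold uG
    rw [← map_mul, ← map_mul, mul_comm]
  zadd a a' b := by
    have key : ∀ a b : VA k, zz (uG k) a b =
        inl (⟨uu a, uu_mem a⟩ * ⟨uu b, uu_mem b⟩ * (⟨uu (a + b), uu_mem (a + b)⟩)⁻¹ : M1 (VA k)) := by
      intro a b
      unfold zz uG
      rw [map_mul, map_mul, map_inv]
    rw [key, key, key, ← map_mul]
    congr 1
    apply Subtype.ext
    exact zz_uu_add a a' b
  cj g a := by
    unfold uG
    rw [← map_inv, ← inl_aut]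
    rfl
  gen x := by
    refine ⟨inl x.left, ?_, x.right, (inl_left_mul_inr_right x).symm⟩
    obtain ⟨m, hm⟩ := x.left
    induction hm using Subgroup.closure_induction with
    | mem z hz => obtain ⟨a, rfl⟩ := hz; exact Subgroup.subset_closure ⟨a, rfl⟩
    | one =>
      rw [show (⟨1, one_mem _⟩ : M1 (VA k)) = 1 from rfl, map_one]; exact one_mem _
    | mul p q hp' hq' hp hq =>
      have e : (⟨p * q, mul_mem hp' hq'⟩ : M1 (VA k)) = ⟨p, hp'⟩ * ⟨q, hq'⟩ := rfl
      rw [e, map_mul]; exact mul_mem hp hq
    | inv p hp' hp =>
      have e : (⟨p⁻¹, inv_mem hp'⟩ : M1 (VA k)) = (⟨p, hp'⟩ : M1 (VA k))⁻¹ := rfl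
      rw [e, map_inv]; exact inv_mem hp

end tdata

section countable

lemma closure_countable {G : Type} [Group G] (s : Set G) (hs : s.Countable) :
    Countable (Subgroup.closure s) := by
  have : Countable s := hs.to_subtype
  rw [FreeGroup.closure_eq_range]
  exact (MonoidHom.rangeRestrict_surjective (FreeGroup.lift ((↑) : s → G))).countable

variable (k : Type) [Field k] [Finite k]

instance polyCountable : Countable k[X] := by
  have : Function.Injective (fun p : k[X] => (p.toFinsupp.coeff : ℕ →₀ k)) := by
    intro p q h
    apply Polynomial.toFinsupp_injective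
    exact AddMonoidAlgebra.coeff_injective h
  exact this.countable

instance M1_countable : Countable (M1 (VA k)) := by
  apply closure_countable
  exact Set.countable_range _

instance M2_countable : Countable (M2 (VA k)) := by
  apply closure_countable
  exact (Set.countable_range _).union (Set.countable_range _)

instance SL_countable : Countable (SL3 k[X]) := by
  have : Countable (Matrix (Fin 3) (Fin 3) k[X]) :=
    inferInstanceAs (Countable (Fin 3 → Fin 3 → k[X]))
  exact Subtype.countable

instance Gr1_countable : Countable (Gr1 k) := by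
  exact (SemidirectProduct.equivProd (φ := phi (M1 (VA k)) (inv_M1 (Λ := Lam k)))).injective.countable

instance Gr2_countable : Countable (Gr2 k) := by
  exact (SemidirectProduct.equivProd (φ := phi (M2 (VA k)) (inv_M2 (Λ := Lam k)))).injective.countable

end countable

section sep
variable {A : Type} [AddCommGroup A]

lemma gg_injective (h2 : ∀ a : A, 2 • a = 0) : Function.Injective (gg (A := A)) := by
  intro a b hab
  let _ : Module (ZMod 2) A := AddCommGroup.zmodModule h2
  by_contra hne
  have h1 : a - b ≠ 0 := sub_ne_zero.2 hne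
  have h3 := mt (Module.forall_dual_apply_eq_zero_iff (ZMod 2) (a - b)).1 h1
  push Not at h3
  obtain ⟨φ, hφ⟩ := h3
  have h4 := congrFun hab (φ.toAddMonoidHom, 0)
  simp only [gg] at h4
  have h5 : sg (φ (a - b)) = 1 := by
    have e : φ (a - b) = φ a + φ b := by
      rw [map_sub, CharTwo.sub_eq_add]
    rw [e, sg_add]
    have h4' : sg (φ a) = sg (φ b) := h4
    rw [h4', sg_sq]
  rcases z2 (φ (a - b)) with h6 | h6
  · exact hφ h6
  · rw [h6, sg1] at h5
    have := congrArg (fun z : Circle => (z : ℂ)) h5
    simp [iC_coe] at this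
    norm_num at this

end sep

end Pool.Agent.H197R3
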