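import Mathlib

set_option autoImplicit false
set_option linter.unusedSectionVars false

namespace Pool.Agent.H197R3.NU

open scoped BoundedContinuousFunction

/-- the coordinates of the `N`-th group: `N+1` low ones and `(N+1)^2` high ones -/
abbrev Gr (N : ℕ) : Type := Fin (N + 1) ⊕ Fin ((N + 1) ^ 2)

/-- index set of the basis -/
abbrev Ix : Type := Σ N : ℕ, Gr N

noncomputable def Hn (N : ℕ) : ℝ := ∑ n : Fin (N + 1), 1 / ((n : ℝ) + 1)

noncomputable def MM (N : ℕ) : ℝ := √(Hn N)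

/-- admissible coefficient vectors -/
inductive Adm (N : ℕ) (c : Gr N → ℝ) : Prop
  | low (h0 : ∀ k, c (Sum.inr k) = 0) (h1 : ∑ n, c (Sum.inl n) ^ 2 ≤ 1) : Adm N c
  | high (h0 : ∀ n, c (Sum.inl n) = 0) (h1 : ∑ k, c (Sum.inr k) ^ 2 ≤ 1) : Adm N c
  | mix (η : Fin ((N + 1) ^ 2) → ℝ) (hη : ∀ k, |η k| ≤ 1)
      (h0 : ∀ k, c (Sum.inr k) = MM N / (N + 1) * η k)
      (h1 : ∀ n, c (Sum.inl n) = -((∑ k, η k) / ((N : ℝ) + 1) ^ 2) / √((n : ℝ) + 1)) : Adm N c

/-- the norming functionals -/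
structure Lam : Type where
  N : ℕ
  c : Gr N → ℝ
  adm : Adm N c

instance : TopologicalSpace Lam := ⊥
instance : DiscreteTopology Lam := ⟨rfl⟩

/-- pairing of a functional with a family of coordinates -/
noncomputable def pair (l : Lam) (f : Ix → ℝ) : ℝ := ∑ i : Gr l.N, l.c i * f ⟨l.N, i⟩

open Classical in
/-- the coordinate value of a functional at a basis index -/
noncomputable def cf (l : Lam) (i : Ix) : ℝ := pair l (fun j => if j = i then 1 else 0)

lemma Hn_pos (N : ℕ) : 0 < Hn N := by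
  unfold Hn
  apply Finset.sum_pos (fun n _ => by positivity) ⟨0, Finset.mem_univ _⟩

lemma MM_pos (N : ℕ) : 0 < MM N := Real.sqrt_pos.2 (Hn_pos N)

lemma Hn_le (N : ℕ) : Hn N ≤ N + 1 := by
  unfold Hn
  calc ∑ n : Fin (N + 1), 1 / ((n : ℝ) + 1) ≤ ∑ n : Fin (N + 1), (1 : ℝ) := by
        apply Finset.sum_le_sum
        intro n _
        rw [div_le_one (by positivity)]
        have : (0 : ℝ) ≤ (n : ℝ) := Nat.cast_nonneg _
        linarith
    _ = N + 1 := by simp

lemma MM_le (N : ℕ) : MM N ≤ √((N : ℝ) + 1) := Real.sqrt_le_sqrt (Hn_le N)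

lemma MM_le' (N : ℕ) : MM N ≤ N + 1 := by
  refine (MM_le N).trans ?_
  rw [Real.sqrt_le_left (by positivity)]
  have : (0 : ℝ) ≤ (N : ℝ) := Nat.cast_nonneg _
  nlinarith

lemma adm_le {N : ℕ} {c : Gr N → ℝ} (h : Adm N c) (i : Gr N) : |c i| ≤ 1 := by
  have sq_le : ∀ {ι : Type} [Fintype ι] (g : ι → ℝ), ∑ k, g k ^ 2 ≤ 1 → ∀ k, |g k| ≤ 1 := by
    intro ι _ g hg k
    have h1 : g k ^ 2 ≤ ∑ k, g k ^ 2 :=
      Finset.single_le_sum (f := fun k => g k ^ 2) (fun _ _ => sq_nonneg _) (Finset.mem_univ k)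
    rw [← sq_le_one_iff_abs_le_one]
    linarith
  cases h with
  | low h0 h1 =>
    rcases i with n | k
    · exact sq_le (fun n => c (Sum.inl n)) h1 n
    · rw [h0]; simp
  | high h0 h1 =>
    rcases i with n | k
    · rw [h0]; simp
    · exact sq_le (fun k => c (Sum.inr k)) h1 k
  | mix η hη h0 h1 =>
    rcases i with n | k
    · rw [h1, abs_div, abs_neg, abs_div]
      have e1 : |∑ k, η k| ≤ ((N : ℝ) + 1) ^ 2 := by
        refine (Finset.abs_sum_le_sum_abs _ _).trans ?_
        refine (Finset.sum_le_sum fun k _ => hη k).trans ?_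
        simp
      have e2 : |((N : ℝ) + 1) ^ 2| = ((N : ℝ) + 1) ^ 2 := abs_of_nonneg (by positivity)
      have e3 : |∑ k, η k| / |((N : ℝ) + 1) ^ 2| ≤ 1 := by
        rw [e2, div_le_one (by positivity)]; exact e1
      have e4 : 1 ≤ |√((n : ℝ) + 1)| := by
        rw [abs_of_nonneg (Real.sqrt_nonneg _)]
        rw [Real.one_le_sqrt]
        have : (0 : ℝ) ≤ (n : ℝ) := Nat.cast_nonneg _
        linarith
      rw [div_le_one (by linarith)]
      exact e3.trans e4
    · rw [h0, abs_mul]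
      have e1 : |MM N / ((N : ℝ) + 1)| ≤ 1 := by
        rw [abs_of_nonneg (div_nonneg (MM_pos N).le (by positivity)), div_le_one (by positivity)]
        exact MM_le' N
      calc |MM N / ((N : ℝ) + 1)| * |η k| ≤ 1 * 1 :=
            mul_le_mul e1 (hη k) (abs_nonneg _) zero_le_one
        _ = 1 := one_mul 1

open Classical in
lemma cf_same (l : Lam) (i : Gr l.N) : cf l ⟨l.N, i⟩ = l.c i := by
  unfold cf pair
  rw [Finset.sum_eq_single i]
  · simp
  · intro j _ hj
    have h' : (⟨l.N, j⟩ : Ix) ≠ ⟨l.N, i⟩ := by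
      intro h
      apply hj
      simpa using h
    simp only [if_neg h', mul_zero]
  · intro h; exact absurd (Finset.mem_univ _) h

open Classical in
lemma cf_other (l : Lam) (i : Ix) (h : i.1 ≠ l.N) : cf l i = 0 := by
  unfold cf pair
  apply Finset.sum_eq_zero
  intro j _
  have h' : (⟨l.N, j⟩ : Ix) ≠ i := by
    intro h'
    apply h
    rw [← h']
  simp only [if_neg h', mul_zero]

lemma cf_le (l : Lam) (i : Ix) : |cf l i| ≤ 1 := by
  by_cases h : i.1 = l.N
  · obtain ⟨N, i⟩ := i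
    obtain ⟨M, c, adm⟩ := l
    simp only at h
    subst h
    rw [cf_same ⟨N, c, adm⟩ i]
    exact adm_le adm i
  · rw [cf_other l i h]; simp

/-- basis vectors in the ambient space -/
noncomputable def xY (i : Ix) : Lam →ᵇ ℝ :=
  BoundedContinuousFunction.ofNormedAddCommGroupDiscrete (fun l => cf l i) 1 fun l => cf_le l i

lemma xY_apply (i : Ix) (l : Lam) : xY i l = cf l i := rfl

open Classical in
/-- coordinate functional -/
noncomputable def co (i : Ix) : Lam where
  N := i.1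
  c := fun j => if j = i.2 then 1 else 0
  adm := by
    obtain ⟨N, i⟩ := i
    rcases i with n | k
    · apply Adm.low
      · intro k; simp
      · simp [ite_pow]
    · apply Adm.high
      · intro n; simp
      · simp [ite_pow]

open Classical in
lemma cf_co (i j : Ix) : cf (co i) j = if i = j then 1 else 0 := by
  by_cases h : j.1 = i.1
  · obtain ⟨N, i⟩ := i
    obtain ⟨M, j⟩ := j
    simp only at h
    subst h
    have := cf_same (co ⟨M, i⟩) j
    rw [show (⟨M, j⟩ : Ix) = ⟨(co ⟨M, i⟩).N, j⟩ from rfl, this]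
    simp only [co]
    by_cases h : j = i
    · subst h; simp
    · have h' : (⟨M, i⟩ : Ix) ≠ ⟨M, j⟩ := by
        intro e; apply h; simpa using e.symm
      simp [h, Ne.symm h]
  · rw [cf_other (co i) j h, if_neg]
    intro e; apply h; rw [e]

/-- the space -/
noncomputable abbrev XS : Submodule ℝ (Lam →ᵇ ℝ) := (Submodule.span ℝ (Set.range xY)).topologicalClosure

lemma xY_mem (i : Ix) : xY i ∈ XS :=
  (Submodule.span ℝ (Set.range xY)).le_topologicalClosure (Submodule.subset_span ⟨i, rfl⟩)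

/-- every element of the space is determined by its coordinates -/
lemma eval (f : Lam →ᵇ ℝ) (hf : f ∈ XS) (l : Lam) : f l = pair l (fun i => f (co i)) := by
  classical
  let Φ : (Lam →ᵇ ℝ) →L[ℝ] ℝ := BoundedContinuousFunction.evalCLM ℝ l -
    ∑ i : Gr l.N, l.c i • BoundedContinuousFunction.evalCLM ℝ (co ⟨l.N, i⟩)
  have hΦ : ∀ g : Lam →ᵇ ℝ, Φ g = g l - pair l (fun i => g (co i)) := by
    intro g
    simp only [Φ, pair, sub_apply, sum_apply, smul_apply, BoundedContinuousFunction.evalCLM_apply,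
      smul_eq_mul]
  have h1 : Submodule.span ℝ (Set.range xY) ≤ LinearMap.ker (Φ : (Lam →ᵇ ℝ) →ₗ[ℝ] ℝ) := by
    rw [Submodule.span_le]
    rintro _ ⟨i, rfl⟩
    show Φ (xY i) = 0
    rw [hΦ, xY_apply]
    have : pair l (fun j => xY i (co j)) = cf l i := by
      unfold cf
      congr 1
      funext j
      rw [xY_apply, cf_co]
    rw [this, sub_self]
  have h2 : XS ≤ LinearMap.ker (Φ : (Lam →ᵇ ℝ) →ₗ[ℝ] ℝ) :=
    Submodule.topologicalClosure_minimal _ h1 (ContinuousLinearMap.isClosed_ker Φ)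
  have h3 : Φ f = 0 := h2 hf
  rw [hΦ] at h3
  linarith

end Pool.Agent.H197R3.NU
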