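import Pool.Agent.H197R3.NU1

set_option autoImplicit false
set_option linter.unusedSectionVars false

namespace Pool.Agent.H197R3.NU

open scoped BoundedContinuousFunction

lemma sum_range_le (m : ℕ) : ∑ n ∈ Finset.range m, 1 / √((n : ℝ) + 1) ≤ 2 * √(m : ℝ) := by
  induction m with
  | zero => simp
  | succ m ih =>
    rw [Finset.sum_range_succ]
    have h0 : (0 : ℝ) ≤ (m : ℝ) := Nat.cast_nonneg _
    have h1 : 0 < √((m : ℝ) + 1) := Real.sqrt_pos.2 (by linarith)
    have h2 : √(m : ℝ) ≤ √((m : ℝ) + 1) := Real.sqrt_le_sqrt (by linarith)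
    have h3 : √((m : ℝ) + 1) ^ 2 = (m : ℝ) + 1 := Real.sq_sqrt (by linarith)
    have h4 : √(m : ℝ) ^ 2 = (m : ℝ) := Real.sq_sqrt h0
    have h5 : 0 ≤ √(m : ℝ) := Real.sqrt_nonneg _
    have h6 : 1 / √((m : ℝ) + 1) ≤ 2 * (√((m : ℝ) + 1) - √(m : ℝ)) := by
      rw [div_le_iff₀ h1]
      nlinarith
    push_cast
    linarith

lemma sum_nat_le (S : Finset ℕ) : ∑ n ∈ S, 1 / √((n : ℝ) + 1) ≤ 3 * √(S.card : ℝ) := by
  classical
  set m := S.card with hm
  have h0 : (0 : ℝ) ≤ (m : ℝ) := Nat.cast_nonneg _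
  rw [← Finset.sum_filter_add_sum_filter_not S (fun n => n < m)]
  have e1 : ∑ n ∈ S.filter (fun n => n < m), 1 / √((n : ℝ) + 1) ≤ 2 * √(m : ℝ) := by
    refine le_trans ?_ (sum_range_le m)
    apply Finset.sum_le_sum_of_subset_of_nonneg
    · intro n hn
      rw [Finset.mem_filter] at hn
      exact Finset.mem_range.2 hn.2
    · intro n _ _; positivity
  have e2 : ∑ n ∈ S.filter (fun n => ¬ n < m), 1 / √((n : ℝ) + 1) ≤ √(m : ℝ) := by
    have e3 : ∑ n ∈ S.filter (fun n => ¬ n < m), 1 / √((n : ℝ) + 1)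
        ≤ ∑ n ∈ S.filter (fun n => ¬ n < m), 1 / √((m : ℝ) + 1) := by
      apply Finset.sum_le_sum
      intro n hn
      rw [Finset.mem_filter, not_lt] at hn
      apply one_div_le_one_div_of_le (Real.sqrt_pos.2 (by linarith))
      apply Real.sqrt_le_sqrt
      have : (m : ℝ) ≤ (n : ℝ) := by exact_mod_cast hn.2
      linarith
    refine e3.trans ?_
    rw [Finset.sum_const, nsmul_eq_mul]
    have e4 : ((S.filter (fun n => ¬ n < m)).card : ℝ) ≤ (m : ℝ) := by
      exact_mod_cast Finset.card_filter_le _ _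
    have h1 : 0 < √((m : ℝ) + 1) := Real.sqrt_pos.2 (by linarith)
    have h2 : √(m : ℝ) ≤ √((m : ℝ) + 1) := Real.sqrt_le_sqrt (by linarith)
    have h4 : √(m : ℝ) ^ 2 = (m : ℝ) := Real.sq_sqrt h0
    have h5 : 0 ≤ √(m : ℝ) := Real.sqrt_nonneg _
    calc ((S.filter (fun n => ¬ n < m)).card : ℝ) * (1 / √((m : ℝ) + 1))
        ≤ (m : ℝ) * (1 / √((m : ℝ) + 1)) := by
          apply mul_le_mul_of_nonneg_right e4 (by positivity)
      _ ≤ √(m : ℝ) := by
          rw [mul_one_div, div_le_iff₀ h1]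
          nlinarith
  linarith

lemma sum_fin_le {N : ℕ} (S : Finset (Fin (N + 1))) :
    ∑ n ∈ S, 1 / √((n : ℝ) + 1) ≤ 3 * √(S.card : ℝ) := by
  have h := sum_nat_le (S.map Fin.valEmbedding)
  rw [Finset.sum_map, Finset.card_map] at h
  exact h

lemma sum_all_le (N : ℕ) :
    ∑ n : Fin (N + 1), 1 / √((n : ℝ) + 1) ≤ 2 * √((N : ℝ) + 1) := by
  have h := sum_range_le (N + 1)
  rw [← Fin.sum_univ_eq_sum_range (fun n => 1 / √((n : ℝ) + 1)) (N + 1)] at h
  push_cast at h
  exact h

open Classical in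
/-- duality: boundedness on the unit ball of `l_2` bounds the `l_2` norm of any restriction -/
lemma sq_sum_le {ι : Type} [Fintype ι] (u : ι → ℝ) (B : ℝ)
    (hB : ∀ b : ι → ℝ, ∑ n, b n ^ 2 ≤ 1 → |∑ n, b n * u n| ≤ B) (S : Finset ι) :
    √(∑ n ∈ S, u n ^ 2) ≤ B := by
  set s := ∑ n ∈ S, u n ^ 2 with hs
  have hs0 : 0 ≤ s := Finset.sum_nonneg fun _ _ => sq_nonneg _
  rcases hs0.eq_or_lt with h0 | h0
  · rw [← h0, Real.sqrt_zero]
    have := hB (fun _ => 0) (by simp)
    simpa using this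
  · have hp : 0 < √s := Real.sqrt_pos.2 h0
    have hsq : √s ^ 2 = s := Real.sq_sqrt hs0
    have h1 := hB (fun n => if n ∈ S then u n / √s else 0) (by
      have : ∀ n, (if n ∈ S then u n / √s else 0) ^ 2 = if n ∈ S then u n ^ 2 / s else 0 := by
        intro n
        split_ifs
        · rw [div_pow, hsq]
        · simp
      simp only [this]
      rw [Finset.sum_ite_mem, Finset.univ_inter, ← Finset.sum_div, ← hs, div_self h0.ne'])
    have h2 : ∑ n, (if n ∈ S then u n / √s else 0) * u n = √s := by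
      have : ∀ n, (if n ∈ S then u n / √s else 0) * u n = if n ∈ S then u n ^ 2 / √s else 0 := by
        intro n
        split_ifs
        · ring
        · simp
      simp only [this]
      rw [Finset.sum_ite_mem, Finset.univ_inter, ← Finset.sum_div, ← hs, div_eq_iff hp.ne']
      nlinarith
    rw [h2, abs_of_pos hp] at h1
    exact h1

/-- large coordinates are few -/
lemma card_le {ι : Type} [Fintype ι] (u : ι → ℝ) (B a : ℝ) (ha : 0 < a)
    (hB : ∀ b : ι → ℝ, ∑ n, b n ^ 2 ≤ 1 → |∑ n, b n * u n| ≤ B) (S : Finset ι)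
    (hS : ∀ n ∈ S, a ≤ |u n|) : √(S.card : ℝ) ≤ B / a := by
  have h1 := sq_sum_le u B hB S
  have h2 : (S.card : ℝ) * a ^ 2 ≤ ∑ n ∈ S, u n ^ 2 := by
    rw [← nsmul_eq_mul, ← Finset.sum_const]
    apply Finset.sum_le_sum
    intro n hn
    rw [← sq_abs (u n)]
    exact pow_le_pow_left₀ ha.le (hS n hn) 2
  have h3 : √((S.card : ℝ) * a ^ 2) ≤ B := (Real.sqrt_le_sqrt h2).trans h1
  rw [Real.sqrt_mul (Nat.cast_nonneg _), Real.sqrt_sq ha.le] at h3
  rwa [le_div_iff₀ ha]

open Classical in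
/-- main estimate inside one group -/
lemma group_est (N : ℕ) (u : Fin (N + 1) → ℝ) (w : Fin ((N + 1) ^ 2) → ℝ) (B a : ℝ) (ha : 0 < a)
    (hu : ∀ n, |u n| ≤ 1)
    (hL : ∀ b : Fin (N + 1) → ℝ, ∑ n, b n ^ 2 ≤ 1 → |∑ n, b n * u n| ≤ B)
    (hH : ∀ b : Fin ((N + 1) ^ 2) → ℝ, ∑ n, b n ^ 2 ≤ 1 → |∑ n, b n * w n| ≤ B)
    (hX : ∀ η : Fin ((N + 1) ^ 2) → ℝ, (∀ k, |η k| ≤ 1) →
      |∑ n : Fin (N + 1), -((∑ k, η k) / ((N : ℝ) + 1) ^ 2) / √((n : ℝ) + 1) * u n +
        ∑ k, MM N / (N + 1) * η k * w k| ≤ B)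
    (S : Finset (Fin (N + 1))) (T : Finset (Fin ((N + 1) ^ 2)))
    (hS : ∀ n ∈ S, a ≤ |u n|) (hT : ∀ k ∈ T, a ≤ |w k|) :
    (∑ n ∈ S, 1 / √((n : ℝ) + 1)) + MM N / (N + 1) * T.card ≤ (5 / a + 4 / a ^ 2) * B := by
  have hN : (0 : ℝ) < (N : ℝ) + 1 := by positivity
  have hM := MM_pos N
  have i1 : ∑ n ∈ S, 1 / √((n : ℝ) + 1) ≤ 3 * (B / a) := by
    refine (sum_fin_le S).trans ?_
    have := card_le u B a ha hL S hS
    linarith
  have hB0 : 0 ≤ B := by
    have := hL (fun _ => 0) (by simp)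
    simpa using this
  set D : ℝ := ∑ n : Fin (N + 1), u n / √((n : ℝ) + 1) with hD
  have hDle : |D| ≤ 2 * √((N : ℝ) + 1) := by
    refine (Finset.abs_sum_le_sum_abs _ _).trans ((Finset.sum_le_sum fun n _ => ?_).trans
      (sum_all_le N))
    rw [abs_div, abs_of_nonneg (Real.sqrt_nonneg _)]
    exact div_le_div_of_nonneg_right (hu n) (Real.sqrt_nonneg _)
  have hsN : 1 ≤ √((N : ℝ) + 1) := by
    rw [Real.one_le_sqrt]
    have : (0 : ℝ) ≤ (N : ℝ) := Nat.cast_nonneg _
    linarith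
  have hsN2 : √((N : ℝ) + 1) ^ 2 = (N : ℝ) + 1 := Real.sq_sqrt hN.le
  have i2 : MM N / (N + 1) * T.card ≤ 2 * (B / a) + 4 * (B / a ^ 2) := by
    have hBa : 0 ≤ B / a := div_nonneg hB0 ha.le
    have hBa2 : 0 ≤ B / a ^ 2 := div_nonneg hB0 (by positivity)
    by_cases hc : 4 * √((N : ℝ) + 1) ≤ MM N * a * (N + 1)
    · -- use the mixed functional
      have h1 := hX (fun k => if k ∈ T then SignType.sign (MM N * (N + 1) * w k - D) else 0) (by
        intro k
        split_ifs
        · rcases lt_trichotomy (MM N * (N + 1) * w k - D) 0 with h | h | h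
          · simp [h]
          · simp [h]
          · simp [h]
        · simp)
      set η : Fin ((N + 1) ^ 2) → ℝ :=
        fun k => if k ∈ T then ((SignType.sign (MM N * (N + 1) * w k - D) : SignType) : ℝ) else 0
        with hη
      have h2 : ∑ n : Fin (N + 1), -((∑ k, η k) / ((N : ℝ) + 1) ^ 2) / √((n : ℝ) + 1) * u n +
        ∑ k, MM N / (N + 1) * η k * w k
          = (1 / ((N : ℝ) + 1) ^ 2) * ∑ k, η k * (MM N * (N + 1) * w k - D) := by
        have e1 : ∑ n : Fin (N + 1), -((∑ k, η k) / ((N : ℝ) + 1) ^ 2) / √((n : ℝ) + 1) * u n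
            = -((∑ k, η k) / ((N : ℝ) + 1) ^ 2) * D := by
          rw [hD, Finset.mul_sum]
          apply Finset.sum_congr rfl
          intro n _
          ring
        have e2 : ∑ k, η k * (MM N * (N + 1) * w k - D)
            = MM N * (N + 1) * ∑ k, η k * w k - D * ∑ k, η k := by
          rw [Finset.mul_sum, Finset.mul_sum, ← Finset.sum_sub_distrib]
          apply Finset.sum_congr rfl
          intro n _
          ring
        have e3 : ∑ k, MM N / (N + 1) * η k * w k = MM N / (N + 1) * ∑ k, η k * w k := by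
          rw [Finset.mul_sum]
          apply Finset.sum_congr rfl
          intro n _
          ring
        rw [e1, e2, e3]
        field_simp
        ring
      rw [h2] at h1
      have h3 : (T.card : ℝ) * (MM N * (N + 1) * a / 2)
          ≤ ∑ k, η k * (MM N * (N + 1) * w k - D) := by
        have e1 : ∀ k, η k * (MM N * (N + 1) * w k - D)
            = if k ∈ T then |MM N * (N + 1) * w k - D| else 0 := by
          intro k
          simp only [hη]
          split_ifs
          · exact sign_mul_self _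
          · simp
        simp only [e1]
        rw [Finset.sum_ite_mem, Finset.univ_inter, ← nsmul_eq_mul, ← Finset.sum_const]
        apply Finset.sum_le_sum
        intro k hk
        have e2 : MM N * (N + 1) * a ≤ |MM N * (N + 1) * w k| := by
          rw [abs_mul, abs_of_pos (mul_pos hM hN)]
          exact mul_le_mul_of_nonneg_left (hT k hk) (mul_pos hM hN).le
        have e3 : |MM N * (N + 1) * w k| - |D| ≤ |MM N * (N + 1) * w k - D| :=
          abs_sub_abs_le_abs_sub _ _
        nlinarith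
      have h4 : (1 / ((N : ℝ) + 1) ^ 2) * ((T.card : ℝ) * (MM N * (N + 1) * a / 2)) ≤ B := by
        refine le_trans ?_ ((le_abs_self _).trans h1)
        exact mul_le_mul_of_nonneg_left h3 (by positivity)
      have h5 : (1 / ((N : ℝ) + 1) ^ 2) * ((T.card : ℝ) * (MM N * (N + 1) * a / 2))
          = (MM N / (N + 1) * T.card) * (a / 2) := by
        field_simp
      rw [h5] at h4
      have h6 : MM N / (N + 1) * T.card ≤ 2 * (B / a) := by
        rw [← le_div_iff₀ (by positivity)] at h4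
        refine h4.trans (le_of_eq ?_)
        field_simp
      linarith
    · push Not at hc
      have h1 : MM N < 4 / a := by
        rw [lt_div_iff₀ ha]
        have : MM N * a * √((N : ℝ) + 1) < 4 := by
          have h2 : MM N * a * √((N : ℝ) + 1) * √((N : ℝ) + 1) < 4 * √((N : ℝ) + 1) := by
            rw [mul_assoc (MM N * a), ← sq, hsN2]; exact hc
          exact lt_of_mul_lt_mul_right h2 (by positivity)
        nlinarith [mul_pos hM ha]
      have h2 := card_le w B a ha hH T hT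
      have h3 : (T.card : ℝ) ≤ ((N : ℝ) + 1) ^ 2 := by
        have := T.card_le_univ
        rw [Fintype.card_fin] at this
        exact_mod_cast this
      have h4 : √(T.card : ℝ) ≤ N + 1 := by
        rw [Real.sqrt_le_left hN.le]; exact h3
      have h5 : √(T.card : ℝ) ^ 2 = T.card := Real.sq_sqrt (Nat.cast_nonneg _)
      have h6 : 0 ≤ √(T.card : ℝ) := Real.sqrt_nonneg _
      have h7 : MM N / (N + 1) * T.card ≤ MM N * √(T.card : ℝ) := by
        rw [div_mul_eq_mul_div, div_le_iff₀ hN, mul_assoc]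
        apply mul_le_mul_of_nonneg_left _ hM.le
        nlinarith
      have h8 : MM N * √(T.card : ℝ) ≤ 4 / a * (B / a) :=
        mul_le_mul h1.le h2 h6 (by positivity)
      have h9 : 4 / a * (B / a) = 4 * (B / a ^ 2) := by field_simp
      linarith
  have : (5 / a + 4 / a ^ 2) * B = 3 * (B / a) + (2 * (B / a) + 4 * (B / a ^ 2)) := by
    ring
  linarith

end Pool.Agent.H197R3.NU
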