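import Pool.Agent.H197R3.NU2

set_option autoImplicit false
set_option linter.unusedSectionVars false

namespace Pool.Agent.H197R3.NU

open scoped BoundedContinuousFunction

lemma pair_split (l : Lam) (f : Ix → ℝ) :
    pair l f = ∑ n, l.c (Sum.inl n) * f ⟨l.N, Sum.inl n⟩ +
      ∑ k, l.c (Sum.inr k) * f ⟨l.N, Sum.inr k⟩ := by
  unfold pair
  rw [Fintype.sum_sum_type]

lemma pairL (N : ℕ) (f : Ix → ℝ) (B : ℝ) (hB : ∀ l, |pair l f| ≤ B)
    (b : Fin (N + 1) → ℝ) (hb : ∑ n, b n ^ 2 ≤ 1) : |∑ n, b n * f ⟨N, Sum.inl n⟩| ≤ B := by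
  have h := hB ⟨N, Sum.elim b (fun _ => 0), Adm.low (fun _ => rfl) hb⟩
  rw [pair_split] at h
  simpa using h

lemma pairH (N : ℕ) (f : Ix → ℝ) (B : ℝ) (hB : ∀ l, |pair l f| ≤ B)
    (b : Fin ((N + 1) ^ 2) → ℝ) (hb : ∑ n, b n ^ 2 ≤ 1) :
    |∑ n, b n * f ⟨N, Sum.inr n⟩| ≤ B := by
  have h := hB ⟨N, Sum.elim (fun _ => 0) b, Adm.high (fun _ => rfl) hb⟩
  rw [pair_split] at h
  simpa using h

lemma pairX (N : ℕ) (f : Ix → ℝ) (B : ℝ) (hB : ∀ l, |pair l f| ≤ B)
    (η : Fin ((N + 1) ^ 2) → ℝ) (hη : ∀ k, |η k| ≤ 1) :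
    |∑ n : Fin (N + 1), -((∑ k, η k) / ((N : ℝ) + 1) ^ 2) / √((n : ℝ) + 1) * f ⟨N, Sum.inl n⟩ +
        ∑ k, MM N / (N + 1) * η k * f ⟨N, Sum.inr k⟩| ≤ B := by
  have h := hB ⟨N, Sum.elim (fun n => -((∑ k, η k) / ((N : ℝ) + 1) ^ 2) / √((n : ℝ) + 1))
    (fun k => MM N / (N + 1) * η k), Adm.mix η hη (fun _ => rfl) (fun _ => rfl)⟩
  rw [pair_split] at h
  simpa using h

open Classical in
lemma near (f : Ix → ℝ) (A : Finset Ix) (a B : ℝ) (ha : 0 < a) (hf : ∀ i, |f i| ≤ 1)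
    (hA : ∀ i ∈ A, a ≤ |f i|) (hB : ∀ l, |pair l f| ≤ B) (l : Lam) :
    |pair l (fun i => if i ∈ A then f i else 0)| ≤ (1 + 5 / a + 4 / a ^ 2) * B := by
  have hB0 : 0 ≤ B := (abs_nonneg _).trans (hB l)
  have hle : B ≤ (1 + 5 / a + 4 / a ^ 2) * B := by
    have : 0 ≤ (5 / a + 4 / a ^ 2) * B := mul_nonneg (by positivity) hB0
    linarith
  obtain ⟨N, c, adm⟩ := l
  rw [pair_split]
  cases adm with
  | low h0 h1 =>
    simp only [h0, zero_mul, Finset.sum_const_zero, add_zero]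
    refine le_trans ?_ hle
    have h2 := pairL N f B hB (fun n => if (⟨N, Sum.inl n⟩ : Ix) ∈ A then c (Sum.inl n) else 0) (by
      refine le_trans (Finset.sum_le_sum fun n _ => ?_) h1
      split_ifs
      · exact le_rfl
      · simp only [ne_eq, OfNat.ofNat_ne_zero, not_false_eq_true, zero_pow]; positivity)
    refine le_trans (le_of_eq ?_) h2
    congr 1
    apply Finset.sum_congr rfl
    intro n _
    split_ifs <;> simp
  | high h0 h1 =>
    simp only [h0, zero_mul, Finset.sum_const_zero, zero_add]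
    refine le_trans ?_ hle
    have h2 := pairH N f B hB (fun n => if (⟨N, Sum.inr n⟩ : Ix) ∈ A then c (Sum.inr n) else 0) (by
      refine le_trans (Finset.sum_le_sum fun n _ => ?_) h1
      split_ifs
      · exact le_rfl
      · simp only [ne_eq, OfNat.ofNat_ne_zero, not_false_eq_true, zero_pow]; positivity)
    refine le_trans (le_of_eq ?_) h2
    congr 1
    apply Finset.sum_congr rfl
    intro n _
    split_ifs <;> simp
  | mix η hη h0 h1 =>
    simp only [h0, h1]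
    set S : Finset (Fin (N + 1)) := Finset.univ.filter (fun n => (⟨N, Sum.inl n⟩ : Ix) ∈ A) with hS
    set T : Finset (Fin ((N + 1) ^ 2)) :=
      Finset.univ.filter (fun n => (⟨N, Sum.inr n⟩ : Ix) ∈ A) with hT
    have hest := group_est N (fun n => f ⟨N, Sum.inl n⟩) (fun k => f ⟨N, Sum.inr k⟩) B a ha
      (fun n => hf _) (pairL N f B hB) (pairH N f B hB) (pairX N f B hB) S T
      (fun n hn => hA _ (by simpa [hS] using hn)) (fun n hn => hA _ (by simpa [hT] using hn))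
    have hN : (0 : ℝ) < (N : ℝ) + 1 := by positivity
    have hM := MM_pos N
    have b1 : |∑ n : Fin (N + 1), -((∑ k, η k) / ((N : ℝ) + 1) ^ 2) / √((n : ℝ) + 1) *
        (if (⟨N, Sum.inl n⟩ : Ix) ∈ A then f ⟨N, Sum.inl n⟩ else 0)|
        ≤ ∑ n ∈ S, 1 / √((n : ℝ) + 1) := by
      rw [hS, Finset.sum_filter]
      refine (Finset.abs_sum_le_sum_abs _ _).trans (Finset.sum_le_sum fun n _ => ?_)
      split_ifs
      · rw [abs_mul, abs_div, abs_neg, abs_div, abs_of_nonneg (Real.sqrt_nonneg _)]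
        have e1 : |∑ k, η k| ≤ ((N : ℝ) + 1) ^ 2 := by
          refine (Finset.abs_sum_le_sum_abs _ _).trans ?_
          refine (Finset.sum_le_sum fun k _ => hη k).trans ?_
          simp
        have e2 : |((N : ℝ) + 1) ^ 2| = ((N : ℝ) + 1) ^ 2 := abs_of_nonneg (by positivity)
        have e3 : |∑ k, η k| / |((N : ℝ) + 1) ^ 2| ≤ 1 := by
          rw [e2, div_le_one (by positivity)]; exact e1
        calc |∑ k, η k| / |((N : ℝ) + 1) ^ 2| / √((n : ℝ) + 1) * |f ⟨N, Sum.inl n⟩|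
            ≤ 1 / √((n : ℝ) + 1) * 1 := by
              apply mul_le_mul _ (hf _) (abs_nonneg _) (by positivity)
              exact div_le_div_of_nonneg_right e3 (Real.sqrt_nonneg _)
          _ = _ := mul_one _
      · simp
    have b2 : |∑ k, MM N / (N + 1) * η k *
        (if (⟨N, Sum.inr k⟩ : Ix) ∈ A then f ⟨N, Sum.inr k⟩ else 0)|
        ≤ MM N / (N + 1) * T.card := by
      have e0 : MM N / (N + 1) * (T.card : ℝ) = ∑ k ∈ T, MM N / (N + 1) := by
        rw [Finset.sum_const, nsmul_eq_mul, mul_comm]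
      rw [e0, hT, Finset.sum_filter]
      refine (Finset.abs_sum_le_sum_abs _ _).trans (Finset.sum_le_sum fun n _ => ?_)
      split_ifs
      · rw [abs_mul, abs_mul, abs_of_pos (div_pos hM hN)]
        calc MM N / (N + 1) * |η n| * |f ⟨N, Sum.inr n⟩| ≤ MM N / (N + 1) * 1 * 1 := by
              apply mul_le_mul _ (hf _) (abs_nonneg _) (by positivity)
              exact mul_le_mul_of_nonneg_left (hη n) (by positivity)
          _ = _ := by ring
      · simp
    calc _ ≤ _ := abs_add_le _ _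
      _ ≤ (5 / a + 4 / a ^ 2) * B := (add_le_add b1 b2).trans hest
      _ ≤ (1 + 5 / a + 4 / a ^ 2) * B := by nlinarith

/-- the vector witnessing the failure of the truncation estimate -/
noncomputable def vv (N : ℕ) : Gr N → ℝ :=
  Sum.elim (fun n => 1 / (√((n : ℝ) + 1) * MM N)) (fun _ => 1 / ((N : ℝ) + 1))

lemma vv_ge (N : ℕ) (i : Gr N) : 1 / ((N : ℝ) + 1) ≤ vv N i := by
  rcases i with n | k
  · simp only [vv, Sum.elim_inl]
    have h1 : 0 < √((n : ℝ) + 1) := Real.sqrt_pos.2 (by positivity)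
    apply one_div_le_one_div_of_le (mul_pos h1 (MM_pos N))
    have h2 : √((n : ℝ) + 1) ≤ √((N : ℝ) + 1) := by
      apply Real.sqrt_le_sqrt
      have h := n.2
      have : ((n : ℕ) : ℝ) + 1 ≤ (N : ℝ) + 1 := by exact_mod_cast h
      linarith
    have h3 : √((N : ℝ) + 1) ^ 2 = (N : ℝ) + 1 := Real.sq_sqrt (by positivity)
    calc √((n : ℝ) + 1) * MM N ≤ √((N : ℝ) + 1) * √((N : ℝ) + 1) :=
          mul_le_mul h2 (MM_le N) (MM_pos N).le (Real.sqrt_nonneg _)
      _ = (N : ℝ) + 1 := by rw [← sq]; exact h3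
  · simp [vv]

lemma cs {ι : Type} [Fintype ι] (b v : ι → ℝ) (hb : ∑ n, b n ^ 2 ≤ 1) (hv : ∑ n, v n ^ 2 ≤ 1) :
    |∑ n, b n * v n| ≤ 1 := by
  have h := Finset.sum_mul_sq_le_sq_mul_sq Finset.univ b v
  have h0 : 0 ≤ ∑ n, b n ^ 2 := Finset.sum_nonneg fun _ _ => sq_nonneg _
  have h1 : 0 ≤ ∑ n, v n ^ 2 := Finset.sum_nonneg fun _ _ => sq_nonneg _
  rw [← sq_le_one_iff_abs_le_one]
  nlinarith

lemma vv_norm {N : ℕ} {c : Gr N → ℝ} (adm : Adm N c) : |∑ i, c i * vv N i| ≤ 1 := by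
  have hN : (0 : ℝ) < (N : ℝ) + 1 := by positivity
  have hM := MM_pos N
  have hH : MM N ^ 2 = Hn N := Real.sq_sqrt (Hn_pos N).le
  rw [Fintype.sum_sum_type]
  cases adm with
  | low h0 h1 =>
    simp only [h0, zero_mul, Finset.sum_const_zero, add_zero]
    apply cs _ _ h1
    have : ∀ n : Fin (N + 1), vv N (Sum.inl n) ^ 2 = 1 / ((n : ℝ) + 1) * (1 / MM N ^ 2) := by
      intro n
      simp only [vv, Sum.elim_inl]
      rw [div_pow, mul_pow, Real.sq_sqrt (by positivity), one_pow, one_div_mul_one_div]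
    simp only [this]
    rw [← Finset.sum_mul, hH]
    show Hn N * (1 / Hn N) ≤ 1
    rw [mul_one_div, div_self (Hn_pos N).ne']
  | high h0 h1 =>
    simp only [h0, zero_mul, Finset.sum_const_zero, zero_add]
    apply cs _ _ h1
    have : ∀ n : Fin ((N + 1) ^ 2), vv N (Sum.inr n) ^ 2 = 1 / ((N : ℝ) + 1) ^ 2 := by
      intro n
      simp only [vv, Sum.elim_inr]
      rw [div_pow, one_pow]
    simp only [this]
    rw [Finset.sum_const, Finset.card_univ, Fintype.card_fin, nsmul_eq_mul]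
    push_cast
    rw [mul_one_div, div_self (by positivity)]
  | mix η hη h0 h1 =>
    simp only [h0, h1]
    have e1 : ∑ n : Fin (N + 1), -((∑ k, η k) / ((N : ℝ) + 1) ^ 2) / √((n : ℝ) + 1) *
        vv N (Sum.inl n) = -((∑ k, η k) / ((N : ℝ) + 1) ^ 2) * (Hn N / MM N) := by
      generalize -((∑ k, η k) / ((N : ℝ) + 1) ^ 2) = θ
      unfold Hn
      rw [Finset.sum_div, Finset.mul_sum]
      apply Finset.sum_congr rfl
      intro n _
      simp only [vv, Sum.elim_inl]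
      have h2 : √((n : ℝ) + 1) ^ 2 = (n : ℝ) + 1 := Real.sq_sqrt (by positivity)
      have h3 : 0 < √((n : ℝ) + 1) := Real.sqrt_pos.2 (by positivity)
      have h4 : (1 : ℝ) / ((n : ℝ) + 1) = 1 / √((n : ℝ) + 1) ^ 2 := by rw [h2]
      rw [h4]
      field_simp
    have e2 : ∑ k, MM N / (N + 1) * η k * vv N (Sum.inr k)
        = MM N * ((∑ k, η k) / ((N : ℝ) + 1) ^ 2) := by
      rw [Finset.sum_div, Finset.mul_sum]
      apply Finset.sum_congr rfl
      intro n _
      simp only [vv, Sum.elim_inr]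
      field_simp
    rw [e1, e2, ← hH]
    have : -((∑ k, η k) / ((N : ℝ) + 1) ^ 2) * (MM N ^ 2 / MM N) +
        MM N * ((∑ k, η k) / ((N : ℝ) + 1) ^ 2) = 0 := by
      field_simp
      ring
    rw [this]
    simp

/-- a functional large on the constant one vector -/
noncomputable def big (N : ℕ) : Lam where
  N := N
  c := Sum.elim (fun n => -((∑ _k : Fin ((N + 1) ^ 2), (1 : ℝ)) / ((N : ℝ) + 1) ^ 2) /
    √((n : ℝ) + 1)) (fun _ => MM N / (N + 1) * 1)
  adm := Adm.mix (fun _ => 1) (fun _ => by simp) (fun _ => rfl) (fun _ => rfl)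

lemma big_ge (N : ℕ) : MM N - 2 ≤ 1 / ((N : ℝ) + 1) * ∑ i : Gr N, (big N).c i := by
  have hN : (0 : ℝ) < (N : ℝ) + 1 := by positivity
  have h1 : ∑ i : Gr N, (big N).c i = MM N * (N + 1) - ∑ n : Fin (N + 1), 1 / √((n : ℝ) + 1) := by
    have e1 : ∀ i : Gr N, (big N).c i =
      Sum.elim (fun n : Fin (N + 1) => -((∑ _k : Fin ((N + 1) ^ 2), (1 : ℝ)) / ((N : ℝ) + 1) ^ 2) /
        √((n : ℝ) + 1)) (fun _ : Fin ((N + 1) ^ 2) => MM N / (N + 1) * 1) i := fun _ => rfl
    rw [Finset.sum_congr rfl (fun i _ => e1 i), Fintype.sum_sum_type]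
    simp only [Sum.elim_inl, Sum.elim_inr, Finset.sum_const, Finset.card_univ, Fintype.card_fin,
      nsmul_eq_mul]
    push_cast
    rw [mul_one, mul_one, div_self (by positivity)]
    simp only [neg_div, Finset.sum_neg_distrib]
    field_simp
    ring
  rw [h1]
  have h2 := sum_all_le N
  have h3 : √((N : ℝ) + 1) ≤ (N : ℝ) + 1 := by
    rw [Real.sqrt_le_left hN.le]
    have : (0 : ℝ) ≤ (N : ℝ) := Nat.cast_nonneg _
    nlinarith
  rw [one_div_mul_eq_div, le_div_iff₀ hN]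
  nlinarith

lemma MM_unbounded (C : ℝ) : ∃ N, C < MM N := by
  have h := Real.tendsto_sum_range_one_div_nat_succ_atTop
  obtain ⟨n, hn⟩ := ((h.eventually (Filter.eventually_gt_atTop (max C 0 ^ 2))).and
    (Filter.eventually_ge_atTop 1)).exists
  obtain ⟨m, rfl⟩ : ∃ m, n = m + 1 := ⟨n - 1, by omega⟩
  refine ⟨m, ?_⟩
  have h2 : Hn m = ∑ i ∈ Finset.range (m + 1), 1 / ((i : ℝ) + 1) := by
    unfold Hn
    rw [← Fin.sum_univ_eq_sum_range (fun n => 1 / ((n : ℝ) + 1)) (m + 1)]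
  have h3 : max C 0 < MM m := by
    unfold MM
    rw [Real.lt_sqrt (le_max_right _ _), h2]
    exact hn.1
  exact (le_max_left _ _).trans_lt h3

end Pool.Agent.H197R3.NU
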