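import Pool.Agent.H197R3.NU3

set_option autoImplicit false
set_option linter.unusedSectionVars false

namespace Pool.Agent.H197R3.NU

open scoped BoundedContinuousFunction

/-- an enumeration of the index set -/
noncomputable def en : ℕ ≃ Ix :=
  Classical.choice (by
    have : Infinite Ix := Infinite.of_injective (fun N : ℕ => (⟨N, Sum.inl 0⟩ : Ix)) (by
      intro a b h
      exact congrArg Sigma.fst h)
    exact nonempty_equiv_of_countable)

noncomputable def bx (n : ℕ) : XS := ⟨xY (en n), xY_mem _⟩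

noncomputable def bxs (n : ℕ) : XS →ₗ[ℝ] ℝ where
  toFun f := f.1 (co (en n))
  map_add' _ _ := rfl
  map_smul' _ _ := rfl

lemma bxs_apply (n : ℕ) (f : XS) : bxs n f = f.1 (co (en n)) := rfl

lemma norm_bx (n : ℕ) : ‖bx n‖ ≤ 1 := by
  show ‖xY (en n)‖ ≤ 1
  rw [BoundedContinuousFunction.norm_le zero_le_one]
  intro l
  exact cf_le l _

lemma norm_bxs (n : ℕ) (f : XS) : ‖bxs n f‖ ≤ 1 * ‖f‖ := by
  rw [one_mul]
  exact f.1.norm_coe_le_norm _

lemma biorth (m n : ℕ) : bxs m (bx n) = if m = n then 1 else 0 := by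
  rw [bxs_apply]
  show cf (co (en m)) (en n) = _
  rw [cf_co]
  simp only [EmbeddingLike.apply_eq_iff_eq]

lemma dense (f : XS) (ε : ℝ) (hε : 0 < ε) : ∃ g ∈ Submodule.span ℝ (Set.range bx), ‖f - g‖ < ε := by
  have h1 : f.1 ∈ closure ((Submodule.span ℝ (Set.range xY) : Submodule ℝ (Lam →ᵇ ℝ)) :
      Set (Lam →ᵇ ℝ)) := f.2
  obtain ⟨y, hy, hd⟩ := Metric.mem_closure_iff.1 h1 ε hε
  have h2 : Submodule.span ℝ (Set.range xY) = (Submodule.span ℝ (Set.range bx)).map XS.subtype := by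
    rw [Submodule.map_span]
    congr 1
    ext z
    constructor
    · rintro ⟨i, rfl⟩
      refine ⟨bx (en.symm i), ⟨_, rfl⟩, ?_⟩
      show xY (en (en.symm i)) = xY i
      rw [Equiv.apply_symm_apply]
    · rintro ⟨_, ⟨n, rfl⟩, rfl⟩
      exact ⟨en n, rfl⟩
  rw [SetLike.mem_coe, h2] at hy
  obtain ⟨g, hg, rfl⟩ := hy
  refine ⟨g, hg, ?_⟩
  rw [dist_eq_norm] at hd
  exact hd

open Classical in
lemma proj_coord (f : XS) (A : Finset ℕ) (l : Lam) :
    (∑ n ∈ A, bxs n f • bx n : XS).1 l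
      = pair l (fun i => if i ∈ A.map en.toEmbedding then f.1 (co i) else 0) := by
  rw [eval _ (∑ n ∈ A, bxs n f • bx n : XS).2 l]
  congr 1
  funext i
  have h1 : (∑ n ∈ A, bxs n f • bx n : XS).1 (co i) = ∑ n ∈ A, f.1 (co (en n)) * cf (co i) (en n) := by
    have : (∑ n ∈ A, bxs n f • bx n : XS).1 = ∑ n ∈ A, f.1 (co (en n)) • xY (en n) := by
      rw [← Submodule.subtype_apply, map_sum]
      rfl
    rw [this, BoundedContinuousFunction.sum_apply]
    rfl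
  rw [h1]
  simp only [cf_co, mul_ite, mul_one, mul_zero]
  have h2 := Finset.sum_map A en.toEmbedding (fun j => if i = j then f.1 (co j) else 0)
  rw [Finset.sum_ite_eq] at h2
  exact h2.symm

lemma near_unc (a : ℝ) (ha : 0 < a) (f : XS) (hf : ∀ n, ‖bxs n f‖ ≤ 1) (A : Finset ℕ)
    (hA : ∀ n ∈ A, a ≤ ‖bxs n f‖) :
    ‖∑ n ∈ A, bxs n f • bx n‖ ≤ (1 + 5 / a + 4 / a ^ 2) * ‖f‖ := by
  show ‖(∑ n ∈ A, bxs n f • bx n : XS).1‖ ≤ _
  rw [BoundedContinuousFunction.norm_le (by positivity)]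
  intro l
  rw [proj_coord, Real.norm_eq_abs]
  apply near (fun i => f.1 (co i)) (A.map en.toEmbedding) a ‖f‖ ha
  · intro i
    have := hf (en.symm i)
    rw [bxs_apply, Equiv.apply_symm_apply] at this
    exact this
  · intro i hi
    rw [Finset.mem_map] at hi
    obtain ⟨n, hn, rfl⟩ := hi
    exact hA n hn
  · intro l
    rw [← eval f.1 f.2 l]
    exact f.1.norm_coe_le_norm l

noncomputable def FN (N : ℕ) (v : Gr N → ℝ) : XS := ∑ i : Gr N, v i • bx (en.symm ⟨N, i⟩)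

lemma FN_apply (N : ℕ) (v : Gr N → ℝ) (l : Lam) : (FN N v).1 l = ∑ i, v i * cf l ⟨N, i⟩ := by
  have : (FN N v).1 = ∑ i : Gr N, v i • xY ⟨N, i⟩ := by
    unfold FN
    rw [← Submodule.subtype_apply, map_sum]
    apply Finset.sum_congr rfl
    intro i _
    show v i • xY (en (en.symm _)) = _
    rw [Equiv.apply_symm_apply]
  rw [this, BoundedContinuousFunction.sum_apply]
  rfl

open Classical in
lemma FN_co (N : ℕ) (v : Gr N → ℝ) (i : Gr N) : (FN N v).1 (co ⟨N, i⟩) = v i := by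
  rw [FN_apply]
  simp only [cf_co]
  rw [Finset.sum_eq_single i]
  · simp
  · intro j _ hj
    have : (⟨N, i⟩ : Ix) ≠ ⟨N, j⟩ := by
      intro h; apply hj; simpa using h.symm
    simp [this]
  · intro h; exact absurd (Finset.mem_univ _) h

open Classical in
lemma FN_co' (N : ℕ) (v : Gr N → ℝ) (j : Ix) (hj : j.1 ≠ N) : (FN N v).1 (co j) = 0 := by
  rw [FN_apply]
  simp only [cf_co]
  apply Finset.sum_eq_zero
  intro i _
  have : j ≠ ⟨N, i⟩ := by
    intro h; apply hj; rw [h]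
  simp [this]

lemma FN_norm (N : ℕ) : ‖FN N (vv N)‖ ≤ 1 := by
  show ‖(FN N (vv N)).1‖ ≤ 1
  rw [BoundedContinuousFunction.norm_le zero_le_one]
  intro l
  rw [FN_apply, Real.norm_eq_abs]
  by_cases h : N = l.N
  · obtain ⟨M, c, adm⟩ := l
    simp only at h
    subst h
    have : ∀ i, cf ⟨N, c, adm⟩ ⟨N, i⟩ = c i := fun i => cf_same ⟨N, c, adm⟩ i
    simp only [this]
    have h2 := vv_norm adm
    simp only [mul_comm (c _)] at h2
    exact h2
  · have : ∀ i : Gr N, cf l ⟨N, i⟩ = 0 := fun i => cf_other l ⟨N, i⟩ h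
    simp [this]

lemma FN_one (N : ℕ) : MM N - 2 ≤ 1 / ((N : ℝ) + 1) * ‖FN N (fun _ => 1)‖ := by
  refine (big_ge N).trans ?_
  apply mul_le_mul_of_nonneg_left _ (by positivity)
  refine le_trans (le_of_eq ?_) ((le_abs_self _).trans ((FN N (fun _ => 1)).1.norm_coe_le_norm (big N)))
  rw [FN_apply]
  apply Finset.sum_congr rfl
  intro i _
  rw [one_mul]
  exact (cf_same (big N) i).symm

/-- the group as a set of positions -/
noncomputable def AN (N : ℕ) : Finset ℕ :=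
  (Finset.univ : Finset (Gr N)).map ⟨fun i => en.symm ⟨N, i⟩, by
    intro i j h
    have := en.symm.injective h
    simpa using this⟩

lemma mem_AN (N n : ℕ) : n ∈ AN N ↔ (en n).1 = N := by
  unfold AN
  rw [Finset.mem_map]
  constructor
  · rintro ⟨i, _, rfl⟩
    show (en (en.symm ⟨N, i⟩)).1 = N
    rw [Equiv.apply_symm_apply]
  · rintro h
    refine ⟨cast (by rw [h]) (en n).2, Finset.mem_univ _, ?_⟩
    show en.symm _ = n
    rw [Equiv.symm_apply_eq]
    subst h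
    rfl

lemma sum_AN (N : ℕ) (g : ℕ → XS) : ∑ n ∈ AN N, g n = ∑ i : Gr N, g (en.symm ⟨N, i⟩) := by
  unfold AN
  rw [Finset.sum_map]
  rfl

lemma not_tqg : ¬ (∃ C : ℝ, ∀ f : XS, ∀ A : Finset ℕ, A.Nonempty →
    (∀ n ∈ A, ∀ k : ℕ, k ∉ A → ‖bxs k f‖ ≤ ‖bxs n f‖) →
    ∀ t : ℝ, (∀ n ∈ A, t ≤ ‖bxs n f‖) →
      t * ‖∑ n ∈ A, (bxs n f / ((‖bxs n f‖ : ℝ) : ℝ)) • bx n‖ ≤ C * ‖f‖) := by
  rintro ⟨C, hC⟩
  obtain ⟨N, hN⟩ := MM_unbounded (|C| + 2)
  have hco : ∀ i : Gr N, bxs (en.symm ⟨N, i⟩) (FN N (vv N)) = vv N i := by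
    intro i
    rw [bxs_apply, Equiv.apply_symm_apply, FN_co]
  have hpos : (0 : ℝ) < 1 / ((N : ℝ) + 1) := by positivity
  have hvpos : ∀ i, 0 < vv N i := fun i => hpos.trans_le (vv_ge N i)
  have key : ∀ n ∈ AN N, 1 / ((N : ℝ) + 1) ≤ ‖bxs n (FN N (vv N))‖ := by
    intro n hn
    unfold AN at hn
    rw [Finset.mem_map] at hn
    obtain ⟨i, _, rfl⟩ := hn
    show 1 / ((N : ℝ) + 1) ≤ ‖bxs (en.symm ⟨N, i⟩) (FN N (vv N))‖
    rw [hco i, Real.norm_eq_abs, abs_of_pos (hvpos i)]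
    exact vv_ge N i
  have h := hC (FN N (vv N)) (AN N)
    ⟨en.symm ⟨N, Sum.inl 0⟩, by rw [mem_AN, Equiv.apply_symm_apply]⟩
    (by
      intro n hn k hk
      rw [mem_AN] at hk
      rw [bxs_apply k, FN_co' N _ _ hk, norm_zero]
      exact norm_nonneg _) (1 / ((N : ℝ) + 1)) key
  have h2 : ∑ n ∈ AN N, (bxs n (FN N (vv N)) / ((‖bxs n (FN N (vv N))‖ : ℝ) : ℝ)) • bx n
      = FN N (fun _ => 1) := by
    rw [sum_AN]
    unfold FN
    apply Finset.sum_congr rfl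
    intro i _
    have h1 := hco i
    unfold FN at h1
    rw [h1, Real.norm_eq_abs, abs_of_pos (hvpos i), div_self (hvpos i).ne']
  rw [h2] at h
  have h3 := FN_one N
  have h0 : 0 ≤ ‖FN N (vv N)‖ := norm_nonneg (FN N (vv N)).1
  have h4 : C * ‖FN N (vv N)‖ ≤ |C| := by
    calc C * ‖FN N (vv N)‖ ≤ |C| * ‖FN N (vv N)‖ :=
          mul_le_mul_of_nonneg_right (le_abs_self C) h0
      _ ≤ |C| * 1 := mul_le_mul_of_nonneg_left (FN_norm N) (abs_nonneg _)
      _ = |C| := mul_one _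
  linarith

end Pool.Agent.H197R3.NU
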