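import Mathlib
import Pool.Agent.H197R3.Fin1

set_option autoImplicit false
set_option linter.unusedSectionVars false
set_option linter.unusedSimpArgs false

namespace Pool.Agent.H197R3

open Polynomial SemidirectProduct

lemma pigeon {G A : Type} [Group G] [Infinite A] (F : Subgroup G) [F.Normal] [Finite F]
    (G₀ : Subgroup (G ⧸ F)) (hG : G₀.index ≠ 0) (u : A → G)
    (h1 : ∀ a₀ a, QuotientGroup.mk' F ((u a₀)⁻¹ * u a) ∈ G₀ →
      ((u a₀)⁻¹ * u a) * ((u a₀)⁻¹ * u a) ∈ F)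
    (h2 : ∀ a₀, Function.Injective (fun a => ((u a₀)⁻¹ * u a) * ((u a₀)⁻¹ * u a))) : False := by
  have hfi : G₀.FiniteIndex := ⟨hG⟩
  have hfq : Finite ((G ⧸ F) ⧸ G₀) := Subgroup.finite_quotient_of_finiteIndex
  obtain ⟨y, hy⟩ := Finite.exists_infinite_fiber
    (fun a : A => (QuotientGroup.mk (QuotientGroup.mk' F (u a)) : (G ⧸ F) ⧸ G₀))
  set J := ((fun a : A => (QuotientGroup.mk (QuotientGroup.mk' F (u a)) : (G ⧸ F) ⧸ G₀)) ⁻¹' {y})
    with hJ
  obtain ⟨a₀, ha₀⟩ : Nonempty J := Infinite.nonempty _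
  have hJF : ∀ a : J, ((u a₀)⁻¹ * u a.1) * ((u a₀)⁻¹ * u a.1) ∈ F := by
    intro a
    apply h1
    have h3 : (QuotientGroup.mk (QuotientGroup.mk' F (u a₀)) : (G ⧸ F) ⧸ G₀) =
        QuotientGroup.mk (QuotientGroup.mk' F (u a.1)) :=
      (Set.mem_singleton_iff.1 ha₀).trans (Set.mem_singleton_iff.1 a.2).symm
    rw [QuotientGroup.eq] at h3
    rw [map_mul, map_inv]
    exact h3
  have hinj : Function.Injective (fun a : J => (⟨_, hJF a⟩ : F)) := by
    intro a b hab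
    exact Subtype.ext (h2 a₀ (congrArg Subtype.val hab))
  have : Infinite F := Infinite.of_injective _ hinj
  exact not_finite F

section notvi
variable {k : Type} [Field k] [CharP k 2]

lemma uG_sq (a : VA k) : uG k a * uG k a =
    inl ⟨gg a, by rw [← uu_sq]; exact mul_mem (uu_mem a) (uu_mem a)⟩ := by
  unfold uG
  rw [← map_mul]
  congr 1
  exact Subtype.ext (uu_sq a)

lemma uG_comm (a b : VA k) : uG k a * uG k b = uG k b * uG k a := by
  unfold uG
  rw [← map_mul, ← map_mul, mul_comm]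

lemma sq_inj (a₀ : VA k) :
    Function.Injective (fun a => ((uG k a₀)⁻¹ * uG k a) * ((uG k a₀)⁻¹ * uG k a)) := by
  intro a b h1
  have h2 : ∀ c : VA k, ((uG k a₀)⁻¹ * uG k c) * ((uG k a₀)⁻¹ * uG k c) =
      ((uG k a₀)⁻¹ * (uG k a₀)⁻¹) * (uG k c * uG k c) := by
    intro c
    have : (uG k a₀)⁻¹ * uG k c = uG k c * (uG k a₀)⁻¹ :=
      (Commute.inv_left (uG_comm a₀ c : Commute _ _)).eq
    calc ((uG k a₀)⁻¹ * uG k c) * ((uG k a₀)⁻¹ * uG k c)
        = (uG k a₀)⁻¹ * (uG k c * (uG k a₀)⁻¹) * uG k c := by group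
      _ = _ := by rw [← this]; group
  simp only [h2] at h1
  have h3 := mul_left_cancel h1
  rw [uG_sq, uG_sq] at h3
  have h4 := inl_injective h3
  have h5 : gg a = gg b := congrArg Subtype.val h4
  apply gg_injective _ h5
  intro c
  rw [two_nsmul]; funext i; exact CharTwo.add_self_eq_zero (c i)

theorem not_vi (hk : Nat.card k = 8) (F : Subgroup (Gr1 k)) (K : Subgroup (Gr2 k)) [F.Normal]
    [K.Normal] (hF : Finite F) (hK : Finite K) (G₀ : Subgroup (Gr1 k ⧸ F))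
    (H₀ : Subgroup (Gr2 k ⧸ K)) (hG : G₀.index ≠ 0) (hH : H₀.index ≠ 0) (e : G₀ ≃* H₀) : False := by
  -- the subgroup `M`
  set M : Subgroup (Gr1 k) := (inl : M1 (VA k) →* Gr1 k).range with hM
  have hMn : ∀ y : Gr1 k, ∀ m ∈ M, y * m * y⁻¹ ∈ M := by
    intro y m hm
    rw [hM, SemidirectProduct.range_inl_eq_ker_rightHom] at hm ⊢
    exact (MonoidHom.normal_ker _).conj_mem m hm y
  have hMc : ∀ m ∈ M, ∀ n ∈ M, m * n * m⁻¹ * n⁻¹ = 1 := by
    rintro _ ⟨m, rfl⟩ _ ⟨n, rfl⟩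
    rw [← map_inv, ← map_inv, ← map_mul, ← map_mul, ← map_mul, mul_comm m n]
    simp
  -- the subgroup `N`
  let N : Subgroup (Gr2 k) :=
    ((((M.map (QuotientGroup.mk' F)).comap G₀.subtype).map e.toMonoidHom).map H₀.subtype).comap
      (QuotientGroup.mk' K)
  have hN : ∀ x : Gr2 k, x ∈ N ↔ ∃ g : G₀, (e g : Gr2 k ⧸ K) = QuotientGroup.mk' K x ∧
      ∃ m ∈ M, QuotientGroup.mk' F m = (g : Gr1 k ⧸ F) := by
    intro x
    constructor
    · rintro ⟨h, ⟨g, ⟨m, hm, hmg⟩, rfl⟩, hx⟩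
      exact ⟨g, hx, m, hm, hmg⟩
    · rintro ⟨g, hx, m, hm, hmg⟩
      exact ⟨e g, ⟨g, ⟨m, hm, hmg⟩, rfl⟩, hx⟩
  let L : Subgroup (Gr2 k) := H₀.comap (QuotientGroup.mk' K)
  have hLi : L.index ≠ 0 := by
    rw [Subgroup.index_comap_of_surjective _ (QuotientGroup.mk'_surjective K)]
    exact hH
  have hnorm : ∀ x ∈ L, ∀ n ∈ N, x * n * x⁻¹ ∈ N := by
    intro x hx n hn
    rw [hN] at hn ⊢
    obtain ⟨g, hg, m, hm, hmg⟩ := hn
    set gx : G₀ := e.symm ⟨QuotientGroup.mk' K x, hx⟩ with hgx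
    have hex : (e gx : Gr2 k ⧸ K) = QuotientGroup.mk' K x := by rw [hgx, MulEquiv.apply_symm_apply]
    obtain ⟨y, hy⟩ := QuotientGroup.mk'_surjective F gx.1
    refine ⟨gx * g * gx⁻¹, ?_, y * m * y⁻¹, hMn y m hm, ?_⟩
    · rw [map_mul, map_mul, map_inv, Subgroup.coe_mul, Subgroup.coe_mul, Subgroup.coe_inv, hg, hex,
        ← map_inv, ← map_mul, ← map_mul]
    · rw [map_mul, map_mul, map_inv, hy, hmg]; rfl
  have hcomm : ∀ n ∈ N, ∀ n' ∈ N, n * n' * n⁻¹ * n'⁻¹ ∈ K := by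
    intro n hn n' hn'
    rw [hN] at hn hn'
    obtain ⟨g, hg, m, hm, hmg⟩ := hn
    obtain ⟨g', hg', m', hm', hmg'⟩ := hn'
    have h1 : g * g' * g⁻¹ * g'⁻¹ = 1 := by
      apply Subtype.ext
      rw [Subgroup.coe_mul, Subgroup.coe_mul, Subgroup.coe_mul, Subgroup.coe_inv, Subgroup.coe_inv,
        ← hmg, ← hmg', ← map_inv, ← map_inv, ← map_mul, ← map_mul, ← map_mul, hMc m hm m' hm',
        map_one]
      rfl
    have h2 := congrArg (fun z : G₀ => (e z : Gr2 k ⧸ K)) h1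
    simp only [map_mul, map_inv, Subgroup.coe_mul, Subgroup.coe_inv, hg, hg', map_one,
      Subgroup.coe_one] at h2
    rw [← map_inv, ← map_inv, ← map_mul, ← map_mul, ← map_mul] at h2
    exact (QuotientGroup.eq_one_iff _).1 h2
  -- map to `Λ`
  have hsurj : Function.Surjective (rightHom : Gr2 k →* Lam k) := rightHom_surjective
  have hNtriv : ∀ n ∈ N, n * n = 1 := by
    intro n hn
    have h1 : rightHom n = (1 : Lam k) := by
      refine star hk (N.map rightHom) (L.map rightHom) (rightHom '' (K : Set (Gr2 k))) ?_ ?_ ?_ ?_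
        (rightHom n) ⟨n, hn, rfl⟩
      · intro h0
        have := Subgroup.index_map_dvd L hsurj
        rw [h0] at this
        exact hLi (Nat.eq_zero_of_zero_dvd this)
      · rintro _ ⟨x, hx, rfl⟩ _ ⟨m, hm, rfl⟩
        refine ⟨x * m * x⁻¹, hnorm x hx m hm, ?_⟩
        simp
      · exact Set.Finite.image _ (Set.toFinite _)
      · rintro _ ⟨x, hx, rfl⟩ _ ⟨m, hm, rfl⟩
        refine ⟨_, hcomm x hx m hm, ?_⟩
        simp
    have h2 : n = inl n.left := by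
      conv_lhs => rw [← inl_left_mul_inr_right n]
      have : n.right = 1 := h1
      rw [this, map_one, mul_one]
    rw [h2, ← map_mul]
    have : n.left * n.left = 1 := Subtype.ext (M2_sq n.left.2)
    rw [this, map_one]
  -- squares of elements of `M`
  have hsq : ∀ m ∈ M, QuotientGroup.mk' F m ∈ G₀ → m * m ∈ F := by
    intro m hm hmG
    obtain ⟨x, hx⟩ := QuotientGroup.mk'_surjective K (e ⟨_, hmG⟩).1
    have hxN : x ∈ N := (hN x).2 ⟨⟨_, hmG⟩, hx.symm, m, hm, rfl⟩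
    have h1 := hNtriv x hxN
    have h2 : e (⟨_, hmG⟩ * ⟨_, hmG⟩) = 1 := by
      apply Subtype.ext
      rw [map_mul, Subgroup.coe_mul, ← hx, ← map_mul, h1, map_one]; rfl
    have h3 : ((⟨_, hmG⟩ : G₀) * ⟨_, hmG⟩) = 1 := by
      apply e.injective; rw [h2, map_one]
    have h4 := congrArg (fun z : G₀ => (z : Gr1 k ⧸ F)) h3
    have h5 : QuotientGroup.mk' F (m * m) = 1 := by rw [map_mul]; exact h4
    exact (QuotientGroup.eq_one_iff _).1 h5
  -- pigeonhole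
  have hinfk : Infinite (VA k) :=
    Infinite.of_injective (fun p : k[X] => (fun _ : Fin 3 => p)) (fun a b h => congrFun h 0)
  refine pigeon F G₀ hG (uG k) ?_ ?_
  · intro a₀ a h
    refine hsq _ ?_ h
    refine ⟨(⟨uu a₀, uu_mem a₀⟩)⁻¹ * ⟨uu a, uu_mem a⟩, ?_⟩
    rw [map_mul, map_inv]; rfl
  · exact sq_inj

end notvi
end Pool.Agent.H197R3
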